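import Pool.Agent.Lib.MP_e685ae_an.Defs

/-!
# Arc length on the unit circle, Poisson kernel, Poisson representation
-/

namespace Pool.Agent.Lib.MP_e685ae_an

open Complex MeasureTheory Metric Filter Topology Set

/-- The Poisson kernel of the unit disc. -/
noncomputable def pk (z ζ : ℂ) : ℝ := (1 - ‖z‖ ^ 2) / ‖ζ - z‖ ^ 2

lemma two_pi_inv_pos : (0 : ℝ) < (2 * Real.pi)⁻¹ := by positivity

instance : IsProbabilityMeasure arc := by
  constructor
  unfold arc
  rw [Measure.smul_apply, Measure.map_apply (continuous_circleMap 0 1).measurable MeasurableSet.univ]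
  simp only [preimage_univ, Measure.restrict_apply_univ, Real.volume_Ioc, sub_zero, smul_eq_mul]
  rw [← ENNReal.ofReal_mul two_pi_inv_pos.le, inv_mul_cancel₀ (by positivity)]
  simp

lemma ae_arc_iff {p : ℂ → Prop} (hp : MeasurableSet {x | p x}) :
    (∀ᵐ ζ ∂arc, p ζ) ↔ ∀ᵐ t ∂(volume.restrict (Ioc (0 : ℝ) (2 * Real.pi))), p (circleMap 0 1 t) := by
  have hne : ENNReal.ofReal (2 * Real.pi)⁻¹ ≠ 0 :=
    (ENNReal.ofReal_pos.mpr two_pi_inv_pos).ne'
  unfold arc
  rw [Filter.Eventually, Measure.ae_ennreal_smul_measure_eq hne]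
  exact ae_map_iff (continuous_circleMap 0 1).aemeasurable hp

lemma ae_arc_norm : ∀ᵐ ζ ∂arc, ‖ζ‖ = 1 := by
  rw [ae_arc_iff (measurableSet_eq_fun (by fun_prop) (by fun_prop))]
  filter_upwards with t
  simp

lemma integral_arc {E : Type*} [NormedAddCommGroup E] [NormedSpace ℝ E] {f : ℂ → E}
    (hf : AEStronglyMeasurable f arc) : ∫ ζ, f ζ ∂arc = Real.circleAverage f 0 1 := by
  have hne : ENNReal.ofReal (2 * Real.pi)⁻¹ ≠ 0 :=
    (ENNReal.ofReal_pos.mpr two_pi_inv_pos).ne'
  have hf' : AEStronglyMeasurable f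
      ((volume.restrict (Ioc (0 : ℝ) (2 * Real.pi))).map (circleMap 0 1)) := by
    unfold arc at hf
    exact hf.mono_ac (Measure.absolutelyContinuous_smul hne)
  unfold arc
  rw [integral_smul_measure, integral_map (continuous_circleMap 0 1).aemeasurable hf',
    Real.circleAverage_def, intervalIntegral.integral_of_le (by positivity),
    ENNReal.toReal_ofReal two_pi_inv_pos.le]

lemma arc_restrict_sphere : arc.restrict (sphere 0 1) = arc := by
  apply Measure.restrict_eq_self_of_ae_mem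
  filter_upwards [ae_arc_norm] with ζ hζ
  simpa using hζ

lemma aesm_of_continuousOn {E : Type*} [NormedAddCommGroup E] {g : ℂ → E}
    (hg : ContinuousOn g (sphere 0 1)) : AEStronglyMeasurable g arc := by
  rw [← arc_restrict_sphere]
  exact hg.aestronglyMeasurable isClosed_sphere.measurableSet

lemma integrable_of_continuousOn {E : Type*} [NormedAddCommGroup E] {g : ℂ → E}
    (hg : ContinuousOn g (sphere 0 1)) : Integrable g arc := by
  rw [← arc_restrict_sphere]
  exact hg.integrableOn_compact (isCompact_sphere 0 1)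

lemma continuousOn_pk {z : ℂ} (hz : ‖z‖ < 1) : ContinuousOn (pk z) (sphere 0 1) := by
  unfold pk
  apply ContinuousOn.div (by fun_prop) (by fun_prop)
  intro ζ hζ
  have h1 : ‖ζ‖ = 1 := by simpa using hζ
  have : ζ - z ≠ 0 := by
    intro h
    have : ζ = z := by linear_combination h
    rw [this] at h1; linarith
  positivity

lemma pk_nonneg {z : ℂ} (hz : ‖z‖ < 1) (ζ : ℂ) : 0 ≤ pk z ζ := by
  unfold pk
  have := norm_nonneg z
  apply div_nonneg _ (by positivity)
  nlinarith

lemma pk_pos {z ζ : ℂ} (hz : ‖z‖ < 1) (hζ : ‖ζ‖ = 1) : 0 < pk z ζ := by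
  unfold pk
  have := norm_nonneg z
  have h2 : ζ - z ≠ 0 := by
    intro h
    have : ζ = z := by linear_combination h
    rw [this] at hζ; linarith
  apply div_pos (by nlinarith) (by positivity)

lemma pk_le {z ζ : ℂ} (hz : ‖z‖ < 1) (hζ : ‖ζ‖ = 1) : pk z ζ ≤ (1 + ‖z‖) / (1 - ‖z‖) := by
  unfold pk
  have h0 := norm_nonneg z
  have h2 : 1 - ‖z‖ ≤ ‖ζ - z‖ := by
    have := norm_sub_norm_le ζ z
    linarith
  have h3 : 0 < 1 - ‖z‖ := by linarith
  have h4 : (1 - ‖z‖) ^ 2 ≤ ‖ζ - z‖ ^ 2 := by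
    apply pow_le_pow_left₀ h3.le h2
  rw [div_le_div_iff₀ (by nlinarith) h3]
  nlinarith

/-- A norm bound for `pk`. -/
lemma norm_pk_le {z ζ : ℂ} (hz : ‖z‖ < 1) (hζ : ‖ζ‖ = 1) :
    ‖pk z ζ‖ ≤ (1 + ‖z‖) / (1 - ‖z‖) := by
  rw [Real.norm_of_nonneg (pk_nonneg hz ζ)]
  exact pk_le hz hζ

lemma pk_eq_poissonKernel {z ζ : ℂ} (hζ : ‖ζ‖ = 1) : poissonKernel 0 z ζ = pk z ζ := by
  unfold poissonKernel pk
  simp [hζ]

/-- Poisson representation for functions holomorphic on the disc, continuous up to the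
circle. -/
lemma poisson_repr_cl {f : ℂ → ℂ} (hf : DiffContOnCl ℂ f (ball 0 1)) {z : ℂ} (hz : ‖z‖ < 1) :
    f z = ∫ ζ, (pk z ζ : ℂ) * f ζ ∂arc := by
  have hc : ContinuousOn f (sphere 0 1) := by
    have := hf.continuousOn
    rw [closure_ball (0 : ℂ) one_ne_zero] at this
    exact this.mono sphere_subset_closedBall
  rw [integral_arc]
  · rw [← hf.circleAverage_poissonKernel_smul (w := z) (by simpa using hz)]
    apply Real.circleAverage_congr_sphere
    intro ζ hζ
    have h1 : ‖ζ‖ = 1 := by simpa using hζ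
    simp only [Pi.smul_apply', pk_eq_poissonKernel h1, real_smul]
  · apply aesm_of_continuousOn
    apply ContinuousOn.mul _ hc
    exact continuous_ofReal.comp_continuousOn (continuousOn_pk hz)

lemma integral_pk {z : ℂ} (hz : ‖z‖ < 1) : ∫ ζ, pk z ζ ∂arc = 1 := by
  have h := poisson_repr_cl (f := fun _ => (1 : ℂ)) diffContOnCl_const hz
  simp only [mul_one] at h
  rw [integral_complex_ofReal] at h
  exact_mod_cast h.symm

lemma integrable_pk {z : ℂ} (hz : ‖z‖ < 1) : Integrable (pk z) arc :=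
  integrable_of_continuousOn (continuousOn_pk hz)

/-- Multiplying an integrable function by the Poisson kernel. -/
lemma Integrable.pk_mul {z : ℂ} (hz : ‖z‖ < 1) {g : ℂ → ℝ} (hg : Integrable g arc) :
    Integrable (fun ζ => pk z ζ * g ζ) arc := by
  apply hg.bdd_mul (c := (1 + ‖z‖) / (1 - ‖z‖)) (aesm_of_continuousOn (continuousOn_pk hz))
  filter_upwards [ae_arc_norm] with ζ hζ
  exact norm_pk_le hz hζ

/-- Poisson representation of bounded holomorphic functions with radial limits almost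
everywhere. -/
theorem poisson_repr {f : ℂ → ℂ} (hf : DifferentiableOn ℂ f (ball 0 1)) {C : ℝ}
    (hb : ∀ z ∈ ball (0 : ℂ) 1, ‖f z‖ ≤ C) {g : ℂ → ℂ}
    (hg : ∀ᵐ ζ ∂arc, Tendsto (fun r : ℝ => f (r * ζ)) (𝓝[<] 1) (𝓝 (g ζ)))
    {z : ℂ} (hz : ‖z‖ < 1) :
    f z = ∫ ζ, (pk z ζ : ℂ) * g ζ ∂arc := by
  have hC : 0 ≤ C := (norm_nonneg _).trans (hb 0 (by simp))
  -- the representation for the dilated functions
  have hrep : ∀ r ∈ Ioo (0 : ℝ) 1, f (r * z) = ∫ ζ, (pk z ζ : ℂ) * f (r * ζ) ∂arc := by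
    intro r hr
    have hd : DiffContOnCl ℂ (fun w => f (r * w)) (ball 0 1) := by
      apply DifferentiableOn.diffContOnCl
      rw [closure_ball (0 : ℂ) one_ne_zero]
      apply hf.comp (by fun_prop)
      intro w hw
      have hw1 : ‖w‖ ≤ 1 := by simpa using hw
      simp only [mem_ball, dist_zero_right, norm_mul, norm_real, Real.norm_eq_abs,
        abs_of_pos hr.1]
      nlinarith [hr.1, hr.2, norm_nonneg w]
    exact poisson_repr_cl hd hz
  -- take the limit
  have hlim1 : Tendsto (fun r : ℝ => f (r * z)) (𝓝[<] 1) (𝓝 (f z)) := by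
    have hcont : ContinuousAt f z :=
      (hf.differentiableAt (isOpen_ball.mem_nhds (by simpa using hz))).continuousAt
    have h2 : Tendsto (fun r : ℝ => (r : ℂ) * z) (𝓝[<] 1) (𝓝 z) := by
      have : Tendsto (fun r : ℝ => (r : ℂ) * z) (𝓝 1) (𝓝 (((1 : ℝ) : ℂ) * z)) :=
        (Continuous.tendsto (by fun_prop) _)
      simp only [ofReal_one, one_mul] at this
      exact this.mono_left nhdsWithin_le_nhds
    exact hcont.tendsto.comp h2
  have hlim2 : Tendsto (fun r : ℝ => ∫ ζ, (pk z ζ : ℂ) * f (r * ζ) ∂arc) (𝓝[<] 1)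
      (𝓝 (∫ ζ, (pk z ζ : ℂ) * g ζ ∂arc)) := by
    apply tendsto_integral_filter_of_dominated_convergence
      (fun _ => (1 + ‖z‖) / (1 - ‖z‖) * C)
    · filter_upwards [Ioo_mem_nhdsLT (show (0 : ℝ) < 1 by norm_num)] with r hr
      apply aesm_of_continuousOn
      apply ContinuousOn.mul (continuous_ofReal.comp_continuousOn (continuousOn_pk hz))
      apply hf.continuousOn.comp (by fun_prop)
      intro w hw
      have hw1 : ‖w‖ = 1 := by simpa using hw
      simp only [mem_ball, dist_zero_right, norm_mul, norm_real, Real.norm_eq_abs,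
        abs_of_pos hr.1, hw1, mul_one]
      exact hr.2
    · filter_upwards [Ioo_mem_nhdsLT (show (0 : ℝ) < 1 by norm_num)] with r hr
      filter_upwards [ae_arc_norm] with ζ hζ
      rw [norm_mul, norm_real]
      apply mul_le_mul (norm_pk_le hz hζ) _ (norm_nonneg _)
      · apply div_nonneg (by positivity) (by linarith)
      · apply hb
        simp only [mem_ball, dist_zero_right, norm_mul, norm_real, Real.norm_eq_abs,
          abs_of_pos hr.1, hζ, mul_one]
        exact hr.2
    · exact integrable_const _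
    · filter_upwards [hg] with ζ hζ
      exact hζ.const_mul _
  refine tendsto_nhds_unique hlim1 (hlim2.congr' ?_)
  filter_upwards [Ioo_mem_nhdsLT (show (0 : ℝ) < 1 by norm_num)] with r hr
  exact (hrep r hr).symm

end Pool.Agent.Lib.MP_e685ae_an
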