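import Pool.Agent.Lib.MP_e685ae_an.OuterBound

/-!
# Mean values of `log |B|` for a Blaschke product `B`
-/

namespace Pool.Agent.Lib.MP_e685ae_an

open Complex MeasureTheory Metric Filter Topology Set

lemma norm_blaschkeFactor {a z : ℂ} :
    ‖blaschkeFactor a z‖ = ‖z - a‖ / ‖1 - (starRingEnd ℂ) a * z‖ := by
  unfold blaschkeFactor
  split_ifs with h
  · simp [h]
  · have : ‖(‖a‖ : ℂ) / a‖ = 1 := by
      rw [norm_div, norm_real, norm_norm, div_self (norm_ne_zero_iff.mpr h)]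
    rw [norm_mul, this, one_mul, norm_div, norm_sub_rev]

lemma norm_blaschkeFactor_le {a z : ℂ} (ha : ‖a‖ < 1) (hz : ‖z‖ < 1) :
    ‖blaschkeFactor a z‖ ≤ 1 := by
  rw [norm_blaschkeFactor]
  have h1 := norm_mob_lt (a := -a) (w := z) (by simpa using ha) hz
  unfold mob at h1
  rw [norm_div] at h1
  have e1 : z + -a = z - a := by ring
  have e2 : (1 : ℂ) + (starRingEnd ℂ) (-a) * z = 1 - (starRingEnd ℂ) a * z := by
    rw [map_neg]; ring
  rw [e1, e2] at h1
  exact h1.le

/-- The mean of `-log |b_a|` on the circle of radius `r`. -/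
lemma mean_blaschkeFactor {a : ℂ} (ha : ‖a‖ < 1) {r : ℝ} (hr : r ∈ Ioo (0 : ℝ) 1) :
    Integrable (fun ζ => -Real.log ‖blaschkeFactor a (r * ζ)‖) arc ∧
    ∫ ζ, -Real.log ‖blaschkeFactor a (r * ζ)‖ ∂arc
      = -(Real.log r + Real.posLog (r⁻¹ * ‖a‖)) := by
  -- the numerator
  have hc1 : CircleIntegrable (fun ζ : ℂ => Real.log ‖ζ - a‖) 0 r :=
    MeromorphicOn.circleIntegrable_log_norm (fun z _ => by fun_prop)
  have hm1 : Measurable (fun ζ : ℂ => Real.log ‖(r : ℂ) * ζ - a‖) := by fun_prop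
  have hav1 : ∫ ζ, Real.log ‖(r : ℂ) * ζ - a‖ ∂arc = Real.log r + Real.posLog (r⁻¹ * ‖a‖) := by
    rw [integral_arc hm1.aestronglyMeasurable]
    have h := circleAverage_log_norm_sub_const_eq_log_radius_add_posLog (a := a) (c := 0)
      hr.1.ne'
    rw [zero_sub, norm_neg] at h
    rw [← h, Real.circleAverage_eq_circleAverage_zero_one (R := r)]
    simp
  have hint1 : Integrable (fun ζ : ℂ => Real.log ‖(r : ℂ) * ζ - a‖) arc := by
    unfold arc
    apply Integrable.smul_measure _ ENNReal.ofReal_ne_top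
    rw [integrable_map_measure hm1.aestronglyMeasurable (continuous_circleMap 0 1).aemeasurable]
    have h := hc1
    unfold CircleIntegrable at h
    rw [intervalIntegrable_iff_integrableOn_Ioc_of_le (by positivity)] at h
    apply h.congr
    filter_upwards with t
    simp [circleMap]
  -- the denominator
  have hid : ∀ᵐ ζ ∂arc, ‖(r : ℂ) * ζ‖ ≤ 1 ∧
      Tendsto (fun s : ℝ => (r : ℂ) * ((s : ℂ) * ζ)) (𝓝[<] 1) (𝓝 ((r : ℂ) * ζ)) := by
    filter_upwards [ae_arc_norm] with ζ hζ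
    refine ⟨?_, ?_⟩
    · rw [norm_mul, hζ, mul_one, norm_real, Real.norm_of_nonneg hr.1.le]; exact hr.2.le
    · have : Tendsto (fun s : ℝ => (r : ℂ) * ((s : ℂ) * ζ)) (𝓝 1)
          (𝓝 ((r : ℂ) * (((1 : ℝ) : ℂ) * ζ))) := Continuous.tendsto (by fun_prop) _
      simp only [ofReal_one, one_mul] at this
      exact this.mono_left nhdsWithin_le_nhds
  obtain ⟨i2, r2⟩ := poisson_log (f := fun w => (r : ℂ) * w) (by fun_prop) (fun w hw => by
      rw [norm_mul, norm_real, Real.norm_of_nonneg hr.1.le]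
      nlinarith [hr.1, hr.2, norm_nonneg w]) hid (b := a) ha (z := 0) (by simp)
  have hpk0 : ∀ᵐ ζ ∂arc, pk 0 ζ * Real.log ‖1 - (starRingEnd ℂ) a * ((r : ℂ) * ζ)‖
      = Real.log ‖1 - (starRingEnd ℂ) a * ((r : ℂ) * ζ)‖ := by
    filter_upwards [ae_arc_norm] with ζ hζ
    simp [pk, hζ]
  have i2' := i2.congr hpk0
  have r2' : ∫ ζ, Real.log ‖1 - (starRingEnd ℂ) a * ((r : ℂ) * ζ)‖ ∂arc = 0 := by
    rw [← integral_congr_ae hpk0, r2]; simp
  -- combine
  have hnull : ∀ᵐ ζ ∂arc, (r : ℂ) * ζ ≠ a := by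
    rw [ae_arc_iff]
    · have hcount : (circleMap 0 1 ⁻¹' {((r : ℂ))⁻¹ * a}).Countable :=
        (countable_singleton _).preimage_circleMap 0 one_ne_zero
      have h0 : volume (circleMap 0 1 ⁻¹' {((r : ℂ))⁻¹ * a}) = 0 := hcount.measure_zero _
      have h1 : ∀ᵐ t : ℝ, t ∉ circleMap 0 1 ⁻¹' {((r : ℂ))⁻¹ * a} :=
        measure_eq_zero_iff_ae_notMem.mp h0
      filter_upwards [ae_restrict_of_ae h1] with t ht heq
      apply ht
      have hr0 : (r : ℂ) ≠ 0 := by exact_mod_cast hr.1.ne'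
      simp only [mem_preimage, mem_singleton_iff]
      rw [← heq]; field_simp
    · exact (measurableSet_eq_fun (by fun_prop) measurable_const).compl
  have hcomb : ∀ᵐ ζ ∂arc, -Real.log ‖blaschkeFactor a (r * ζ)‖
      = Real.log ‖1 - (starRingEnd ℂ) a * ((r : ℂ) * ζ)‖ - Real.log ‖(r : ℂ) * ζ - a‖ := by
    filter_upwards [hnull, ae_arc_norm] with ζ hζ hζ1
    rw [norm_blaschkeFactor, Real.log_div]
    · ring
    · exact norm_ne_zero_iff.mpr (sub_ne_zero.mpr hζ)
    · rw [norm_ne_zero_iff]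
      have hn : ‖(r : ℂ) * ζ‖ < 1 := by
        rw [norm_mul, hζ1, mul_one, norm_real, Real.norm_of_nonneg hr.1.le]; exact hr.2
      have := mob_den_ne (a := -a) (w := (r : ℂ) * ζ) (by simpa using ha) hn.le
      rw [map_neg] at this
      intro h; apply this; rw [← h]; ring
  constructor
  · exact (i2'.sub hint1).congr (by filter_upwards [hcomb] with ζ hζ; exact hζ.symm)
  · rw [integral_congr_ae hcomb, integral_sub i2' hint1, r2', hav1]
    ring

lemma mean_bound {a : ℂ} (ha : ‖a‖ < 1) {r : ℝ} (hr : r ∈ Ioo (1 / 2 : ℝ) 1) :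
    0 ≤ -(Real.log r + Real.posLog (r⁻¹ * ‖a‖)) ∧
    -(Real.log r + Real.posLog (r⁻¹ * ‖a‖)) ≤ 2 * (1 - ‖a‖) ∧
    -(Real.log r + Real.posLog (r⁻¹ * ‖a‖)) ≤ -Real.log r := by
  have r0 : 0 < r := by linarith [hr.1]
  have hlogr : Real.log r < 0 := Real.log_neg r0 hr.2
  have hpos : 0 ≤ Real.posLog (r⁻¹ * ‖a‖) := Real.posLog_nonneg
  refine ⟨?_, ?_, by linarith⟩
  · rcases le_total (r⁻¹ * ‖a‖) 1 with h | h
    · have : Real.posLog (r⁻¹ * ‖a‖) = 0 := by
        rw [Real.posLog_eq_zero_iff]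
        rw [abs_of_nonneg (by positivity)]; exact h
      rw [this]; linarith
    · have h1 : (0 : ℝ) < r⁻¹ * ‖a‖ := by linarith
      have h2 : 0 < ‖a‖ := by
        by_contra hcon
        have : ‖a‖ = 0 := le_antisymm (not_lt.mp hcon) (norm_nonneg a)
        rw [this] at h1; simp at h1
      rw [Real.posLog_eq_log (by rw [abs_of_nonneg h1.le]; exact h),
        Real.log_mul (by positivity) h2.ne', Real.log_inv]
      have := Real.log_neg h2 ha
      linarith
  · rcases le_total (1 / 2) ‖a‖ with h | h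
    · -- `posLog (r⁻¹ ‖a‖) ≥ log ‖a‖ - log r`
      have h2 : 0 < ‖a‖ := by linarith
      have h3 : Real.log (r⁻¹ * ‖a‖) ≤ Real.posLog (r⁻¹ * ‖a‖) := by
        rw [Real.posLog_apply]; exact le_max_right _ _
      rw [Real.log_mul (by positivity) h2.ne', Real.log_inv] at h3
      have h4 : -Real.log ‖a‖ ≤ 2 * (1 - ‖a‖) := by
        rw [← Real.log_inv]
        have h5 := Real.log_le_sub_one_of_pos (show 0 < ‖a‖⁻¹ by positivity)
        have h6 : ‖a‖⁻¹ - 1 = (1 - ‖a‖) / ‖a‖ := by field_simp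
        have h7 : (1 - ‖a‖) / ‖a‖ ≤ 2 * (1 - ‖a‖) := by
          rw [div_le_iff₀ h2]; nlinarith
        linarith
      linarith
    · have h5 := Real.log_le_sub_one_of_pos (show 0 < r⁻¹ by positivity)
      rw [Real.log_inv] at h5
      have h6 : r⁻¹ ≤ 2 := by
        rw [inv_le_comm₀ r0 (by norm_num)]; linarith [hr.1]
      linarith

/-- The data of a Blaschke product with zeros `a i` of multiplicity `m i`. -/
theorem blaschke_mean_tendsto {ι : Type*} [Countable ι] {a : ι → ℂ} {m : ι → ℕ}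
    (ha : ∀ i, ‖a i‖ < 1) (hsum : Summable fun i => (m i : ℝ) * (1 - ‖a i‖)) {B : ℂ → ℂ}
    (hB : ∀ z ∈ ball (0 : ℂ) 1, HasProd (fun i => blaschkeFactor (a i) z ^ m i) (B z)) :
    Tendsto (fun r : ℝ => ∫⁻ ζ, ENNReal.ofReal (-Real.log ‖B (r * ζ)‖) ∂arc) (𝓝[<] 1) (𝓝 0) := by
  -- pointwise bound
  have hpt : ∀ z ∈ ball (0 : ℂ) 1, ENNReal.ofReal (-Real.log ‖B z‖) ≤
      ∑' i, ENNReal.ofReal ((m i : ℝ) * -Real.log ‖blaschkeFactor (a i) z‖) := by
    intro z hz
    have hz1 : ‖z‖ < 1 := by simpa using hz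
    by_cases hBz : B z = 0
    · simp [hBz]
    have hne : ∀ i, blaschkeFactor (a i) z ^ m i ≠ 0 := by
      intro i hi
      exact hBz ((hB z hz).unique (hasProd_zero_of_exists_eq_zero ⟨i, hi⟩))
    have hnorm : HasProd (fun i => ‖blaschkeFactor (a i) z ^ m i‖) ‖B z‖ :=
      (hB z hz).map (normHom : ℂ →*₀ ℝ) continuous_norm
    have hlog : HasSum (fun i => (m i : ℝ) * -Real.log ‖blaschkeFactor (a i) z‖)
        (-Real.log ‖B z‖) := by
      have h1 : Tendsto (fun s : Finset ι => -Real.log (∏ i ∈ s, ‖blaschkeFactor (a i) z ^ m i‖))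
          atTop (𝓝 (-Real.log ‖B z‖)) :=
        ((Real.continuousAt_log (norm_ne_zero_iff.mpr hBz)).tendsto.comp hnorm).neg
      refine h1.congr fun s => ?_
      rw [Real.log_prod (fun i _ => norm_ne_zero_iff.mpr (hne i)), ← Finset.sum_neg_distrib]
      apply Finset.sum_congr rfl
      intro i _
      rw [norm_pow, Real.log_pow]; ring
    rw [← hlog.tsum_eq, ENNReal.ofReal_tsum_of_nonneg _ hlog.summable]
    intro i
    apply mul_nonneg (Nat.cast_nonneg _)
    rw [neg_nonneg]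
    exact Real.log_nonpos (norm_nonneg _) (norm_blaschkeFactor_le (ha i) hz1)
  -- integrated bound
  have hint : ∀ r ∈ Ioo (1 / 2 : ℝ) 1, ∫⁻ ζ, ENNReal.ofReal (-Real.log ‖B (r * ζ)‖) ∂arc ≤
      ENNReal.ofReal (∑' i, (m i : ℝ) * -(Real.log r + Real.posLog (r⁻¹ * ‖a i‖))) := by
    intro r hr
    have hr' : r ∈ Ioo (0 : ℝ) 1 := ⟨by linarith [hr.1], hr.2⟩
    have hball : ∀ᵐ ζ ∂arc, (r : ℂ) * ζ ∈ ball (0 : ℂ) 1 := by
      filter_upwards [ae_arc_norm] with ζ hζ
      simp only [mem_ball, dist_zero_right, norm_mul, hζ, mul_one, norm_real, Real.norm_eq_abs]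
      rw [abs_of_pos hr'.1]; exact hr.2
    have hnn : ∀ i, 0 ≤ (m i : ℝ) * -(Real.log r + Real.posLog (r⁻¹ * ‖a i‖)) := fun i =>
      mul_nonneg (Nat.cast_nonneg _) (mean_bound (ha i) hr).1
    have hsm : Summable fun i => (m i : ℝ) * -(Real.log r + Real.posLog (r⁻¹ * ‖a i‖)) := by
      apply Summable.of_nonneg_of_le hnn _ (hsum.mul_left 2)
      intro i
      have h1 := (mean_bound (ha i) hr).2.1
      have h2 : (0 : ℝ) ≤ m i := Nat.cast_nonneg _
      nlinarith
    calc ∫⁻ ζ, ENNReal.ofReal (-Real.log ‖B (r * ζ)‖) ∂arc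
        ≤ ∫⁻ ζ, ∑' i, ENNReal.ofReal ((m i : ℝ) * -Real.log ‖blaschkeFactor (a i) (r * ζ)‖) ∂arc := by
          apply lintegral_mono_ae
          filter_upwards [hball] with ζ hζ
          exact hpt _ hζ
      _ = ∑' i, ∫⁻ ζ, ENNReal.ofReal ((m i : ℝ) * -Real.log ‖blaschkeFactor (a i) (r * ζ)‖) ∂arc := by
          apply lintegral_tsum
          intro i
          have h := (mean_blaschkeFactor (ha i) hr').1.aestronglyMeasurable.aemeasurable
          exact (h.const_mul _).ennreal_ofReal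
      _ = ∑' i, ENNReal.ofReal ((m i : ℝ) * -(Real.log r + Real.posLog (r⁻¹ * ‖a i‖))) := by
          congr 1
          ext i
          obtain ⟨j1, j2⟩ := mean_blaschkeFactor (ha i) hr'
          rw [← ofReal_integral_eq_lintegral_ofReal (j1.const_mul _), integral_const_mul, j2]
          filter_upwards [hball] with ζ hζ
          apply mul_nonneg (Nat.cast_nonneg _)
          rw [neg_nonneg]
          exact Real.log_nonpos (norm_nonneg _)
            (norm_blaschkeFactor_le (ha i) (by simpa using hζ))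
      _ = _ := (ENNReal.ofReal_tsum_of_nonneg hnn hsm).symm
  -- limit of the sum
  have hlim : Tendsto (fun r : ℝ => ∑' i, (m i : ℝ) * -(Real.log r + Real.posLog (r⁻¹ * ‖a i‖)))
      (𝓝[<] 1) (𝓝 0) := by
    have h0 : (0 : ℝ) = ∑' _ : ι, (0 : ℝ) := by simp
    rw [h0]
    apply tendsto_tsum_of_dominated_convergence (hsum.mul_left 2)
    · intro i
      have h1 : Tendsto (fun r : ℝ => (m i : ℝ) * -Real.log r) (𝓝[<] 1) (𝓝 0) := by
        have h2 : Tendsto (fun r : ℝ => (m i : ℝ) * -Real.log r) (𝓝 1)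
            (𝓝 ((m i : ℝ) * -Real.log 1)) := by
          apply Tendsto.const_mul
          exact (Real.continuousAt_log one_ne_zero).tendsto.neg
        simp only [Real.log_one, neg_zero, mul_zero] at h2
        exact h2.mono_left nhdsWithin_le_nhds
      apply squeeze_zero' _ _ h1
      · filter_upwards [Ioo_mem_nhdsLT (show (1 / 2 : ℝ) < 1 by norm_num)] with r hr
        exact mul_nonneg (Nat.cast_nonneg _) (mean_bound (ha i) hr).1
      · filter_upwards [Ioo_mem_nhdsLT (show (1 / 2 : ℝ) < 1 by norm_num)] with r hr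
        exact mul_le_mul_of_nonneg_left (mean_bound (ha i) hr).2.2 (Nat.cast_nonneg _)
    · filter_upwards [Ioo_mem_nhdsLT (show (1 / 2 : ℝ) < 1 by norm_num)] with r hr i
      have h1 := mean_bound (ha i) hr
      rw [Real.norm_of_nonneg (mul_nonneg (Nat.cast_nonneg _) h1.1)]
      have h2 : (0 : ℝ) ≤ m i := Nat.cast_nonneg _
      nlinarith [h1.2.1]
  have hlim2 : Tendsto (fun r : ℝ => ENNReal.ofReal
      (∑' i, (m i : ℝ) * -(Real.log r + Real.posLog (r⁻¹ * ‖a i‖)))) (𝓝[<] 1) (𝓝 0) := by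
    have := ENNReal.tendsto_ofReal hlim
    simpa using this
  apply tendsto_of_tendsto_of_tendsto_of_le_of_le' tendsto_const_nhds hlim2
  · filter_upwards with r; exact zero_le
  · filter_upwards [Ioo_mem_nhdsLT (show (1 / 2 : ℝ) < 1 by norm_num)] with r hr
    exact hint r hr

end Pool.Agent.Lib.MP_e685ae_an
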