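import Mathlib

/-!
# Inner functions, Nevanlinna class, canonical factorization, boundary spectrum

Definitions used in the statement. The unit disc is `ball (0 : ℂ) 1`, the unit circle is
`sphere (0 : ℂ) 1`, and `arc` is normalised arc length on the circle (a measure on `ℂ`).
-/

namespace Pool.Agent.Lib.MP_e685ae_an

open Complex MeasureTheory Metric Filter Topology Set

/-- Normalised arc length on the unit circle, as a measure on `ℂ`. -/
noncomputable def arc : Measure ℂ :=
  ENNReal.ofReal (2 * Real.pi)⁻¹ •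
    (volume.restrict (Ioc (0 : ℝ) (2 * Real.pi))).map (circleMap 0 1)

/-- `g` gives the radial limits of `f` at almost every point of the unit circle. -/
def HasRadialLimits (f g : ℂ → ℂ) : Prop :=
  ∀ᵐ ζ ∂arc, Tendsto (fun r : ℝ => f (r * ζ)) (𝓝[<] 1) (𝓝 (g ζ))

/-- Inner functions: bounded holomorphic functions on the unit disc whose radial limits have
modulus one at almost every point of the circle. -/
structure IsInner (f : ℂ → ℂ) : Prop where
  holo : DifferentiableOn ℂ f (ball 0 1)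
  bdd : ∃ C : ℝ, ∀ z ∈ ball (0 : ℂ) 1, ‖f z‖ ≤ C
  radial : ∀ᵐ ζ ∂arc, ∃ L : ℂ, ‖L‖ = 1 ∧ Tendsto (fun r : ℝ => f (r * ζ)) (𝓝[<] 1) (𝓝 L)

/-- The Nevanlinna class of the unit disc. -/
structure IsNevanlinna (f : ℂ → ℂ) : Prop where
  holo : DifferentiableOn ℂ f (ball 0 1)
  bdd : ∃ C : ℝ, ∀ r ∈ Ioo (0 : ℝ) 1,
    ∫ t in (0 : ℝ)..(2 * Real.pi), Real.posLog ‖f (r * exp (t * I))‖ ≤ C

/-- A single Blaschke factor with zero `a`. -/
noncomputable def blaschkeFactor (a z : ℂ) : ℂ :=
  if a = 0 then z else (‖a‖ / a) * ((a - z) / (1 - (starRingEnd ℂ) a * z))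

/-- `B` is the Blaschke product over the zeros of `f` in the unit disc, repeated according to
multiplicity: the Blaschke condition holds and `B z` is the product of the factors. -/
structure IsBlaschkeProductOf (B f : ℂ → ℂ) : Prop where
  summable : Summable fun a : {a : ℂ // ‖a‖ < 1 ∧ f a = 0} =>
    (analyticOrderNatAt f a : ℝ) * (1 - ‖(a : ℂ)‖)
  hasProd : ∀ z ∈ ball (0 : ℂ) 1, HasProd
    (fun a : {a : ℂ // ‖a‖ < 1 ∧ f a = 0} => blaschkeFactor a z ^ analyticOrderNatAt f a) (B z)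

/-- The singular inner function `S_μ(z) = exp (- ∫ (ζ + z) / (ζ - z) dμ(ζ))`. -/
noncomputable def singularInner (μ : Measure ℂ) (z : ℂ) : ℂ :=
  exp (-∫ ζ, (ζ + z) / (ζ - z) ∂μ)

/-- The outer function `O(z) = exp (∫ (ζ + z) / (ζ - z) log |g(ζ)| dm(ζ))` with boundary modulus
`|g|`. -/
noncomputable def outerFn (g : ℂ → ℂ) (z : ℂ) : ℂ :=
  exp (∫ ζ, (ζ + z) / (ζ - z) * (Real.log ‖g ζ‖ : ℂ) ∂arc)

/-- The canonical factorization `f = c B (S_μ / S_ν) O` of a function of the Nevanlinna class: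
`|c| = 1`, `B` is the Blaschke product over the zeros of `f`, the finite positive measures `μ`
and `ν` live on the circle, are singular with respect to arc length and mutually singular, and
`O` is the outer function whose boundary modulus is that of the radial limits of `f`. -/
structure IsCanonicalFactorization (f B : ℂ → ℂ) (μ ν : Measure ℂ) : Prop where
  finite_μ : IsFiniteMeasure μ
  finite_ν : IsFiniteMeasure ν
  circle_μ : μ (sphere 0 1)ᶜ = 0
  circle_ν : ν (sphere 0 1)ᶜ = 0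
  singular_μ : μ ⟂ₘ arc
  singular_ν : ν ⟂ₘ arc
  singular_μν : μ ⟂ₘ ν
  blaschke : IsBlaschkeProductOf B f
  factor : ∃ (c : ℂ) (g : ℂ → ℂ), ‖c‖ = 1 ∧ HasRadialLimits f g ∧
    Integrable (fun ζ => Real.log ‖g ζ‖) arc ∧
    ∀ z ∈ ball (0 : ℂ) 1, f z = c * B z * (singularInner μ z / singularInner ν z) * outerFn g z

/-- `I` is the inner factor `inn(f) = B S_μ` of `f` (up to a unimodular constant). -/
def IsInnerFactorOf (I f : ℂ → ℂ) : Prop :=
  ∃ (B : ℂ → ℂ) (μ ν : Measure ℂ), IsCanonicalFactorization f B μ ν ∧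
    ∃ c : ℂ, ‖c‖ = 1 ∧ ∀ z ∈ ball (0 : ℂ) 1, I z = c * B z * singularInner μ z

/-- The boundary spectrum `σ(f)`: the points of the circle across which `f` has no holomorphic
continuation to a full neighbourhood. -/
def boundarySpectrum (f : ℂ → ℂ) : Set ℂ :=
  {ζ | ‖ζ‖ = 1 ∧ ¬ ∃ g : ℂ → ℂ, AnalyticAt ℂ g ζ ∧ ∀ᶠ z in 𝓝[ball 0 1] ζ, g z = f z}

end Pool.Agent.Lib.MP_e685ae_an
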