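import Pool.Agent.Lib.MP_e685ae_an.SchwarzPick

/-!
# Maps that are almost hyperbolic isometries near a boundary arc

If a holomorphic self-map `θ` of the disc satisfies
`(1 - |z|²) |θ'(z)| ≥ (99/100) (1 - |θ(z)|²)` near a boundary point `ζ₀` then `|θ| → 1` at `ζ₀`.
-/

set_option linter.unusedSectionVars false

namespace Pool.Agent.Lib.MP_e685ae_an

open Complex MeasureTheory Metric Filter Topology Set

lemma normSq_one_add_ge (u : ℂ) : 1 + 2 * u.re ≤ ‖1 + u‖ ^ 2 := by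
  rw [← normSq_eq_norm_sq, normSq_apply]
  simp only [add_re, one_re, add_im, one_im]
  nlinarith [sq_nonneg u.re, sq_nonneg u.im]

section
variable {θ : ℂ → ℂ} (hθ : DifferentiableOn ℂ θ (ball 0 1))
  (hmap : ∀ z : ℂ, ‖z‖ < 1 → ‖θ z‖ < 1)
include hθ hmap

lemma growth_step {z w : ℂ} (hz : ‖z‖ < 1) (hw : ‖w‖ = 1 / 2)
    (hτ : 99 / 100 * (1 - ‖θ z‖ ^ 2) ≤ (1 - ‖z‖ ^ 2) * ‖deriv θ z‖) :
    (5 / 2) * (1 / (1 - ‖θ z‖ ^ 2)) ≤
      1 / (1 - ‖θ (mob z w)‖ ^ 2) + 1 / (1 - ‖θ (mob z (-w))‖ ^ 2) := by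
  have hw1 : ‖w‖ < 1 := by rw [hw]; norm_num
  have hw2 : ‖-w‖ < 1 := by rw [norm_neg]; exact hw1
  have hw' : ‖-w‖ = 1 / 2 := by rw [norm_neg]; exact hw
  set a := θ z with ha
  have ha1 : ‖a‖ < 1 := hmap z hz
  have pa : 0 < 1 - ‖a‖ ^ 2 := by nlinarith [norm_nonneg a]
  set F := conjMap θ z with hF
  have hFd := differentiableOn_conjMap hθ hmap hz
  have hFm : ∀ v : ℂ, ‖v‖ < 1 → ‖F v‖ < 1 := fun v hv => norm_conjMap_lt hθ hmap hz hv
  have hF0 : F 0 = 0 := conjMap_zero hθ hmap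
  have hD : 1 - (1 / 100 : ℝ) ≤ ‖deriv F 0‖ := by
    rw [hF, norm_deriv_conjMap hθ hmap hz, ← ha, le_div_iff₀ pa]
    linarith
  have n1 := near_linear hFd hFm hF0 hD hw
  have n2 := near_linear hFd hFm hF0 hD hw'
  have h1 : θ (mob z w) = mob a (F w) := theta_mob hθ hmap hz hw1
  have h2 : θ (mob z (-w)) = mob a (F (-w)) := theta_mob hθ hmap hz hw2
  have l1 : ‖F w‖ < 1 := hFm w hw1
  have l2 : ‖F (-w)‖ < 1 := hFm (-w) hw2
  have o1 := one_sub_mob ha1 l1.le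
  have o2 := one_sub_mob ha1 l2.le
  rw [h1, h2, o1, o2]
  have d1 := mob_den_ne ha1 l1.le
  have d2 := mob_den_ne ha1 l2.le
  -- lower bounds for `|F (±w)|`
  have lw : ‖deriv F 0 * w‖ = ‖deriv F 0‖ / 2 := by rw [norm_mul, hw]; ring
  have lw' : ‖deriv F 0 * -w‖ = ‖deriv F 0‖ / 2 := by rw [norm_mul, hw']; ring
  have b1 : (485 / 1000 : ℝ) ≤ ‖F w‖ := by
    have := norm_sub_norm_le (deriv F 0 * w) (deriv F 0 * w - F w)
    have e : deriv F 0 * w - (deriv F 0 * w - F w) = F w := by ring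
    rw [e, norm_sub_rev (deriv F 0 * w) (F w)] at this
    linarith
  have b2 : (485 / 1000 : ℝ) ≤ ‖F (-w)‖ := by
    have := norm_sub_norm_le (deriv F 0 * -w) (deriv F 0 * -w - F (-w))
    have e : deriv F 0 * -w - (deriv F 0 * -w - F (-w)) = F (-w) := by ring
    rw [e, norm_sub_rev (deriv F 0 * -w) (F (-w))] at this
    linarith
  -- numerator bounds
  have sum : ‖F w + F (-w)‖ ≤ 2 / 100 := by
    have e : F w + F (-w) = (F w - deriv F 0 * w) + (F (-w) - deriv F 0 * -w) := by ring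
    rw [e]
    refine (norm_add_le _ _).trans ?_
    linarith
  have g1 := normSq_one_add_ge ((starRingEnd ℂ) a * F w)
  have g2 := normSq_one_add_ge ((starRingEnd ℂ) a * F (-w))
  have g3 : -(2 / 100 : ℝ) ≤ ((starRingEnd ℂ) a * F w).re + ((starRingEnd ℂ) a * F (-w)).re := by
    have e : ((starRingEnd ℂ) a * F w).re + ((starRingEnd ℂ) a * F (-w)).re
        = ((starRingEnd ℂ) a * (F w + F (-w))).re := by
      rw [mul_add, add_re]
    rw [e]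
    have h3 := abs_re_le_norm ((starRingEnd ℂ) a * (F w + F (-w)))
    rw [norm_mul, RCLike.norm_conj] at h3
    have h4 := neg_abs_le ((starRingEnd ℂ) a * (F w + F (-w))).re
    nlinarith [norm_nonneg a, norm_nonneg (F w + F (-w))]
  have p1 : 0 < 1 - ‖F w‖ ^ 2 := by nlinarith [norm_nonneg (F w)]
  have p2 : 0 < 1 - ‖F (-w)‖ ^ 2 := by nlinarith [norm_nonneg (F (-w))]
  have q1 : 1 - ‖F w‖ ^ 2 ≤ 764775 / 1000000 := by nlinarith
  have q2 : 1 - ‖F (-w)‖ ^ 2 ≤ 764775 / 1000000 := by nlinarith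
  set N1 := ‖1 + (starRingEnd ℂ) a * F w‖ ^ 2 with hN1
  set N2 := ‖1 + (starRingEnd ℂ) a * F (-w)‖ ^ 2 with hN2
  have N1pos : 0 < N1 := by positivity
  have N2pos : 0 < N2 := by positivity
  have r1 : 1 / ((1 - ‖a‖ ^ 2) * (1 - ‖F w‖ ^ 2) / N1)
      = (1 / (1 - ‖a‖ ^ 2)) * (N1 / (1 - ‖F w‖ ^ 2)) := by field_simp
  have r2 : 1 / ((1 - ‖a‖ ^ 2) * (1 - ‖F (-w)‖ ^ 2) / N2)
      = (1 / (1 - ‖a‖ ^ 2)) * (N2 / (1 - ‖F (-w)‖ ^ 2)) := by field_simp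
  rw [r1, r2, ← mul_add, mul_comm (5 / 2 : ℝ)]
  apply mul_le_mul_of_nonneg_left _ (by positivity)
  have s1 : N1 / (764775 / 1000000) ≤ N1 / (1 - ‖F w‖ ^ 2) := by gcongr
  have s2 : N2 / (764775 / 1000000) ≤ N2 / (1 - ‖F (-w)‖ ^ 2) := by gcongr
  have s3 : (5 / 2 : ℝ) ≤ N1 / (764775 / 1000000) + N2 / (764775 / 1000000) := by
    rw [← add_div, le_div_iff₀ (by norm_num)]
    linarith
  linarith

end

/-- The point of the radius through `ζ` with parameter `q`, i.e. `ζ (1 - q) / (1 + q)`. -/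
noncomputable def radPt (ζ : ℂ) (q : ℝ) : ℂ := (((1 - q) / (1 + q) : ℝ) : ℂ) * ζ

lemma norm_radPt {ζ : ℂ} (hζ : ‖ζ‖ = 1) {q : ℝ} (h0 : 0 < q) (h1 : q ≤ 1) :
    ‖radPt ζ q‖ = (1 - q) / (1 + q) := by
  unfold radPt
  rw [norm_mul, hζ, mul_one, norm_real, Real.norm_of_nonneg]
  apply div_nonneg <;> linarith

lemma norm_radPt_lt {ζ : ℂ} (hζ : ‖ζ‖ = 1) {q : ℝ} (h0 : 0 < q) (h1 : q ≤ 1) :
    ‖radPt ζ q‖ < 1 := by
  rw [norm_radPt hζ h0 h1, div_lt_one (by linarith)]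
  linarith

lemma conj_mul_self_of_norm {ζ : ℂ} (hζ : ‖ζ‖ = 1) : (starRingEnd ℂ) ζ * ζ = 1 := by
  rw [← normSq_eq_conj_mul_self, normSq_eq_norm_sq, hζ]; simp

lemma mob_radPt_out {ζ : ℂ} (hζ : ‖ζ‖ = 1) {q : ℝ} (h0 : 0 < q) (_h1 : q ≤ 1) :
    mob (radPt ζ q) (ζ / 2) = radPt ζ (q / 3) := by
  have hc := conj_mul_self_of_norm hζ
  unfold mob radPt
  have q1 : (1 + q : ℂ) ≠ 0 := by
    have : (0 : ℝ) < 1 + q := by linarith
    exact_mod_cast this.ne'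
  have q3 : (3 + q : ℂ) ≠ 0 := by
    have : (0 : ℝ) < 3 + q := by linarith
    exact_mod_cast this.ne'
  have e : (1 : ℂ) + (starRingEnd ℂ) ((((1 - q) / (1 + q) : ℝ) : ℂ) * ζ) * (ζ / 2)
      = (3 + q) / (2 * (1 + q)) := by
    rw [map_mul, conj_ofReal]
    push_cast
    have : ((1 - q) / (1 + q) * (starRingEnd ℂ) ζ * (ζ / 2) : ℂ)
        = (1 - q) / (1 + q) / 2 * ((starRingEnd ℂ) ζ * ζ) := by ring
    rw [this, hc]
    field_simp
    ring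
  rw [e]
  push_cast
  have q4 : (1 + q / 3 : ℂ) ≠ 0 := by
    have : (0 : ℝ) < 1 + q / 3 := by linarith
    exact_mod_cast this.ne'
  have e3 : ((1 - q / 3) / (1 + q / 3) : ℂ) = (3 - q) / (3 + q) := by
    rw [div_eq_div_iff q4 q3]; ring
  rw [e3]
  field_simp
  ring

lemma mob_radPt_in {ζ : ℂ} (hζ : ‖ζ‖ = 1) {q : ℝ} (h0 : 0 < q) (h1 : q ≤ 1 / 3) :
    mob (radPt ζ q) (-(ζ / 2)) = radPt ζ (3 * q) := by
  have hc := conj_mul_self_of_norm hζ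
  unfold mob radPt
  have q1 : (1 + q : ℂ) ≠ 0 := by
    have : (0 : ℝ) < 1 + q := by linarith
    exact_mod_cast this.ne'
  have q3 : (1 + 3 * q : ℂ) ≠ 0 := by
    have : (0 : ℝ) < 1 + 3 * q := by linarith
    exact_mod_cast this.ne'
  have e : (1 : ℂ) + (starRingEnd ℂ) ((((1 - q) / (1 + q) : ℝ) : ℂ) * ζ) * (-(ζ / 2))
      = (1 + 3 * q) / (2 * (1 + q)) := by
    rw [map_mul, conj_ofReal]
    push_cast
    have : ((1 - q) / (1 + q) * (starRingEnd ℂ) ζ * (-(ζ / 2)) : ℂ)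
        = -((1 - q) / (1 + q) / 2 * ((starRingEnd ℂ) ζ * ζ)) := by ring
    rw [this, hc]
    field_simp
    ring
  rw [e]
  push_cast
  field_simp
  ring

/-- A sequence with `y ≥ 1`, `y (n+2) + y n ≥ (5/2) y (n+1)` grows at least quadratically. -/
lemma seq_growth {y : ℕ → ℝ} (h1 : ∀ n, 1 ≤ y n) (h : ∀ n, 5 / 2 * y (n + 1) ≤ y (n + 2) + y n)
    (n : ℕ) : -(n : ℝ) * y 0 + n * (n - 1) / 4 ≤ y n ∧
      -y 0 + n / 2 ≤ y (n + 1) - y n := by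
  induction n with
  | zero =>
    simp only [Nat.cast_zero]
    constructor
    · have := h1 0; norm_num; linarith
    · have := h1 1; norm_num; linarith
  | succ n ih =>
    obtain ⟨i1, i2⟩ := ih
    constructor
    · push_cast
      nlinarith
    · have h3 := h n
      have h4 := h1 (n + 1)
      push_cast
      have : y (n + 1 + 1) = y (n + 2) := rfl
      rw [this]
      linarith

lemma dist_radPt {ζ : ℂ} (hζ : ‖ζ‖ = 1) {q : ℝ} (h0 : 0 < q) : dist (radPt ζ q) ζ ≤ 2 * q := by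
  rw [dist_eq_norm]
  have e : radPt ζ q - ζ = ((-(2 * q / (1 + q)) : ℝ) : ℂ) * ζ := by
    unfold radPt
    have q1 : (1 + q : ℂ) ≠ 0 := by
      have : (0 : ℝ) < 1 + q := by linarith
      exact_mod_cast this.ne'
    push_cast
    field_simp
    ring
  rw [e, norm_mul, hζ, mul_one, norm_real, norm_neg, Real.norm_of_nonneg (by positivity)]
  apply div_le_self (by linarith) (by linarith)

/-- If a self-map of the disc is almost a hyperbolic isometry near a boundary point, then its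
modulus tends to `1` there. -/
theorem norm_tendsto_one_of_near_isometry {θ : ℂ → ℂ}
    (hθ : DifferentiableOn ℂ θ (ball 0 1)) (hmap : ∀ z : ℂ, ‖z‖ < 1 → ‖θ z‖ < 1)
    {ζ₀ : ℂ} {ρ : ℝ} (hρ : 0 < ρ)
    (hτ : ∀ z : ℂ, ‖z‖ < 1 → dist z ζ₀ < ρ →
      99 / 100 * (1 - ‖θ z‖ ^ 2) ≤ (1 - ‖z‖ ^ 2) * ‖deriv θ z‖) (h₀ : ‖ζ₀‖ = 1) :
    Tendsto (fun z => ‖θ z‖) (𝓝[ball 0 1] ζ₀) (𝓝 1) := by
  obtain ⟨q₀, hq₀⟩ : ∃ q₀ : ℝ, q₀ = min (ρ / 4) (1 / 3) := ⟨_, rfl⟩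
  have q₀pos : 0 < q₀ := by rw [hq₀]; apply lt_min <;> linarith
  have q₀ρ : q₀ ≤ ρ / 4 := hq₀ ▸ min_le_left _ _
  have q₀3 : q₀ ≤ 1 / 3 := hq₀ ▸ min_le_right _ _
  -- bound on a compact set
  obtain ⟨R₁, hR₁⟩ : ∃ R₁ : ℝ, R₁ = (1 - q₀ / 3) / (1 + q₀ / 3) := ⟨_, rfl⟩
  have R₁lt : R₁ < 1 := by rw [hR₁, div_lt_one (by linarith)]; linarith
  have hpos : ∀ z : ℂ, ‖z‖ < 1 → 0 < 1 - ‖θ z‖ ^ 2 := fun z hz => by
    nlinarith [norm_nonneg (θ z), hmap z hz]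
  obtain ⟨M, hM⟩ : ∃ M : ℝ, ∀ z : ℂ, ‖z‖ ≤ R₁ → 1 / (1 - ‖θ z‖ ^ 2) ≤ M := by
    have hc : ContinuousOn (fun z => 1 / (1 - ‖θ z‖ ^ 2)) (closedBall 0 R₁) := by
      have h1 : ContinuousOn θ (closedBall 0 R₁) :=
        hθ.continuousOn.mono (closedBall_subset_ball R₁lt)
      apply ContinuousOn.div continuousOn_const
      · exact continuousOn_const.sub (h1.norm.pow 2)
      · intro z hz
        have : ‖z‖ ≤ R₁ := by simpa using hz
        exact (hpos z (by linarith)).ne'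
    obtain ⟨M, hM⟩ := (isCompact_closedBall (0 : ℂ) R₁).exists_bound_of_continuousOn hc
    refine ⟨M, fun z hz => ?_⟩
    have := hM z (by simpa using hz)
    exact (le_abs_self _).trans this
  -- the growth estimate along radii
  have growth : ∀ ζ : ℂ, ‖ζ‖ = 1 → dist ζ ζ₀ < ρ / 2 → ∀ Q : ℝ, q₀ / 3 < Q → Q ≤ q₀ → ∀ n : ℕ,
      -(n : ℝ) * M + n * (n - 1) / 4 ≤ 1 / (1 - ‖θ (radPt ζ (Q / 3 ^ n))‖ ^ 2) := by
    intro ζ hζ hd Q hQ1 hQ2 n
    have Qpos : 0 < Q := by linarith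
    have hq : ∀ n : ℕ, 0 < Q / 3 ^ n ∧ Q / 3 ^ n ≤ q₀ := by
      intro n
      have h3 : (1 : ℝ) ≤ 3 ^ n := one_le_pow₀ (by norm_num)
      constructor
      · positivity
      · exact (div_le_self Qpos.le h3).trans hQ2
    have hlt : ∀ n : ℕ, ‖radPt ζ (Q / 3 ^ n)‖ < 1 := fun n =>
      norm_radPt_lt hζ (hq n).1 ((hq n).2.trans (by linarith))
    have hy1 : ∀ n : ℕ, 1 ≤ 1 / (1 - ‖θ (radPt ζ (Q / 3 ^ n))‖ ^ 2) := by
      intro n
      rw [le_div_iff₀ (hpos _ (hlt n))]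
      nlinarith [sq_nonneg ‖θ (radPt ζ (Q / 3 ^ n))‖]
    have hstep : ∀ n : ℕ, 5 / 2 * (1 / (1 - ‖θ (radPt ζ (Q / 3 ^ (n + 1)))‖ ^ 2)) ≤
        1 / (1 - ‖θ (radPt ζ (Q / 3 ^ (n + 2)))‖ ^ 2)
          + 1 / (1 - ‖θ (radPt ζ (Q / 3 ^ n))‖ ^ 2) := by
      intro n
      have e3 : Q / 3 ^ (n + 1) = Q / 3 ^ n / 3 := by rw [pow_succ]; field_simp
      have hq3 : Q / 3 ^ (n + 1) ≤ 1 / 3 := by
        rw [e3]
        have := (hq n).2
        linarith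
      have e1 : mob (radPt ζ (Q / 3 ^ (n + 1))) (ζ / 2) = radPt ζ (Q / 3 ^ (n + 2)) := by
        rw [mob_radPt_out hζ (hq (n + 1)).1 ((hq (n + 1)).2.trans (by linarith))]
        congr 1
        rw [pow_succ (3 : ℝ) (n + 1)]; field_simp
      have e2 : mob (radPt ζ (Q / 3 ^ (n + 1))) (-(ζ / 2)) = radPt ζ (Q / 3 ^ n) := by
        rw [mob_radPt_in hζ (hq (n + 1)).1 hq3]
        congr 1
        rw [e3]; ring
      have hdist : dist (radPt ζ (Q / 3 ^ (n + 1))) ζ₀ < ρ := by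
        have h5 := dist_radPt hζ (hq (n + 1)).1
        have h6 := dist_triangle (radPt ζ (Q / 3 ^ (n + 1))) ζ ζ₀
        have h7 := (hq (n + 1)).2
        linarith
      have h8 := growth_step hθ hmap (hlt (n + 1)) (w := ζ / 2) (by simp [hζ])
        (hτ _ (hlt (n + 1)) hdist)
      rw [e1, e2] at h8
      exact h8
    have h9 := (seq_growth hy1 hstep n).1
    have h10 : 1 / (1 - ‖θ (radPt ζ (Q / 3 ^ 0))‖ ^ 2) ≤ M := by
      apply hM
      rw [pow_zero, div_one, norm_radPt hζ Qpos (by linarith), hR₁,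
        div_le_div_iff₀ (by linarith) (by linarith)]
      nlinarith
    have h11 : (n : ℝ) * (1 / (1 - ‖θ (radPt ζ (Q / 3 ^ 0))‖ ^ 2)) ≤ n * M := by
      gcongr
    linarith
  -- conclusion
  rw [Metric.tendsto_nhds]
  intro ε hε
  obtain ⟨N, hN⟩ : ∃ N : ℕ, ∀ n : ℕ, N ≤ n → 2 / ε ≤ -(n : ℝ) * M + n * (n - 1) / 4 := by
    obtain ⟨N, hN⟩ := exists_nat_ge (max (2 / ε) (4 * M + 5))
    refine ⟨N, fun n hn => ?_⟩
    have h1 : (N : ℝ) ≤ n := by exact_mod_cast hn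
    have h2 : 2 / ε ≤ n := ((le_max_left _ _).trans hN).trans h1
    have h3 : 4 * M + 5 ≤ n := ((le_max_right _ _).trans hN).trans h1
    have h4 : 0 < 2 / ε := by positivity
    nlinarith
  have hev1 : ∀ᶠ z in 𝓝[ball 0 1] ζ₀, ‖z‖ < 1 := by
    filter_upwards [self_mem_nhdsWithin] with z hz
    simpa using hz
  have hcont : ContinuousAt (fun z : ℂ => (1 - ‖z‖) / (1 + ‖z‖)) ζ₀ := by
    apply ContinuousAt.div (by fun_prop) (by fun_prop)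
    rw [h₀]; norm_num
  have hev2 : ∀ᶠ z in 𝓝[ball 0 1] ζ₀, (1 - ‖z‖) / (1 + ‖z‖) < q₀ / 3 ^ (N + 1) := by
    apply nhdsWithin_le_nhds
    have : Tendsto (fun z : ℂ => (1 - ‖z‖) / (1 + ‖z‖)) (𝓝 ζ₀) (𝓝 0) := by
      have h := hcont.tendsto
      rw [h₀] at h
      simpa using h
    exact this.eventually_lt_const (by positivity)
  have hev3 : ∀ᶠ z in 𝓝[ball 0 1] ζ₀, z ≠ 0 ∧ dist (((‖z‖⁻¹ : ℝ) : ℂ) * z) ζ₀ < ρ / 2 := by
    apply nhdsWithin_le_nhds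
    have hne : ζ₀ ≠ 0 := by intro h; rw [h] at h₀; simp at h₀
    have hn : ‖ζ₀‖ ≠ 0 := by rw [h₀]; norm_num
    have hc2 : ContinuousAt (fun z : ℂ => ((‖z‖⁻¹ : ℝ) : ℂ) * z) ζ₀ := by
      apply ContinuousAt.mul _ continuousAt_id
      apply continuous_ofReal.continuousAt.comp
      exact (continuous_norm.continuousAt).inv₀ hn
    have h2 := hc2.tendsto
    simp only [h₀, inv_one, ofReal_one, one_mul] at h2
    filter_upwards [isOpen_ne.mem_nhds hne, Metric.tendsto_nhds.mp h2 (ρ / 2) (by linarith)]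
      with z hz1 hz2
    exact ⟨hz1, hz2⟩
  filter_upwards [hev1, hev2, hev3] with z hz1 hz2 hz3
  obtain ⟨hz0, hz4⟩ := hz3
  have hnz : 0 < ‖z‖ := norm_pos_iff.mpr hz0
  set ζ : ℂ := ((‖z‖⁻¹ : ℝ) : ℂ) * z with hζdef
  have hζ : ‖ζ‖ = 1 := by
    rw [hζdef, norm_mul, norm_real, Real.norm_of_nonneg (by positivity)]
    field_simp
  obtain ⟨q, hq⟩ : ∃ q : ℝ, q = (1 - ‖z‖) / (1 + ‖z‖) := ⟨_, rfl⟩
  have qpos : 0 < q := by rw [hq]; apply div_pos <;> linarith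
  rw [← hq] at hz2
  have hzq : radPt ζ q = z := by
    unfold radPt
    have e : (1 - q) / (1 + q) = ‖z‖ := by
      rw [hq]; field_simp; ring
    rw [e, hζdef, ← mul_assoc]
    have : ((‖z‖ : ℝ) : ℂ) * ((‖z‖⁻¹ : ℝ) : ℂ) = 1 := by
      rw [← ofReal_mul, mul_inv_cancel₀ hnz.ne']; simp
    rw [this, one_mul]
  have h3N : (1 : ℝ) ≤ 3 ^ (N + 1) := one_le_pow₀ (by norm_num)
  have hqq : q ≤ q₀ := hz2.le.trans (div_le_self q₀pos.le h3N)
  obtain ⟨n, hn1, hn2⟩ := exists_nat_pow_near (show (1 : ℝ) ≤ q₀ / q by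
    rwa [le_div_iff₀ qpos, one_mul]) (show (1 : ℝ) < 3 by norm_num)
  have hnN : N ≤ n := by
    by_contra hcon
    have h5 : n + 1 ≤ N + 1 := by omega
    have h6 : (3 : ℝ) ^ (n + 1) ≤ 3 ^ (N + 1) := pow_le_pow_right₀ (by norm_num) h5
    have h7 : q₀ / q < 3 ^ (N + 1) := lt_of_lt_of_le hn2 h6
    rw [div_lt_iff₀ qpos] at h7
    rw [lt_div_iff₀ (by positivity)] at hz2
    linarith
  have hQ2 : q * 3 ^ n ≤ q₀ := by
    rw [le_div_iff₀ qpos] at hn1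
    linarith
  have hQ1 : q₀ / 3 < q * 3 ^ n := by
    rw [div_lt_iff₀ qpos, pow_succ] at hn2
    linarith
  have hfin := growth ζ hζ hz4 (q * 3 ^ n) hQ1 hQ2 n
  have e4 : q * 3 ^ n / 3 ^ n = q := by field_simp
  rw [e4, hzq] at hfin
  have h12 := (hN n hnN).trans hfin
  have h13 := hpos z hz1
  rw [div_le_div_iff₀ hε h13] at h12
  have h14 := hmap z hz1
  rw [Real.dist_eq, abs_sub_comm, abs_of_pos (by linarith)]
  nlinarith [norm_nonneg (θ z)]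

end Pool.Agent.Lib.MP_e685ae_an
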