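import Mathlib

/-!
# Disc automorphisms and Schwarz-Pick estimates
-/

set_option linter.unusedSectionVars false

namespace Pool.Agent.Lib.MP_e685ae_an

open Complex MeasureTheory Metric Filter Topology Set

/-- The disc automorphism `w ↦ (w + a) / (1 + conj a * w)`. -/
noncomputable def mob (a w : ℂ) : ℂ := (w + a) / (1 + (starRingEnd ℂ) a * w)

lemma mob_den_ne {a w : ℂ} (ha : ‖a‖ < 1) (hw : ‖w‖ ≤ 1) : 1 + (starRingEnd ℂ) a * w ≠ 0 := by
  intro h
  have h1 : (starRingEnd ℂ) a * w = -1 := by linear_combination h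
  have h2 : ‖(starRingEnd ℂ) a * w‖ = 1 := by rw [h1]; simp
  rw [norm_mul, RCLike.norm_conj] at h2
  nlinarith [norm_nonneg a, norm_nonneg w]

lemma normSq_one_add_sub {a w : ℂ} :
    ‖1 + (starRingEnd ℂ) a * w‖ ^ 2 - ‖w + a‖ ^ 2 = (1 - ‖a‖ ^ 2) * (1 - ‖w‖ ^ 2) := by
  rw [← normSq_eq_norm_sq, ← normSq_eq_norm_sq, ← normSq_eq_norm_sq, ← normSq_eq_norm_sq]
  simp only [normSq_apply, add_re, one_re, mul_re, conj_re, conj_im, add_im, one_im, mul_im]
  ring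

lemma one_sub_mob {a w : ℂ} (ha : ‖a‖ < 1) (hw : ‖w‖ ≤ 1) :
    1 - ‖mob a w‖ ^ 2 = (1 - ‖a‖ ^ 2) * (1 - ‖w‖ ^ 2) / ‖1 + (starRingEnd ℂ) a * w‖ ^ 2 := by
  have h := mob_den_ne ha hw
  have h' : ‖1 + (starRingEnd ℂ) a * w‖ ^ 2 ≠ 0 := by positivity
  rw [← normSq_one_add_sub, mob, norm_div, div_pow, sub_div, div_self h']

lemma norm_mob_lt {a w : ℂ} (ha : ‖a‖ < 1) (hw : ‖w‖ < 1) : ‖mob a w‖ < 1 := by
  have h := one_sub_mob ha hw.le
  have h' := mob_den_ne ha hw.le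
  have : 0 < (1 - ‖a‖ ^ 2) * (1 - ‖w‖ ^ 2) / ‖1 + (starRingEnd ℂ) a * w‖ ^ 2 := by
    have h1 : 0 < 1 - ‖a‖ ^ 2 := by nlinarith [norm_nonneg a]
    have h2 : 0 < 1 - ‖w‖ ^ 2 := by nlinarith [norm_nonneg w]
    positivity
  rw [← h] at this
  nlinarith [norm_nonneg (mob a w)]

lemma mob_zero {a : ℂ} : mob a 0 = a := by simp [mob]

lemma mob_neg_self {a : ℂ} : mob (-a) a = 0 := by simp [mob]

lemma mob_mob_neg {a w : ℂ} (ha : ‖a‖ < 1) (hw : ‖w‖ ≤ 1) : mob a (mob (-a) w) = w := by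
  have h1 : 1 + (starRingEnd ℂ) (-a) * w ≠ 0 := mob_den_ne (by simpa using ha) hw
  have h2 : (1 : ℂ) - (starRingEnd ℂ) a * a ≠ 0 := by
    intro h
    have h3 : (starRingEnd ℂ) a * a = 1 := by linear_combination -h
    rw [← normSq_eq_conj_mul_self] at h3
    have h4 : normSq a = 1 := by exact_mod_cast h3
    rw [normSq_eq_norm_sq] at h4
    nlinarith [norm_nonneg a]
  have e : 1 + (starRingEnd ℂ) (-a) * w = 1 - (starRingEnd ℂ) a * w := by
    rw [map_neg]; ring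
  have hq : mob (-a) w = (w - a) / (1 - (starRingEnd ℂ) a * w) := by
    unfold mob; rw [e]; ring
  rw [e] at h1
  have h5 : 1 + (starRingEnd ℂ) a * ((w - a) / (1 - (starRingEnd ℂ) a * w))
      = (1 - (starRingEnd ℂ) a * a) / (1 - (starRingEnd ℂ) a * w) := by
    field_simp
    ring
  have h6 : (w - a) / (1 - (starRingEnd ℂ) a * w) + a
      = (1 - (starRingEnd ℂ) a * a) * w / (1 - (starRingEnd ℂ) a * w) := by
    rw [eq_div_iff h1, add_mul, div_mul_cancel₀ _ h1]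
    ring
  rw [hq]
  unfold mob
  rw [h5, h6]
  field_simp

lemma hasDerivAt_mob {a w : ℂ} (ha : ‖a‖ < 1) (hw : ‖w‖ ≤ 1) :
    HasDerivAt (mob a) ((1 - (‖a‖ : ℂ) ^ 2) / (1 + (starRingEnd ℂ) a * w) ^ 2) w := by
  have h := mob_den_ne ha hw
  have h1 : HasDerivAt (fun y : ℂ => y + a) 1 w := by
    simpa using (hasDerivAt_id w).add_const a
  have h2 : HasDerivAt (fun y : ℂ => 1 + (starRingEnd ℂ) a * y) ((starRingEnd ℂ) a) w := by
    simpa using ((hasDerivAt_id w).const_mul ((starRingEnd ℂ) a)).const_add (1 : ℂ)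
  have h3 := h1.div h2 h
  have e : (1 - (‖a‖ : ℂ) ^ 2) / (1 + (starRingEnd ℂ) a * w) ^ 2
      = (1 * (1 + (starRingEnd ℂ) a * w) - (w + a) * (starRingEnd ℂ) a) /
        (1 + (starRingEnd ℂ) a * w) ^ 2 := by
    congr 1
    have : (‖a‖ : ℂ) ^ 2 = (starRingEnd ℂ) a * a := by
      rw [← normSq_eq_conj_mul_self, normSq_eq_norm_sq]; push_cast; rfl
    rw [this]; ring
  rw [e]
  exact h3

lemma differentiableOn_mob {a : ℂ} (ha : ‖a‖ < 1) : DifferentiableOn ℂ (mob a) (ball 0 1) := by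
  intro w hw
  have : ‖w‖ < 1 := by simpa using hw
  exact (hasDerivAt_mob ha this.le).differentiableAt.differentiableWithinAt

/-- The conjugated map `mob (-θ z) ∘ θ ∘ mob z`, a self-map of the disc fixing the origin. -/
noncomputable def conjMap (θ : ℂ → ℂ) (z w : ℂ) : ℂ := mob (-θ z) (θ (mob z w))

section
variable {θ : ℂ → ℂ} (hθ : DifferentiableOn ℂ θ (ball 0 1))
  (hmap : ∀ z : ℂ, ‖z‖ < 1 → ‖θ z‖ < 1)
include hθ hmap

lemma conjMap_zero {z : ℂ} : conjMap θ z 0 = 0 := by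
  simp [conjMap, mob_zero, mob_neg_self]

lemma norm_conjMap_lt {z w : ℂ} (hz : ‖z‖ < 1) (hw : ‖w‖ < 1) : ‖conjMap θ z w‖ < 1 := by
  apply norm_mob_lt (by simpa using hmap z hz)
  exact hmap _ (norm_mob_lt hz hw)

lemma differentiableOn_conjMap {z : ℂ} (hz : ‖z‖ < 1) :
    DifferentiableOn ℂ (conjMap θ z) (ball 0 1) := by
  have h1 : DifferentiableOn ℂ (mob (-θ z)) (ball 0 1) :=
    differentiableOn_mob (by simpa using hmap z hz)
  have h2 : DifferentiableOn ℂ (fun w => θ (mob z w)) (ball 0 1) := by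
    apply hθ.comp (differentiableOn_mob hz)
    intro w hw
    simpa using norm_mob_lt hz (by simpa using hw)
  apply h1.comp h2
  intro w hw
  simpa using hmap _ (norm_mob_lt hz (by simpa using hw))

/-- Schwarz-Pick, two-point form. -/
lemma norm_conjMap_le {z w : ℂ} (hz : ‖z‖ < 1) (hw : ‖w‖ < 1) : ‖conjMap θ z w‖ ≤ ‖w‖ := by
  apply norm_le_norm_of_mapsTo_ball (R := 1) (differentiableOn_conjMap hθ hmap hz) _
    (conjMap_zero hθ hmap) hw
  intro v hv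
  simpa using (norm_conjMap_lt hθ hmap hz (by simpa using hv)).le

lemma theta_mob {z w : ℂ} (hz : ‖z‖ < 1) (hw : ‖w‖ < 1) :
    θ (mob z w) = mob (θ z) (conjMap θ z w) := by
  unfold conjMap
  rw [mob_mob_neg (hmap z hz) (hmap _ (norm_mob_lt hz hw)).le]

/-- Schwarz-Pick in Julia form. -/
lemma schwarz_pick {z w : ℂ} (hz : ‖z‖ < 1) (hw : ‖w‖ < 1) :
    (1 - ‖w‖ ^ 2) * (1 - ‖z‖ ^ 2) / ‖1 - (starRingEnd ℂ) z * w‖ ^ 2 ≤
      (1 - ‖θ w‖ ^ 2) * (1 - ‖θ z‖ ^ 2) / ‖1 - (starRingEnd ℂ) (θ z) * θ w‖ ^ 2 := by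
  -- write `w = mob z v`
  have hv : ‖mob (-z) w‖ < 1 := norm_mob_lt (by simpa using hz) hw
  have hzn : ‖-z‖ < 1 := by simpa using hz
  have hθz : ‖-θ z‖ < 1 := by simpa using hmap z hz
  have h1 := norm_conjMap_le hθ hmap hz hv
  have h2 : conjMap θ z (mob (-z) w) = mob (-θ z) (θ w) := by
    unfold conjMap
    rw [mob_mob_neg hz hw.le]
  rw [h2] at h1
  have h3 := one_sub_mob hzn hw.le
  have h4 := one_sub_mob hθz (hmap w hw).le
  have e1 : 1 + (starRingEnd ℂ) (-z) * w = 1 - (starRingEnd ℂ) z * w := by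
    rw [map_neg]; ring
  have e2 : 1 + (starRingEnd ℂ) (-θ z) * θ w = 1 - (starRingEnd ℂ) (θ z) * θ w := by
    rw [map_neg]; ring
  rw [e1, norm_neg] at h3
  rw [e2, norm_neg] at h4
  have h5 : ‖mob (-θ z) (θ w)‖ ^ 2 ≤ ‖mob (-z) w‖ ^ 2 := by gcongr
  have h6 : (1 - ‖w‖ ^ 2) * (1 - ‖z‖ ^ 2) = (1 - ‖z‖ ^ 2) * (1 - ‖w‖ ^ 2) := mul_comm _ _
  have h7 : (1 - ‖θ w‖ ^ 2) * (1 - ‖θ z‖ ^ 2) = (1 - ‖θ z‖ ^ 2) * (1 - ‖θ w‖ ^ 2) :=
    mul_comm _ _
  rw [h6, h7, ← h3, ← h4]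
  linarith

/-- The derivative of the conjugated map at the origin. -/
lemma norm_deriv_conjMap {z : ℂ} (hz : ‖z‖ < 1) :
    ‖deriv (conjMap θ z) 0‖ = (1 - ‖z‖ ^ 2) * ‖deriv θ z‖ / (1 - ‖θ z‖ ^ 2) := by
  have hθz : ‖-θ z‖ < 1 := by simpa using hmap z hz
  have h1 : HasDerivAt (mob z) ((1 - (‖z‖ : ℂ) ^ 2) / (1 + (starRingEnd ℂ) z * 0) ^ 2) 0 :=
    hasDerivAt_mob hz (by simp)
  have hd : HasDerivAt θ (deriv θ z) z :=
    (hθ.differentiableAt (isOpen_ball.mem_nhds (by simpa using hz))).hasDerivAt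
  have h2 : HasDerivAt θ (deriv θ z) (mob z 0) := by rw [mob_zero]; exact hd
  have h3 := h2.comp 0 h1
  have h4 : HasDerivAt (mob (-θ z))
      ((1 - (‖-θ z‖ : ℂ) ^ 2) / (1 + (starRingEnd ℂ) (-θ z) * θ z) ^ 2) (θ z) :=
    hasDerivAt_mob hθz (hmap z hz).le
  have h5 : HasDerivAt (mob (-θ z))
      ((1 - (‖-θ z‖ : ℂ) ^ 2) / (1 + (starRingEnd ℂ) (-θ z) * θ z) ^ 2) ((θ ∘ mob z) 0) := by
    simp only [Function.comp, mob_zero]; exact h4
  have h6 := h5.comp 0 h3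
  have h7 : deriv (conjMap θ z) 0 = _ := h6.deriv
  rw [h7]
  have e1 : (1 : ℂ) + (starRingEnd ℂ) (-θ z) * θ z = ((1 - ‖θ z‖ ^ 2 : ℝ) : ℂ) := by
    have : (starRingEnd ℂ) (θ z) * θ z = ((‖θ z‖ ^ 2 : ℝ) : ℂ) := by
      rw [← normSq_eq_conj_mul_self, normSq_eq_norm_sq]
    rw [map_neg, neg_mul, this]; push_cast; ring
  have e2 : (1 : ℂ) - (‖-θ z‖ : ℂ) ^ 2 = ((1 - ‖θ z‖ ^ 2 : ℝ) : ℂ) := by
    rw [norm_neg]; push_cast; ring
  have e3 : (1 : ℂ) - (‖z‖ : ℂ) ^ 2 = ((1 - ‖z‖ ^ 2 : ℝ) : ℂ) := by push_cast; ring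
  have p1 : 0 < 1 - ‖θ z‖ ^ 2 := by nlinarith [norm_nonneg (θ z), hmap z hz]
  have p2 : 0 < 1 - ‖z‖ ^ 2 := by nlinarith [norm_nonneg z]
  rw [e1, e2, e3]
  simp only [mul_zero, add_zero, one_pow, div_one, norm_mul, norm_div, norm_pow, norm_real,
    Real.norm_eq_abs, abs_of_pos p1, abs_of_pos p2]
  field_simp

end

/-- If `F` is a self-map of the disc with `F 0 = 0` and `|F'(0)| ≥ 1 - ε` then `F` is
`ε`-close to the linear map `F'(0) w` on the circle of radius `1/2`. -/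
lemma near_linear {F : ℂ → ℂ} (hF : DifferentiableOn ℂ F (ball 0 1))
    (hmap : ∀ z : ℂ, ‖z‖ < 1 → ‖F z‖ < 1) (h0 : F 0 = 0) {ε : ℝ}
    (hε : 1 - ε ≤ ‖deriv F 0‖) {w : ℂ} (hw : ‖w‖ = 1 / 2) :
    ‖F w - deriv F 0 * w‖ ≤ ε := by
  set G : ℂ → ℂ := dslope F 0 with hG
  have hGd : DifferentiableOn ℂ G (ball 0 1) :=
    (differentiableOn_dslope (isOpen_ball.mem_nhds (by simp))).mpr hF
  have hGb : ∀ z ∈ ball (0 : ℂ) 1, ‖G z‖ ≤ 1 := by
    intro z hz
    have := norm_dslope_le_div_of_mapsTo_ball (R₁ := 1) (R₂ := 1) hF (by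
      intro v hv
      rw [h0]
      simpa using (hmap v (by simpa using hv)).le) hz
    simpa using this
  have hG0 : G 0 = deriv F 0 := dslope_same F 0
  have hFG : F w = w * G w := by
    have := sub_smul_dslope F 0 w
    simp only [sub_zero, h0, smul_eq_mul] at this
    rw [hG]; exact this.symm
  have hwb : w ∈ ball (0 : ℂ) 1 := by simp [hw]; norm_num
  have hτ1 : ‖deriv F 0‖ ≤ 1 := by rw [← hG0]; exact hGb 0 (by simp)
  have key : ‖G w - G 0‖ * (1 - ‖w‖ * ‖G 0‖) ≤ ‖w‖ * (1 - ‖G 0‖ ^ 2) := by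
    rcases lt_or_eq_of_le (hGb 0 (by simp)) with hlt | heq
    · -- `|G 0| < 1`
      have hH := norm_le_norm_of_mapsTo_ball (R := 1) (f := fun v => mob (-G 0) (G v)) (z := w)
        (by
          intro v hv
          have h1 : ‖G v‖ ≤ 1 := hGb v hv
          have h2 := (hasDerivAt_mob (a := -G 0) (by simpa using hlt) h1).differentiableAt
          exact h2.comp_differentiableWithinAt v (hGd v hv))
        (by
          intro v hv
          have h1 : ‖G v‖ ≤ 1 := hGb v hv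
          have h2 := one_sub_mob (a := -G 0) (by simpa using hlt) h1
          have h3 : 0 ≤ 1 - ‖mob (-G 0) (G v)‖ ^ 2 := by
            rw [h2, norm_neg]
            have p1 : 0 ≤ 1 - ‖G 0‖ ^ 2 := by nlinarith [norm_nonneg (G 0)]
            have p2 : 0 ≤ 1 - ‖G v‖ ^ 2 := by nlinarith [norm_nonneg (G v)]
            positivity
          simp only [mem_closedBall, dist_zero_right]
          nlinarith [norm_nonneg (mob (-G 0) (G v))])
        (by simp [mob_neg_self]) (by simpa using hwb)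
      have hden := mob_den_ne (a := -G 0) (w := G w) (by simpa using hlt) (hGb w hwb)
      simp only [mob, norm_div] at hH
      rw [div_le_iff₀ (by positivity)] at hH
      have e1 : 1 + (starRingEnd ℂ) (-G 0) * G w
          = (1 - (starRingEnd ℂ) (G 0) * G 0) - (starRingEnd ℂ) (G 0) * (G w - G 0) := by
        rw [map_neg]; ring
      have e2 : ‖1 + (starRingEnd ℂ) (-G 0) * G w‖ ≤ (1 - ‖G 0‖ ^ 2) + ‖G 0‖ * ‖G w - G 0‖ := by
        rw [e1]
        refine (norm_sub_le _ _).trans ?_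
        rw [norm_mul, RCLike.norm_conj]
        have : ‖1 - (starRingEnd ℂ) (G 0) * G 0‖ = 1 - ‖G 0‖ ^ 2 := by
          have h3 : (1 : ℂ) - (starRingEnd ℂ) (G 0) * G 0 = ((1 - ‖G 0‖ ^ 2 : ℝ) : ℂ) := by
            rw [← normSq_eq_conj_mul_self, normSq_eq_norm_sq]; push_cast; ring
          rw [h3, norm_real, Real.norm_of_nonneg]
          nlinarith [norm_nonneg (G 0)]
        rw [this]
      have e3 : ‖G w + -G 0‖ = ‖G w - G 0‖ := by rw [← sub_eq_add_neg]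
      rw [e3] at hH
      have hw0 := norm_nonneg w
      nlinarith [norm_nonneg (G w - G 0), norm_nonneg (G 0)]
    · -- `|G 0| = 1`: `G` is constant
      have hmax : IsMaxOn (norm ∘ G) (ball 0 1) 0 := by
        intro v hv
        simp only [Function.comp, mem_ofPred_eq]
        rw [heq]; exact hGb v hv
      have hconst := eqOn_of_isPreconnected_of_isMaxOn_norm
        (convex_ball (0 : ℂ) 1).isPreconnected isOpen_ball hGd (by simp) hmax
      have : G w = G 0 := hconst hwb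
      rw [this]
      simp [heq]
  rw [hFG, ← hG0]
  have e : w * G w - G 0 * w = w * (G w - G 0) := by ring
  rw [e, norm_mul, hw]
  rw [hw] at key
  rw [← hG0] at hε hτ1
  nlinarith [norm_nonneg (G w - G 0), norm_nonneg (G 0)]

end Pool.Agent.Lib.MP_e685ae_an
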