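import Pool.Agent.Lib.MP_e685ae_an.Arc
import Pool.Agent.Lib.MP_e685ae_an.SchwarzPick

/-!
# A lower bound for the outer factor of the derivative of an inner function

If `θ` is inner, `θ'` has radial limits `g` with `log |g|` integrable, then the outer function `O`
with boundary modulus `|g|` satisfies `(1 - |θ(z)|²) / (1 - |z|²) ≤ |O(z)|`.
-/

namespace Pool.Agent.Lib.MP_e685ae_an

open Complex MeasureTheory Metric Filter Topology Set

lemma re_herglotz {z ζ : ℂ} (hζ : ‖ζ‖ = 1) : ((ζ + z) / (ζ - z)).re = pk z ζ := by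
  have h := congrFun (poissonKernel_eq_re_herglotzRieszKernel (c := 0) (w := z)) ζ
  rw [pk_eq_poissonKernel hζ] at h
  rw [h]
  simp [herglotzRieszKernel]

lemma herglotz_continuousOn {z : ℂ} (hz : ‖z‖ < 1) :
    ContinuousOn (fun ζ => (ζ + z) / (ζ - z)) (sphere (0 : ℂ) 1) := by
  apply ContinuousOn.div (by fun_prop) (by fun_prop)
  intro ζ hζ h
  have h1 : ‖ζ‖ = 1 := by simpa using hζ
  have : ζ = z := by linear_combination h
  rw [this] at h1; linarith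

lemma herglotz_mul_integrable {z : ℂ} (hz : ‖z‖ < 1) {u : ℂ → ℝ} (hu : Integrable u arc) :
    Integrable (fun ζ => (ζ + z) / (ζ - z) * (u ζ : ℂ)) arc := by
  obtain ⟨C, hC⟩ := (isCompact_sphere (0 : ℂ) 1).exists_bound_of_continuousOn
    (herglotz_continuousOn hz)
  apply Integrable.bdd_mul (c := C) hu.ofReal (aesm_of_continuousOn (herglotz_continuousOn hz))
  filter_upwards [ae_arc_norm] with ζ hζ
  exact hC ζ (by simpa using hζ)

lemma norm_outerFn {g : ℂ → ℂ} (hg : Integrable (fun ζ => Real.log ‖g ζ‖) arc) {z : ℂ}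
    (hz : ‖z‖ < 1) :
    ‖outerFn g z‖ = Real.exp (∫ ζ, pk z ζ * Real.log ‖g ζ‖ ∂arc) := by
  unfold outerFn
  rw [norm_exp]
  congr 1
  have h1 := herglotz_mul_integrable hz hg
  have h2 := integral_re h1
  have h3 : (∫ ζ, (ζ + z) / (ζ - z) * (Real.log ‖g ζ‖ : ℂ) ∂arc).re
      = ∫ ζ, ((ζ + z) / (ζ - z) * (Real.log ‖g ζ‖ : ℂ)).re ∂arc := by
    simpa using h2.symm
  rw [h3]
  apply integral_congr_ae
  filter_upwards [ae_arc_norm] with ζ hζ
  rw [re_mul_ofReal, re_herglotz hζ]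

/-- Poisson representation of `log |1 - conj b f|`. -/
lemma poisson_log {f : ℂ → ℂ} (hf : DifferentiableOn ℂ f (ball 0 1))
    (hb : ∀ z : ℂ, ‖z‖ < 1 → ‖f z‖ ≤ 1) {g : ℂ → ℂ}
    (hg : ∀ᵐ ζ ∂arc, ‖g ζ‖ ≤ 1 ∧ Tendsto (fun r : ℝ => f (r * ζ)) (𝓝[<] 1) (𝓝 (g ζ)))
    {b : ℂ} (hb1 : ‖b‖ < 1) {z : ℂ} (hz : ‖z‖ < 1) :
    Integrable (fun ζ => pk z ζ * Real.log ‖1 - (starRingEnd ℂ) b * g ζ‖) arc ∧
    ∫ ζ, pk z ζ * Real.log ‖1 - (starRingEnd ℂ) b * g ζ‖ ∂arc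
      = Real.log ‖1 - (starRingEnd ℂ) b * f z‖ := by
  have slit : ∀ u : ℂ, ‖u‖ ≤ 1 → 1 - (starRingEnd ℂ) b * u ∈ slitPlane := by
    intro u hu
    left
    have h1 := abs_re_le_norm ((starRingEnd ℂ) b * u)
    rw [norm_mul, RCLike.norm_conj] at h1
    have h2 := le_abs_self ((starRingEnd ℂ) b * u).re
    simp only [sub_re, one_re]
    nlinarith [norm_nonneg b, norm_nonneg u]
  have hcont : ContinuousOn (fun u : ℂ => Complex.log (1 - (starRingEnd ℂ) b * u))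
      (closedBall 0 1) := by
    apply ContinuousOn.clog (by fun_prop)
    intro u hu
    exact slit u (by simpa using hu)
  obtain ⟨C, hC⟩ := (isCompact_closedBall (0 : ℂ) 1).exists_bound_of_continuousOn hcont
  have hFd : DifferentiableOn ℂ (fun w => Complex.log (1 - (starRingEnd ℂ) b * f w))
      (ball 0 1) := by
    apply DifferentiableOn.clog
    · exact (differentiableOn_const _).sub ((differentiableOn_const _).mul hf)
    · intro w hw
      exact slit _ (hb w (by simpa using hw))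
  have hFb : ∀ w ∈ ball (0 : ℂ) 1, ‖Complex.log (1 - (starRingEnd ℂ) b * f w)‖ ≤ C := by
    intro w hw
    exact hC (f w) (by simpa using hb w (by simpa using hw))
  have hlim : ∀ᵐ ζ ∂arc, Tendsto (fun r : ℝ => Complex.log (1 - (starRingEnd ℂ) b * f (r * ζ)))
      (𝓝[<] 1) (𝓝 (Complex.log (1 - (starRingEnd ℂ) b * g ζ))) := by
    filter_upwards [hg] with ζ hζ
    apply Tendsto.clog _ (slit _ hζ.1)
    exact tendsto_const_nhds.sub (tendsto_const_nhds.mul hζ.2)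
  have hrep := poisson_repr hFd hFb hlim hz
  -- measurability of the boundary function
  have hmeas : AEStronglyMeasurable (fun ζ => Complex.log (1 - (starRingEnd ℂ) b * g ζ)) arc := by
    have hseq : Tendsto (fun n : ℕ => (1 - 1 / ((n : ℝ) + 2))) atTop (𝓝[<] 1) := by
      apply tendsto_nhdsWithin_of_tendsto_nhds_of_eventually_within
      · have : Tendsto (fun n : ℕ => (1 - 1 / ((n : ℝ) + 2))) atTop (𝓝 (1 - 0)) := by
          apply tendsto_const_nhds.sub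
          apply Tendsto.comp (g := fun x : ℝ => 1 / (x + 2)) _ tendsto_natCast_atTop_atTop
          apply tendsto_const_nhds.div_atTop
          exact tendsto_atTop_add_const_right _ _ tendsto_id
        simpa using this
      · filter_upwards with n
        have : 0 < 1 / ((n : ℝ) + 2) := by positivity
        simp only [mem_Iio]; linarith
    apply aestronglyMeasurable_of_tendsto_ae atTop
      (f := fun (n : ℕ) ζ => Complex.log (1 - (starRingEnd ℂ) b *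
        f (((1 - 1 / ((n : ℝ) + 2) : ℝ) : ℂ) * ζ)))
    · intro n
      apply aesm_of_continuousOn
      apply hFd.continuousOn.comp (by fun_prop)
      intro ζ hζ
      have h1 : ‖ζ‖ = 1 := by simpa using hζ
      have h2 : 0 < 1 / ((n : ℝ) + 2) := by positivity
      have h3 : 1 / ((n : ℝ) + 2) ≤ 1 / 2 := by
        apply one_div_le_one_div_of_le (by norm_num)
        have : (0 : ℝ) ≤ n := Nat.cast_nonneg n
        linarith
      simp only [mem_ball, dist_zero_right, norm_mul, norm_real, h1, mul_one, Real.norm_eq_abs]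
      rw [abs_of_pos (by linarith)]
      linarith
    · filter_upwards [hlim] with ζ hζ
      exact hζ.comp hseq
  have hint : Integrable (fun ζ => (pk z ζ : ℂ) * Complex.log (1 - (starRingEnd ℂ) b * g ζ))
      arc := by
    have h0 : Integrable (fun ζ => Complex.log (1 - (starRingEnd ℂ) b * g ζ)) arc := by
      apply Integrable.of_bound hmeas C
      filter_upwards [hg] with ζ hζ
      exact hC (g ζ) (by simpa using hζ.1)
    apply h0.bdd_mul (c := (1 + ‖z‖) / (1 - ‖z‖))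
    · exact aesm_of_continuousOn (continuous_ofReal.comp_continuousOn (continuousOn_pk hz))
    · filter_upwards [ae_arc_norm] with ζ hζ
      rw [norm_real]; exact norm_pk_le hz hζ
  have hre : ∀ ζ, ((pk z ζ : ℂ) * Complex.log (1 - (starRingEnd ℂ) b * g ζ)).re
      = pk z ζ * Real.log ‖1 - (starRingEnd ℂ) b * g ζ‖ := by
    intro ζ
    rw [re_ofReal_mul, log_re]
  constructor
  · have := hint.re
    simpa only [RCLike.re_to_complex, hre] using this
  · have h2 := integral_re hint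
    simp only [RCLike.re_to_complex, hre] at h2
    rw [h2, ← hrep, log_re]

/-- The radial derivative bound: if `θ` has the unimodular radial limit `L` at `ζ` and `θ'` has
the radial limit `G`, then Julia's inequality bounds `|G|` below. -/
lemma julia_bound {θ : ℂ → ℂ} (hθ : DifferentiableOn ℂ θ (ball 0 1))
    (hmap : ∀ z : ℂ, ‖z‖ < 1 → ‖θ z‖ < 1) {ζ L G : ℂ} (hζ : ‖ζ‖ = 1) (hL : ‖L‖ = 1)
    (hlim : Tendsto (fun r : ℝ => θ (r * ζ)) (𝓝[<] 1) (𝓝 L))
    (hder : Tendsto (fun r : ℝ => deriv θ (r * ζ)) (𝓝[<] 1) (𝓝 G)) {z : ℂ} (hz : ‖z‖ < 1) :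
    (1 - ‖z‖ ^ 2) / ‖1 - (starRingEnd ℂ) z * ζ‖ ^ 2 *
      (‖1 - (starRingEnd ℂ) (θ z) * L‖ ^ 2 / (1 - ‖θ z‖ ^ 2)) ≤ ‖G‖ := by
  have ζb : ∀ r ∈ Ioo (0 : ℝ) 1, ‖(r : ℂ) * ζ‖ = r := by
    intro r hr
    rw [norm_mul, hζ, mul_one, norm_real, Real.norm_of_nonneg hr.1.le]
  -- it suffices to bound by every `K > ‖G‖`
  apply le_of_forall_gt_imp_ge_of_dense
  intro K hK
  -- near the boundary the derivative is bounded by `K`
  have hev : ∀ᶠ r : ℝ in 𝓝[<] 1, ‖deriv θ (r * ζ)‖ < K := hder.norm.eventually_lt_const hK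
  obtain ⟨r₀, hr₀, hr₀'⟩ : ∃ r₀ : ℝ, r₀ ∈ Ioo (0 : ℝ) 1 ∧
      ∀ r ∈ Ioo r₀ 1, ‖deriv θ (r * ζ)‖ < K := by
    obtain ⟨l, hl, hl'⟩ := (mem_nhdsLT_iff_exists_Ioo_subset' (show (0 : ℝ) < 1 by norm_num)).mp hev
    refine ⟨max l (1 / 2), ⟨lt_max_of_lt_right (by norm_num), max_lt hl (by norm_num)⟩, ?_⟩
    intro r hr
    exact hl' ⟨(le_max_left _ _).trans_lt hr.1, hr.2⟩
  -- hence `‖L - θ (r ζ)‖ ≤ K (1 - r)`
  have hLip : ∀ r ∈ Ioo r₀ 1, ‖L - θ (r * ζ)‖ ≤ K * (1 - r) := by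
    intro r hr
    have h1 : ∀ s ∈ Ioo r 1, ‖θ (s * ζ) - θ (r * ζ)‖ ≤ K * (s - r) := by
      intro s hs
      have hconv : Convex ℝ (segment ℝ ((r : ℂ) * ζ) ((s : ℂ) * ζ)) := convex_segment _ _
      have hseg : ∀ w ∈ segment ℝ ((r : ℂ) * ζ) ((s : ℂ) * ζ), ∃ t ∈ Ioo r₀ 1, w = (t : ℂ) * ζ := by
        intro w hw
        obtain ⟨a, b, ha, hb, hab, rfl⟩ := hw
        refine ⟨a * r + b * s, ⟨?_, ?_⟩, ?_⟩
        · have : r ≤ a * r + b * s := by
            have h := mul_nonneg hb (sub_nonneg.mpr hs.1.le)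
            have e : a = 1 - b := by linarith
            rw [e]; linarith
          exact lt_of_lt_of_le hr.1 this
        · have : a * r + b * s ≤ s := by
            have h := mul_nonneg ha (sub_nonneg.mpr hs.1.le)
            have e : b = 1 - a := by linarith
            rw [e]; linarith
          exact lt_of_le_of_lt this hs.2
        · simp only [real_smul]; push_cast; ring
      have h2 := hconv.norm_image_sub_le_of_norm_deriv_le (f := θ) (C := K)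
        (x := (r : ℂ) * ζ) (y := (s : ℂ) * ζ) (by
          intro w hw
          obtain ⟨t, ht, rfl⟩ := hseg w hw
          have ht' : t ∈ Ioo (0 : ℝ) 1 := ⟨hr₀.1.trans ht.1, ht.2⟩
          apply hθ.differentiableAt
          apply isOpen_ball.mem_nhds
          simp only [mem_ball, dist_zero_right, ζb t ht']
          exact ht.2) (by
          intro w hw
          obtain ⟨t, ht, rfl⟩ := hseg w hw
          exact (hr₀' t ht).le) (left_mem_segment _ _ _) (right_mem_segment _ _ _)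
      refine h2.trans (le_of_eq ?_)
      have e : (s : ℂ) * ζ - (r : ℂ) * ζ = ((s - r : ℝ) : ℂ) * ζ := by push_cast; ring
      rw [e, norm_mul, hζ, mul_one, norm_real, Real.norm_of_nonneg (by linarith [hs.1])]
    have h3 : Tendsto (fun s : ℝ => ‖θ (s * ζ) - θ (r * ζ)‖) (𝓝[<] 1) (𝓝 ‖L - θ (r * ζ)‖) :=
      (hlim.sub_const _).norm
    have h4 : Tendsto (fun s : ℝ => K * (s - r)) (𝓝[<] 1) (𝓝 (K * (1 - r))) := by
      have : Tendsto (fun s : ℝ => K * (s - r)) (𝓝 1) (𝓝 (K * (1 - r))) :=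
        Continuous.tendsto (by fun_prop) _
      exact this.mono_left nhdsWithin_le_nhds
    apply le_of_tendsto_of_tendsto h3 h4
    filter_upwards [Ioo_mem_nhdsLT hr.2] with s hs
    exact h1 s hs
  -- the two sides of Schwarz-Pick in the limit
  have hlimL : Tendsto (fun r : ℝ => (1 - ‖z‖ ^ 2) / ‖1 - (starRingEnd ℂ) z * (r * ζ)‖ ^ 2 *
      (‖1 - (starRingEnd ℂ) (θ z) * θ (r * ζ)‖ ^ 2 / (1 - ‖θ z‖ ^ 2))) (𝓝[<] 1)
      (𝓝 ((1 - ‖z‖ ^ 2) / ‖1 - (starRingEnd ℂ) z * ζ‖ ^ 2 *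
      (‖1 - (starRingEnd ℂ) (θ z) * L‖ ^ 2 / (1 - ‖θ z‖ ^ 2)))) := by
    apply Tendsto.mul
    · have hc : ContinuousAt (fun r : ℝ => (1 - ‖z‖ ^ 2) / ‖1 - (starRingEnd ℂ) z * (r * ζ)‖ ^ 2)
          1 := by
        apply ContinuousAt.div (by fun_prop) (by fun_prop)
        have := mob_den_ne (a := -z) (w := ζ) (by simpa using hz) hζ.le
        rw [map_neg] at this
        have h5 : 1 - (starRingEnd ℂ) z * (((1 : ℝ) : ℂ) * ζ) ≠ 0 := by
          intro h; apply this; rw [← h]; push_cast; ring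
        positivity
      have := hc.tendsto
      simp only [ofReal_one, one_mul] at this
      exact this.mono_left nhdsWithin_le_nhds
    · exact (((tendsto_const_nhds.sub (tendsto_const_nhds.mul hlim)).norm.pow 2).div_const _)
  have hlimR : Tendsto (fun r : ℝ => 2 * K / (1 + r)) (𝓝[<] 1) (𝓝 K) := by
    have hc : ContinuousAt (fun r : ℝ => 2 * K / (1 + r)) 1 := by
      apply ContinuousAt.div (by fun_prop) (by fun_prop) (by norm_num)
    have := hc.tendsto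
    have e : 2 * K / (1 + 1) = K := by ring
    rw [e] at this
    exact this.mono_left nhdsWithin_le_nhds
  apply le_of_tendsto_of_tendsto hlimL hlimR
  filter_upwards [Ioo_mem_nhdsLT hr₀.2] with r hr
  have hr' : r ∈ Ioo (0 : ℝ) 1 := ⟨hr₀.1.trans hr.1, hr.2⟩
  have hrn : ‖(r : ℂ) * ζ‖ = r := ζb r hr'
  have hsp := schwarz_pick hθ hmap hz (w := (r : ℂ) * ζ) (by rw [hrn]; exact hr.2)
  rw [hrn] at hsp
  have pz : 0 < 1 - ‖z‖ ^ 2 := by nlinarith [norm_nonneg z]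
  have pθ : 0 < 1 - ‖θ z‖ ^ 2 := by nlinarith [norm_nonneg (θ z), hmap z hz]
  have pr : 0 < 1 - r ^ 2 := by nlinarith [hr'.1, hr'.2]
  have d1 : (1 : ℂ) - (starRingEnd ℂ) z * (r * ζ) ≠ 0 := by
    have := mob_den_ne (a := -z) (w := (r : ℂ) * ζ) (by simpa using hz) (by rw [hrn]; exact hr.2.le)
    rw [map_neg] at this
    intro h; apply this; rw [← h]; ring
  have hθr : ‖θ (r * ζ)‖ < 1 := hmap _ (by rw [hrn]; exact hr.2)
  have d2 : (1 : ℂ) - (starRingEnd ℂ) (θ z) * θ (r * ζ) ≠ 0 := by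
    have := mob_den_ne (a := -θ z) (w := θ (r * ζ)) (by simpa using hmap z hz) hθr.le
    rw [map_neg] at this
    intro h; apply this; rw [← h]; ring
  have D1 : 0 < ‖(1 : ℂ) - (starRingEnd ℂ) z * (r * ζ)‖ ^ 2 := by positivity
  have D2 : 0 < ‖(1 : ℂ) - (starRingEnd ℂ) (θ z) * θ (r * ζ)‖ ^ 2 := by positivity
  have hK0 : 0 ≤ K := (norm_nonneg G).trans hK.le
  -- `(1 - ‖θ (rζ)‖²) ≤ 2 K (1 - r)`
  have h6 : 1 - ‖θ (r * ζ)‖ ^ 2 ≤ 2 * K * (1 - r) := by
    have h7 := hLip r hr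
    have h8 := norm_sub_norm_le L (θ (r * ζ))
    rw [hL] at h8
    nlinarith [norm_nonneg (θ (r * ζ))]
  rw [div_mul_div_comm, div_le_div_iff₀ (by positivity) (by linarith [hr'.1])]
  rw [div_le_div_iff₀ D1 D2] at hsp
  -- combine
  have e9 : 1 - r ^ 2 = (1 - r) * (1 + r) := by ring
  have h1r : 0 < 1 - r := by linarith [hr.2]
  have h10 : (1 - r) * ((1 - ‖z‖ ^ 2) * ‖(1 : ℂ) - (starRingEnd ℂ) (θ z) * θ (r * ζ)‖ ^ 2 *
      (1 + r)) ≤ (1 - r) * (2 * K * (‖(1 : ℂ) - (starRingEnd ℂ) z * (r * ζ)‖ ^ 2 *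
      (1 - ‖θ z‖ ^ 2))) := by
    calc (1 - r) * ((1 - ‖z‖ ^ 2) * ‖(1 : ℂ) - (starRingEnd ℂ) (θ z) * θ (r * ζ)‖ ^ 2 * (1 + r))
        = (1 - r ^ 2) * (1 - ‖z‖ ^ 2) * ‖(1 : ℂ) - (starRingEnd ℂ) (θ z) * θ (r * ζ)‖ ^ 2 := by
          ring
      _ ≤ (1 - ‖θ (r * ζ)‖ ^ 2) * (1 - ‖θ z‖ ^ 2) *
          ‖(1 : ℂ) - (starRingEnd ℂ) z * (r * ζ)‖ ^ 2 := hsp
      _ ≤ (2 * K * (1 - r)) * (1 - ‖θ z‖ ^ 2) *
          ‖(1 : ℂ) - (starRingEnd ℂ) z * (r * ζ)‖ ^ 2 := by gcongr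
      _ = _ := by ring
  exact le_of_mul_le_mul_left h10 h1r

/-- The lower bound for the outer factor of `θ'`. -/
theorem reverse_schwarz_pick {θ : ℂ → ℂ} (hθ : DifferentiableOn ℂ θ (ball 0 1))
    (hmap : ∀ z : ℂ, ‖z‖ < 1 → ‖θ z‖ < 1)
    (hrad : ∀ᵐ ζ ∂arc, ∃ L : ℂ, ‖L‖ = 1 ∧ Tendsto (fun r : ℝ => θ (r * ζ)) (𝓝[<] 1) (𝓝 L))
    {g : ℂ → ℂ} (hg : HasRadialLimits (deriv θ) g)
    (hint : Integrable (fun ζ => Real.log ‖g ζ‖) arc) {z : ℂ} (hz : ‖z‖ < 1) :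
    (1 - ‖θ z‖ ^ 2) / (1 - ‖z‖ ^ 2) ≤ ‖outerFn g z‖ := by
  obtain ⟨L, hL⟩ := Eventually.choice hrad
  have pz : 0 < 1 - ‖z‖ ^ 2 := by nlinarith [norm_nonneg z]
  have pθ : 0 < 1 - ‖θ z‖ ^ 2 := by nlinarith [norm_nonneg (θ z), hmap z hz]
  -- Poisson representations
  obtain ⟨i1, r1⟩ := poisson_log hθ (fun w hw => (hmap w hw).le) (g := L)
    (by filter_upwards [hL] with ζ hζ; exact ⟨hζ.1.le, hζ.2⟩) (b := θ z) (hmap z hz) hz
  have hid : ∀ᵐ ζ ∂arc, ‖(id ζ : ℂ)‖ ≤ 1 ∧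
      Tendsto (fun r : ℝ => id ((r : ℂ) * ζ)) (𝓝[<] 1) (𝓝 (id ζ)) := by
    filter_upwards [ae_arc_norm] with ζ hζ
    refine ⟨hζ.le, ?_⟩
    have : Tendsto (fun r : ℝ => id ((r : ℂ) * ζ)) (𝓝 1) (𝓝 (((1 : ℝ) : ℂ) * ζ)) :=
      Continuous.tendsto (by fun_prop) _
    simp only [ofReal_one, one_mul] at this
    exact this.mono_left nhdsWithin_le_nhds
  obtain ⟨i2, r2⟩ := poisson_log (f := id) differentiableOn_id (fun w hw => hw.le) hid
    (b := z) hz hz
  simp only [id] at i2 r2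
  -- the pointwise inequality
  have hpt : ∀ᵐ ζ ∂arc, pk z ζ * (Real.log ((1 - ‖z‖ ^ 2) / (1 - ‖θ z‖ ^ 2)))
      + 2 * (pk z ζ * Real.log ‖1 - (starRingEnd ℂ) (θ z) * L ζ‖)
      - 2 * (pk z ζ * Real.log ‖1 - (starRingEnd ℂ) z * ζ‖) ≤ pk z ζ * Real.log ‖g ζ‖ := by
    filter_upwards [hL, hg, ae_arc_norm] with ζ h1 h2 h3
    have hj := julia_bound hθ hmap h3 h1.1 h1.2 h2 hz
    have d1 : (1 : ℂ) - (starRingEnd ℂ) z * ζ ≠ 0 := by
      have := mob_den_ne (a := -z) (w := ζ) (by simpa using hz) h3.le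
      rw [map_neg] at this
      intro h; apply this; rw [← h]; ring
    have d2 : (1 : ℂ) - (starRingEnd ℂ) (θ z) * L ζ ≠ 0 := by
      have := mob_den_ne (a := -θ z) (w := L ζ) (by simpa using hmap z hz) h1.1.le
      rw [map_neg] at this
      intro h; apply this; rw [← h]; ring
    have D1 : 0 < ‖(1 : ℂ) - (starRingEnd ℂ) z * ζ‖ := by positivity
    have D2 : 0 < ‖(1 : ℂ) - (starRingEnd ℂ) (θ z) * L ζ‖ := by positivity
    have hlog := Real.log_le_log (by positivity) hj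
    have e : Real.log ((1 - ‖z‖ ^ 2) / ‖1 - (starRingEnd ℂ) z * ζ‖ ^ 2 *
        (‖1 - (starRingEnd ℂ) (θ z) * L ζ‖ ^ 2 / (1 - ‖θ z‖ ^ 2)))
        = Real.log ((1 - ‖z‖ ^ 2) / (1 - ‖θ z‖ ^ 2))
          + 2 * Real.log ‖1 - (starRingEnd ℂ) (θ z) * L ζ‖
          - 2 * Real.log ‖1 - (starRingEnd ℂ) z * ζ‖ := by
      rw [Real.log_mul (by positivity) (by positivity), Real.log_div pz.ne' (by positivity),
        Real.log_div (by positivity) pθ.ne', Real.log_div pz.ne' pθ.ne', Real.log_pow,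
        Real.log_pow]
      push_cast; ring
    rw [e] at hlog
    have := mul_le_mul_of_nonneg_left hlog (pk_nonneg hz ζ)
    linarith
  have hI := integral_mono_ae
    (((integrable_pk hz).mul_const _ |>.add (i1.const_mul 2)).sub (i2.const_mul 2))
    (Integrable.pk_mul hz hint) hpt
  rw [integral_sub' (((integrable_pk hz).mul_const _).add (i1.const_mul 2)) (i2.const_mul 2),
    integral_add' ((integrable_pk hz).mul_const _) (i1.const_mul 2), integral_mul_const,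
    integral_const_mul, integral_const_mul, integral_pk hz, r1, r2, one_mul] at hI
  have n1 : ‖(1 : ℂ) - (starRingEnd ℂ) (θ z) * θ z‖ = 1 - ‖θ z‖ ^ 2 := by
    have h3 : (1 : ℂ) - (starRingEnd ℂ) (θ z) * θ z = ((1 - ‖θ z‖ ^ 2 : ℝ) : ℂ) := by
      rw [← normSq_eq_conj_mul_self, normSq_eq_norm_sq]; push_cast; ring
    rw [h3, norm_real, Real.norm_of_nonneg pθ.le]
  have n2 : ‖(1 : ℂ) - (starRingEnd ℂ) z * z‖ = 1 - ‖z‖ ^ 2 := by
    have h3 : (1 : ℂ) - (starRingEnd ℂ) z * z = ((1 - ‖z‖ ^ 2 : ℝ) : ℂ) := by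
      rw [← normSq_eq_conj_mul_self, normSq_eq_norm_sq]; push_cast; ring
    rw [h3, norm_real, Real.norm_of_nonneg pz.le]
  rw [n1, n2, Real.log_div pz.ne' pθ.ne'] at hI
  rw [norm_outerFn hint hz]
  have hfin : Real.log ((1 - ‖θ z‖ ^ 2) / (1 - ‖z‖ ^ 2)) ≤
      ∫ ζ, pk z ζ * Real.log ‖g ζ‖ ∂arc := by
    rw [Real.log_div pθ.ne' pz.ne']
    linarith
  calc (1 - ‖θ z‖ ^ 2) / (1 - ‖z‖ ^ 2)
      = Real.exp (Real.log ((1 - ‖θ z‖ ^ 2) / (1 - ‖z‖ ^ 2))) :=
        (Real.exp_log (by positivity)).symm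
    _ ≤ _ := Real.exp_le_exp.mpr hfin

end Pool.Agent.Lib.MP_e685ae_an
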