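import Pool.Agent.Lib.MP_e685ae_an.KeyMeasures
import Pool.Agent.Lib.MP_e685ae_an.OuterBound

/-!
# Holomorphy and modulus of the singular inner and outer factors
-/

namespace Pool.Agent.Lib.MP_e685ae_an

open Complex MeasureTheory Metric Filter Topology Set

/-- The Herglotz integral of an integrable density against a finite measure on the circle is
holomorphic in the disc. -/
lemma herglotz_measure_differentiableOn {μ : Measure ℂ} [IsFiniteMeasure μ]
    (hμ : μ (sphere 0 1)ᶜ = 0) {u : ℂ → ℂ} (hu : Integrable u μ) :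
    DifferentiableOn ℂ (fun z => ∫ ζ, (ζ + z) / (ζ - z) * u ζ ∂μ) (ball 0 1) := by
  intro z₀ hz₀
  have hz₀' : ‖z₀‖ < 1 := by simpa using hz₀
  obtain ⟨d, hd⟩ : ∃ d : ℝ, d = (1 - ‖z₀‖) / 2 := ⟨_, rfl⟩
  have hd0 : 0 < d := by rw [hd]; linarith
  have hball : ∀ z ∈ ball z₀ d, ∀ ζ : ℂ, ‖ζ‖ = 1 → d ≤ ‖ζ - z‖ := by
    intro z hz ζ hζ
    have h1 : ‖z - z₀‖ < d := by rwa [← dist_eq_norm]
    have h2 := norm_sub_norm_le ζ z
    have h3 : ‖z‖ ≤ ‖z₀‖ + ‖z - z₀‖ := by
      have := norm_add_le z₀ (z - z₀)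
      rwa [add_sub_cancel] at this
    rw [hζ] at h2
    linarith
  have hne : ∀ z ∈ ball z₀ d, ∀ ζ : ℂ, ‖ζ‖ = 1 → ζ - z ≠ 0 := by
    intro z hz ζ hζ h
    have := hball z hz ζ hζ
    rw [h, norm_zero] at this; linarith
  have hmeas : ∀ z : ℂ, AEStronglyMeasurable (fun ζ => (ζ + z) / (ζ - z) * u ζ) μ := by
    intro z
    apply AEStronglyMeasurable.mul _ hu.aestronglyMeasurable
    apply Measurable.aestronglyMeasurable
    fun_prop
  have key := hasDerivAt_integral_of_dominated_loc_of_deriv_le (μ := μ) (𝕜 := ℂ)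
    (F := fun z ζ => (ζ + z) / (ζ - z) * u ζ) (x₀ := z₀)
    (F' := fun z ζ => 2 * ζ / (ζ - z) ^ 2 * u ζ) (s := ball z₀ d)
    (bound := fun ζ => 2 / d ^ 2 * ‖u ζ‖) (ball_mem_nhds z₀ hd0) ?_ ?_ ?_ ?_ ?_ ?_
  · exact key.2.differentiableAt.differentiableWithinAt
  · filter_upwards with z
    exact hmeas z
  · apply hu.bdd_mul (c := 2 / d)
    · apply Measurable.aestronglyMeasurable; fun_prop
    · filter_upwards [ae_norm_of_circle hμ] with ζ hζ
      rw [norm_div, div_le_div_iff₀ (norm_pos_iff.mpr (hne z₀ (mem_ball_self hd0) ζ hζ)) hd0]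
      have h1 := hball z₀ (mem_ball_self hd0) ζ hζ
      have h2 : ‖ζ + z₀‖ ≤ 2 := by
        have := norm_add_le ζ z₀
        linarith
      nlinarith [norm_nonneg (ζ + z₀)]
  · apply AEStronglyMeasurable.mul _ hu.aestronglyMeasurable
    apply Measurable.aestronglyMeasurable
    fun_prop
  · filter_upwards [ae_norm_of_circle hμ] with ζ hζ z hz
    rw [norm_mul]
    apply mul_le_mul_of_nonneg_right _ (norm_nonneg _)
    rw [norm_div, norm_mul, norm_pow, hζ]
    have h1 := hball z hz ζ hζ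
    have h3 : ‖(2 : ℂ)‖ = 2 := by simp
    rw [h3, mul_one]
    gcongr
  · exact hu.norm.const_mul _
  · filter_upwards [ae_norm_of_circle hμ] with ζ hζ z hz
    have h1 := hne z hz ζ hζ
    have h2 : HasDerivAt (fun y : ℂ => ζ + y) 1 z := by
      simpa using (hasDerivAt_id z).const_add ζ
    have h3 : HasDerivAt (fun y : ℂ => ζ - y) (-1) z := by
      simpa using (hasDerivAt_id z).const_sub ζ
    have h4 := (h2.div h3 h1).mul_const (u ζ)
    have e : 2 * ζ / (ζ - z) ^ 2 * u ζ = (1 * (ζ - z) - (ζ + z) * -1) / (ζ - z) ^ 2 * u ζ := by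
      ring
    rw [e]
    exact h4

lemma arc_circle : arc (sphere 0 1)ᶜ = 0 := by
  have h := ae_arc_norm
  rw [ae_iff] at h
  refine measure_mono_null ?_ h
  intro ζ hζ
  simpa using hζ

lemma singularInner_differentiableOn {μ : Measure ℂ} [IsFiniteMeasure μ]
    (hμ : μ (sphere 0 1)ᶜ = 0) : DifferentiableOn ℂ (singularInner μ) (ball 0 1) := by
  have h := herglotz_measure_differentiableOn hμ (u := fun _ => 1) (integrable_const _)
  simp only [mul_one] at h
  exact h.neg.cexp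

lemma outerFn_differentiableOn {g : ℂ → ℂ} (hg : Integrable (fun ζ => Real.log ‖g ζ‖) arc) :
    DifferentiableOn ℂ (outerFn g) (ball 0 1) := by
  have h := herglotz_measure_differentiableOn arc_circle (u := fun ζ => (Real.log ‖g ζ‖ : ℂ))
    hg.ofReal
  exact h.cexp

lemma norm_singularInner {μ : Measure ℂ} [IsFiniteMeasure μ] (hμ : μ (sphere 0 1)ᶜ = 0)
    {z : ℂ} (hz : ‖z‖ < 1) : ‖singularInner μ z‖ = Real.exp (-pint μ z) := by
  unfold singularInner pint
  rw [norm_exp, neg_re]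
  congr 2
  have hint : Integrable (fun ζ => (ζ + z) / (ζ - z)) μ := by
    obtain ⟨C, hC⟩ := (isCompact_sphere (0 : ℂ) 1).exists_bound_of_continuousOn
      (herglotz_continuousOn hz)
    apply Integrable.of_bound (C := C)
    · apply Measurable.aestronglyMeasurable; fun_prop
    · filter_upwards [ae_norm_of_circle hμ] with ζ hζ
      exact hC ζ (by simpa using hζ)
  have h2 := integral_re hint
  have h3 : (∫ ζ, (ζ + z) / (ζ - z) ∂μ).re = ∫ ζ, ((ζ + z) / (ζ - z)).re ∂μ := by
    simpa using h2.symm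
  rw [h3]
  apply integral_congr_ae
  filter_upwards [ae_norm_of_circle hμ] with ζ hζ
  rw [re_herglotz hζ]

/-- Poisson integrals of measures vanish at points away from the measure. -/
lemma pint_tendsto_zero {μ : Measure ℂ} [IsFiniteMeasure μ] (hμ : μ (sphere 0 1)ᶜ = 0)
    {ζ₁ : ℂ} (h1 : ‖ζ₁‖ = 1) {U : Set ℂ} (hU : IsOpen U) (hmem : ζ₁ ∈ U) (h0 : μ U = 0) :
    Tendsto (pint μ) (𝓝[ball 0 1] ζ₁) (𝓝 0) := by
  rw [Metric.tendsto_nhds]
  intro ε hε
  have hM : 0 ≤ μ.real univ := measureReal_nonneg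
  have hunif := Metric.tendstoUniformlyOn_iff.mp (pk_tendstoUniformlyOn h1 hU hmem (s := sphere 0 1))
    (ε / (2 * (μ.real univ + 1))) (by positivity)
  filter_upwards [hunif, self_mem_nhdsWithin] with z hz hz1
  have hz1' : ‖z‖ < 1 := by simpa using hz1
  rw [dist_zero_right, Real.norm_of_nonneg (pint_nonneg hz1')]
  have hae : ∀ᵐ ξ ∂μ, pk z ξ ≤ ε / (2 * (μ.real univ + 1)) := by
    filter_upwards [ae_norm_of_circle hμ, measure_eq_zero_iff_ae_notMem.mp h0] with ξ h2 h3
    have := hz ξ ⟨by simpa using h2, h3⟩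
    simp only [Pi.zero_apply, dist_zero_left] at this
    rw [Real.norm_of_nonneg (pk_nonneg hz1' ξ)] at this
    exact this.le
  calc pint μ z ≤ ∫ _, ε / (2 * (μ.real univ + 1)) ∂μ :=
        integral_mono_ae (integrable_pk_measure hμ hz1') (integrable_const _) hae
    _ = μ.real univ * (ε / (2 * (μ.real univ + 1))) := by
        rw [integral_const, smul_eq_mul]
    _ < ε := by
        rw [mul_div_assoc', div_lt_iff₀ (by positivity)]
        nlinarith

end Pool.Agent.Lib.MP_e685ae_an
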