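import Pool.Agent.Lib.MP_e685ae_an.WeakLimit

/-!
# The key lemma on boundary measures

If `-log |B| + P[μ] - P[ν]` extends continuously (with nonnegative boundary values `w`) to an arc,
where the means of `log |B|` tend to zero, `μ` is singular and `μ`, `ν` are mutually singular,
then `μ` and `ν` vanish on the arc and `w = 0` there.
-/

namespace Pool.Agent.Lib.MP_e685ae_an

open Complex MeasureTheory Metric Filter Topology Set

open scoped BoundedContinuousFunction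

lemma tendsto_rmul {ξ : ℂ} (hξ : ‖ξ‖ = 1) :
    Tendsto (fun r : ℝ => (r : ℂ) * ξ) (𝓝[<] 1) (𝓝[ball 0 1] ξ) := by
  apply tendsto_nhdsWithin_of_tendsto_nhds_of_eventually_within
  · have : Tendsto (fun r : ℝ => (r : ℂ) * ξ) (𝓝 1) (𝓝 (((1 : ℝ) : ℂ) * ξ)) :=
      Continuous.tendsto (by fun_prop) _
    simp only [ofReal_one, one_mul] at this
    exact this.mono_left nhdsWithin_le_nhds
  · filter_upwards [Ioo_mem_nhdsLT (show (0 : ℝ) < 1 by norm_num)] with r hr
    simp only [mem_ball, dist_zero_right]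
    rw [norm_rmul hr hξ]; exact hr.2

lemma dist_rmul {r : ℝ} (hr : r < 1) {ζ : ℂ} (hζ : ‖ζ‖ = 1) : dist ((r : ℂ) * ζ) ζ = 1 - r := by
  rw [dist_eq_norm]
  have e : (r : ℂ) * ζ - ζ = ((r - 1 : ℝ) : ℂ) * ζ := by push_cast; ring
  rw [e, norm_mul, hζ, mul_one, norm_real, Real.norm_of_nonpos (by linarith)]
  ring

lemma aesm_log_norm {B : ℂ → ℂ} (hBc : ContinuousOn B (ball 0 1)) {r : ℝ}
    (hr : r ∈ Ioo (0 : ℝ) 1) :
    AEStronglyMeasurable (fun ζ : ℂ => -Real.log ‖B (r * ζ)‖) arc := by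
  have h1 : AEStronglyMeasurable (fun ζ : ℂ => B (r * ζ)) arc := by
    apply aesm_of_continuousOn
    apply hBc.comp (by fun_prop)
    intro ζ hζ
    simp only [mem_ball, dist_zero_right]
    rw [norm_rmul hr (by simpa using hζ)]; exact hr.2
  exact (Real.measurable_log.comp_aemeasurable h1.norm.aemeasurable).neg.aestronglyMeasurable

lemma aesm_pint {μ : Measure ℂ} [IsFiniteMeasure μ] (r : ℝ) :
    AEStronglyMeasurable (fun ζ : ℂ => pint μ (r * ζ)) arc := by
  have hm : StronglyMeasurable (fun p : ℂ × ℂ => pk (r * p.1) p.2) :=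
    (measurable_pk2 r).stronglyMeasurable
  exact hm.integral_prod_right.aestronglyMeasurable

lemma integrable_pint {μ : Measure ℂ} [IsFiniteMeasure μ] (hμ : μ (sphere 0 1)ᶜ = 0) {r : ℝ}
    (hr : r ∈ Ioo (0 : ℝ) 1) : Integrable (fun ζ : ℂ => pint μ (r * ζ)) arc := by
  apply Integrable.of_bound (aesm_pint r) ((1 + r) / (1 - r) * μ.real univ)
  filter_upwards [ae_arc_norm] with ζ hζ
  unfold pint
  apply norm_integral_le_of_norm_le_const
  filter_upwards [ae_norm_of_circle hμ] with ξ hξ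
  have h3 : ‖(r : ℂ) * ζ‖ = r := norm_rmul hr hζ
  have h4 := norm_pk_le (z := (r : ℂ) * ζ) (ζ := ξ) (by rw [h3]; exact hr.2) hξ
  rwa [h3] at h4

theorem key_measures {μ ν : Measure ℂ} [IsFiniteMeasure μ] [IsFiniteMeasure ν]
    (hμc : μ (sphere 0 1)ᶜ = 0) (hνc : ν (sphere 0 1)ᶜ = 0) (hμa : μ ⟂ₘ arc) (hμν : μ ⟂ₘ ν)
    {B : ℂ → ℂ} (hBc : ContinuousOn B (ball 0 1)) (hBle : ∀ z ∈ ball (0 : ℂ) 1, ‖B z‖ ≤ 1)
    (hBmean : Tendsto (fun r : ℝ => ∫⁻ ζ, ENNReal.ofReal (-Real.log ‖B (r * ζ)‖) ∂arc)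
      (𝓝[<] 1) (𝓝 0))
    {ζ₁ : ℂ} (h1 : ‖ζ₁‖ = 1) {ρ : ℝ} (hρ : 0 < ρ) {w : ℂ → ℝ} (hw : ContinuousOn w (ball ζ₁ ρ))
    (hw0 : ∀ ζ ∈ ball ζ₁ ρ, ‖ζ‖ = 1 → 0 ≤ w ζ)
    (hlim : ∀ ζ ∈ ball ζ₁ ρ, ‖ζ‖ = 1 →
      Tendsto (fun z => -Real.log ‖B z‖ + pint μ z - pint ν z) (𝓝[ball 0 1] ζ) (𝓝 (w ζ))) :
    μ (ball ζ₁ (ρ / 2)) = 0 ∧ ν (ball ζ₁ (ρ / 2)) = 0 ∧ w ζ₁ = 0 := by
  set h : ℂ → ℝ := fun z => -Real.log ‖B z‖ + pint μ z - pint ν z with hh
  -- the cut-off
  set χ : ℂ → ℝ := fun ζ => max 0 (ρ / 2 - dist ζ ζ₁) with hχ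
  have hχc : Continuous χ := by fun_prop
  have hχ0 : ∀ ζ, 0 ≤ χ ζ := fun ζ => le_max_left _ _
  have hχle : ∀ ζ, χ ζ ≤ ρ / 2 := fun ζ => max_le (by linarith) (by linarith [dist_nonneg (x := ζ) (y := ζ₁)])
  have hχsupp : ∀ ζ, χ ζ ≠ 0 → ζ ∈ ball ζ₁ (ρ / 2) := by
    intro ζ hζ
    by_contra hcon
    apply hζ
    simp only [mem_ball, not_lt] at hcon
    exact max_eq_left (by linarith)
  have hχpos : ∀ ζ ∈ ball ζ₁ (ρ / 2), 0 < χ ζ := by
    intro ζ hζ
    simp only [mem_ball] at hζ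
    exact lt_max_of_lt_right (by linarith)
  -- the compact arc
  set K : Set ℂ := sphere 0 1 ∩ closedBall ζ₁ (ρ / 2) with hK
  have hKc : IsCompact K := (isCompact_sphere 0 1).inter_right isClosed_closedBall
  have hKmem : ∀ ζ ∈ K, ζ ∈ ball ζ₁ ρ ∧ ‖ζ‖ = 1 := by
    intro ζ hζ
    refine ⟨?_, by simpa using hζ.1⟩
    have := hζ.2
    simp only [mem_closedBall] at this
    simp only [mem_ball]; linarith
  -- local bound for `h`
  obtain ⟨M, U, hU, hKU, hM⟩ : ∃ (M : ℝ) (U : Set ℂ), IsOpen U ∧ K ⊆ U ∧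
      ∀ z ∈ U ∩ ball 0 1, |h z| ≤ M := by
    apply hKc.induction_on (p := fun s => ∃ (M : ℝ) (U : Set ℂ), IsOpen U ∧ s ⊆ U ∧
      ∀ z ∈ U ∩ ball 0 1, |h z| ≤ M)
    · exact ⟨0, ∅, isOpen_empty, le_rfl, by simp⟩
    · rintro s t hst ⟨M, U, hU, htU, hM⟩
      exact ⟨M, U, hU, hst.trans htU, hM⟩
    · rintro s t ⟨M, U, hU, hsU, hM⟩ ⟨M', U', hU', htU', hM'⟩
      refine ⟨max M M', U ∪ U', hU.union hU', union_subset_union hsU htU', ?_⟩
      rintro z ⟨hz | hz, hz1⟩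
      · exact (hM z ⟨hz, hz1⟩).trans (le_max_left _ _)
      · exact (hM' z ⟨hz, hz1⟩).trans (le_max_right _ _)
    · intro ζ hζ
      obtain ⟨hζ1, hζ2⟩ := hKmem ζ hζ
      have h2 := (hlim ζ hζ1 hζ2).eventually (Metric.ball_mem_nhds (w ζ) one_pos)
      obtain ⟨U, hU, hU', hU''⟩ := _root_.eventually_nhds_iff.mp (eventually_nhdsWithin_iff.mp h2)
      refine ⟨U, mem_nhdsWithin_of_mem_nhds (hU'.mem_nhds hU''), |w ζ| + 1, U, hU', le_rfl, ?_⟩
      intro z hz
      have h3 := hU z hz.1 hz.2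
      rw [Real.dist_eq, abs_lt] at h3
      rw [abs_le]
      constructor <;> linarith [h3.1, h3.2, neg_abs_le (w ζ), le_abs_self (w ζ)]
  obtain ⟨δ, hδ, hδU⟩ := hKc.exists_thickening_subset_open hU hKU
  have hbound : ∀ r ∈ Ioo (max 0 (1 - δ)) 1, ∀ ζ : ℂ, ‖ζ‖ = 1 → χ ζ ≠ 0 → |h (r * ζ)| ≤ M := by
    intro r hr ζ hζ hχζ
    have hr0 : 0 < r := (le_max_left _ _).trans_lt hr.1
    have hrδ : 1 - δ < r := (le_max_right _ _).trans_lt hr.1
    apply hM
    refine ⟨hδU ?_, ?_⟩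
    · rw [mem_thickening_iff]
      refine ⟨ζ, ⟨by simpa using hζ, ball_subset_closedBall (hχsupp ζ hχζ)⟩, ?_⟩
      rw [dist_rmul hr.2 hζ]; linarith
    · simp only [mem_ball, dist_zero_right]
      rw [norm_rmul ⟨hr0, hr.2⟩ hζ]; exact hr.2
  have hmax : max 0 (1 - δ) < 1 := max_lt one_pos (by linarith)
  -- continuity of `W = χ w`
  set W : ℂ → ℝ := fun ζ => χ ζ * w ζ with hW
  have hWc : Continuous W := by
    rw [continuous_iff_continuousAt]
    intro ζ
    by_cases hζ : ζ ∈ ball ζ₁ ρ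
    · exact hχc.continuousAt.mul (hw.continuousAt (isOpen_ball.mem_nhds hζ))
    · have h2 : ζ ∈ (closedBall ζ₁ (ρ / 2))ᶜ := by
        simp only [mem_ball, not_lt] at hζ
        simp only [mem_compl_iff, mem_closedBall, not_le]; linarith
      have h3 : W =ᶠ[𝓝 ζ] fun _ => 0 := by
        filter_upwards [isClosed_closedBall.isOpen_compl.mem_nhds h2] with ξ hξ
        have : χ ξ = 0 := by
          by_contra hcon
          exact hξ (ball_subset_closedBall (hχsupp ξ hcon))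
        simp [hW, this]
      exact continuousAt_const.congr h3.symm
  have hW0 : ∀ ζ : ℂ, ‖ζ‖ = 1 → 0 ≤ W ζ := by
    intro ζ hζ
    by_cases hχζ : χ ζ = 0
    · simp [hW, hχζ]
    · have := hχsupp ζ hχζ
      apply mul_nonneg (hχ0 ζ)
      apply hw0 ζ _ hζ
      simp only [mem_ball] at this ⊢; linarith
  -- the main identity
  have hident : ∀ φ : ℂ →ᵇ ℝ, ∫ ζ, φ ζ * W ζ ∂arc
      = ∫ ζ, φ ζ * χ ζ ∂μ - ∫ ζ, φ ζ * χ ζ ∂ν := by
    intro φ
    set ψ : ℂ → ℝ := fun ζ => φ ζ * χ ζ with hψ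
    have hψc : Continuous ψ := φ.continuous.mul hχc
    obtain ⟨C, hC⟩ : ∃ C : ℝ, ∀ ζ, |ψ ζ| ≤ C := by
      refine ⟨‖φ‖ * (ρ / 2), fun ζ => ?_⟩
      rw [hψ]
      simp only [abs_mul, abs_of_nonneg (hχ0 ζ)]
      exact mul_le_mul (φ.norm_coe_le_norm ζ) (hχle ζ) (hχ0 ζ) (norm_nonneg _)
    have hC0 : 0 ≤ C := (abs_nonneg _).trans (hC 0)
    -- first limit
    have lim1 : Tendsto (fun r : ℝ => ∫ ζ, ψ ζ * h (r * ζ) ∂arc) (𝓝[<] 1)
        (𝓝 (∫ ζ, ψ ζ * w ζ ∂arc)) := by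
      apply tendsto_integral_filter_of_dominated_convergence (fun _ => C * |M|)
      · filter_upwards [Ioo_mem_nhdsLT (show (0 : ℝ) < 1 by norm_num)] with r hr
        apply hψc.aestronglyMeasurable.mul
        exact ((aesm_log_norm hBc hr).add (aesm_pint r)).sub (aesm_pint r)
      · filter_upwards [Ioo_mem_nhdsLT hmax] with r hr
        filter_upwards [ae_arc_norm] with ζ hζ
        by_cases hχζ : χ ζ = 0
        · have : ψ ζ = 0 := by simp [hψ, hχζ]
          rw [this, zero_mul, norm_zero]; positivity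
        · rw [norm_mul]
          exact mul_le_mul (hC ζ) ((hbound r hr ζ hζ hχζ).trans (le_abs_self M)) (norm_nonneg _) hC0
      · exact integrable_const _
      · filter_upwards [ae_arc_norm] with ζ hζ
        by_cases hχζ : χ ζ = 0
        · have : ψ ζ = 0 := by simp [hψ, hχζ]
          simp [this]
        · apply Tendsto.const_mul
          have h5 := hχsupp ζ hχζ
          have h6 : ζ ∈ ball ζ₁ ρ := by simp only [mem_ball] at h5 ⊢; linarith
          exact (hlim ζ h6 hζ).comp (tendsto_rmul hζ)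
    -- the Blaschke term
    have hfin : ∀ᶠ r : ℝ in 𝓝[<] 1,
        ∫⁻ ζ, ENNReal.ofReal (-Real.log ‖B (r * ζ)‖) ∂arc < 1 :=
      hBmean.eventually_lt_const (by norm_num)
    have hBint : ∀ᶠ r : ℝ in 𝓝[<] 1, Integrable (fun ζ : ℂ => -Real.log ‖B (r * ζ)‖) arc ∧
        0 ≤ᵐ[arc] fun ζ : ℂ => -Real.log ‖B (r * ζ)‖ := by
      filter_upwards [hfin, Ioo_mem_nhdsLT (show (0 : ℝ) < 1 by norm_num)] with r hr1 hr
      have hnn : 0 ≤ᵐ[arc] fun ζ : ℂ => -Real.log ‖B (r * ζ)‖ := by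
        filter_upwards [ae_arc_norm] with ζ hζ
        simp only [Pi.zero_apply, neg_nonneg]
        apply Real.log_nonpos (norm_nonneg _)
        apply hBle
        simp only [mem_ball, dist_zero_right]
        rw [norm_rmul hr hζ]; exact hr.2
      refine ⟨⟨aesm_log_norm hBc hr, ?_⟩, hnn⟩
      rw [hasFiniteIntegral_iff_ofReal hnn]
      exact hr1.trans (by simp)
    have lim2 : Tendsto (fun r : ℝ => ∫ ζ, ψ ζ * -Real.log ‖B (r * ζ)‖ ∂arc) (𝓝[<] 1)
        (𝓝 0) := by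
      have h7 : Tendsto (fun r : ℝ => C *
          (∫⁻ ζ, ENNReal.ofReal (-Real.log ‖B (r * ζ)‖) ∂arc).toReal) (𝓝[<] 1) (𝓝 0) := by
        have := (ENNReal.tendsto_toReal ENNReal.zero_ne_top).comp hBmean
        simpa using this.const_mul C
      apply squeeze_zero_norm' _ h7
      filter_upwards [hBint] with r hr
      obtain ⟨hr1, hr2⟩ := hr
      rw [← integral_eq_lintegral_of_nonneg_ae hr2 hr1.aestronglyMeasurable,
        ← integral_const_mul]
      apply norm_integral_le_of_norm_le (hr1.const_mul C)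
      filter_upwards [hr2] with ζ hζ
      rw [norm_mul, Real.norm_of_nonneg hζ]
      exact mul_le_mul_of_nonneg_right (hC ζ) hζ
    have lim3 := weak_limit hμc hψc
    have lim4 := weak_limit hνc hψc
    have lim5 := (lim2.add lim3).sub lim4
    have hev : ∀ᶠ r : ℝ in 𝓝[<] 1, (∫ ζ, ψ ζ * -Real.log ‖B (r * ζ)‖ ∂arc
        + ∫ ζ, ψ ζ * pint μ (r * ζ) ∂arc) - ∫ ζ, ψ ζ * pint ν (r * ζ) ∂arc
        = ∫ ζ, ψ ζ * h (r * ζ) ∂arc := by
      filter_upwards [hBint, Ioo_mem_nhdsLT (show (0 : ℝ) < 1 by norm_num)] with r hr1 hr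
      have j1 : Integrable (fun ζ : ℂ => ψ ζ * -Real.log ‖B (r * ζ)‖) arc :=
        hr1.1.bdd_mul (c := C) hψc.aestronglyMeasurable (by filter_upwards with ζ; exact hC ζ)
      have j2 : Integrable (fun ζ : ℂ => ψ ζ * pint μ (r * ζ)) arc :=
        (integrable_pint hμc hr).bdd_mul (c := C) hψc.aestronglyMeasurable
          (by filter_upwards with ζ; exact hC ζ)
      have j3 : Integrable (fun ζ : ℂ => ψ ζ * pint ν (r * ζ)) arc :=
        (integrable_pint hνc hr).bdd_mul (c := C) hψc.aestronglyMeasurable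
          (by filter_upwards with ζ; exact hC ζ)
      have j12 : Integrable (fun ζ : ℂ => ψ ζ * -Real.log ‖B (r * ζ)‖ + ψ ζ * pint μ (r * ζ)) arc :=
        j1.add j2
      rw [← integral_add j1 j2, ← integral_sub j12 j3]
      congr 1
      ext ζ
      simp only [hh]
      ring
    have huniq := tendsto_nhds_unique (lim5.congr' hev) lim1
    have e1 : ∫ ζ, φ ζ * W ζ ∂arc = ∫ ζ, ψ ζ * w ζ ∂arc := by
      congr 1; ext ζ; simp only [hψ, hW]; ring
    rw [e1, ← huniq]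
    ring
  -- densities
  have mχ : Measurable (fun ζ => ENNReal.ofReal (χ ζ)) := hχc.measurable.ennreal_ofReal
  have mW : Measurable (fun ζ => ENNReal.ofReal (W ζ)) := hWc.measurable.ennreal_ofReal
  have iχ : ∀ (m : Measure ℂ) [IsFiniteMeasure m], Integrable χ m := by
    intro m _
    apply Integrable.of_bound hχc.aestronglyMeasurable (ρ / 2)
    filter_upwards with ζ
    rw [Real.norm_of_nonneg (hχ0 ζ)]; exact hχle ζ
  have iW : Integrable W arc := integrable_of_continuousOn hWc.continuousOn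
  have f1 : IsFiniteMeasure (μ.withDensity fun ζ => ENNReal.ofReal (χ ζ)) :=
    isFiniteMeasure_withDensity_ofReal (iχ μ).2
  have f2 : IsFiniteMeasure (ν.withDensity fun ζ => ENNReal.ofReal (χ ζ)) :=
    isFiniteMeasure_withDensity_ofReal (iχ ν).2
  have f3 : IsFiniteMeasure (arc.withDensity fun ζ => ENNReal.ofReal (W ζ)) :=
    isFiniteMeasure_withDensity_ofReal iW.2
  have heq : μ.withDensity (fun ζ => ENNReal.ofReal (χ ζ))
      = ν.withDensity (fun ζ => ENNReal.ofReal (χ ζ))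
        + arc.withDensity (fun ζ => ENNReal.ofReal (W ζ)) := by
    apply ext_of_forall_integral_eq_of_IsFiniteMeasure
    intro φ
    rw [integral_add_measure (φ.integrable _) (φ.integrable _),
      integral_withDensity_eq_integral_toReal_smul mχ (by filter_upwards with ζ; simp),
      integral_withDensity_eq_integral_toReal_smul mχ (by filter_upwards with ζ; simp),
      integral_withDensity_eq_integral_toReal_smul mW (by filter_upwards with ζ; simp)]
    have a1 : ∀ m : Measure ℂ, ∫ ζ, (ENNReal.ofReal (χ ζ)).toReal • φ ζ ∂m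
        = ∫ ζ, φ ζ * χ ζ ∂m := by
      intro m
      congr 1; ext ζ
      rw [ENNReal.toReal_ofReal (hχ0 ζ), smul_eq_mul, mul_comm]
    have a2 : ∫ ζ, (ENNReal.ofReal (W ζ)).toReal • φ ζ ∂arc = ∫ ζ, φ ζ * W ζ ∂arc := by
      apply integral_congr_ae
      filter_upwards [ae_arc_norm] with ζ hζ
      rw [ENNReal.toReal_ofReal (hW0 ζ hζ), smul_eq_mul, mul_comm]
    rw [a1, a1, a2, hident φ]
    ring
  have hsing : μ.withDensity (fun ζ => ENNReal.ofReal (χ ζ)) ⟂ₘ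
      ν.withDensity (fun ζ => ENNReal.ofReal (χ ζ))
        + arc.withDensity (fun ζ => ENNReal.ofReal (W ζ)) := by
    apply Measure.MutuallySingular.add_right
    · exact hμν.mono_ac (withDensity_absolutelyContinuous _ _)
        (withDensity_absolutelyContinuous _ _)
    · exact hμa.mono_ac (withDensity_absolutelyContinuous _ _)
        (withDensity_absolutelyContinuous _ _)
  have hz1 : μ.withDensity (fun ζ => ENNReal.ofReal (χ ζ)) = 0 := by
    rw [← heq] at hsing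
    exact (Measure.MutuallySingular.self_iff _).mp hsing
  have hz2 : ν.withDensity (fun ζ => ENNReal.ofReal (χ ζ))
        + arc.withDensity (fun ζ => ENNReal.ofReal (W ζ)) = 0 := by rw [← heq, hz1]
  have hz3 : ν.withDensity (fun ζ => ENNReal.ofReal (χ ζ)) = 0 := by
    rw [← Measure.measure_univ_eq_zero] at hz2 ⊢
    simp only [Measure.add_apply, add_eq_zero] at hz2
    exact hz2.1
  have hz4 : arc.withDensity (fun ζ => ENNReal.ofReal (W ζ)) = 0 := by
    rw [← Measure.measure_univ_eq_zero] at hz2 ⊢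
    simp only [Measure.add_apply, add_eq_zero] at hz2
    exact hz2.2
  have hnull : ∀ m : Measure ℂ, m.withDensity (fun ζ => ENNReal.ofReal (χ ζ)) = 0 →
      m (ball ζ₁ (ρ / 2)) = 0 := by
    intro m hm
    rw [withDensity_eq_zero_iff mχ.aemeasurable] at hm
    refine measure_mono_null ?_ (ae_iff.mp hm)
    intro ζ hζ
    simp only [Pi.zero_apply, mem_ofPred_eq, ENNReal.ofReal_eq_zero, not_le]
    exact hχpos ζ hζ
  refine ⟨hnull μ hz1, hnull ν hz3, ?_⟩
  -- `w ζ₁ = 0`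
  by_contra hcon
  have hw1 : 0 < w ζ₁ := lt_of_le_of_ne (hw0 ζ₁ (mem_ball_self hρ) h1) (Ne.symm hcon)
  have hWpos : 0 < W ζ₁ := mul_pos (hχpos ζ₁ (mem_ball_self (by linarith))) hw1
  have hopen : IsOpen {ζ | 0 < W ζ} := isOpen_lt continuous_const hWc
  apply arc_pos h1 hopen hWpos
  rw [withDensity_eq_zero_iff mW.aemeasurable] at hz4
  refine measure_mono_null ?_ (ae_iff.mp hz4)
  intro ζ hζ
  simp only [Pi.zero_apply, mem_ofPred_eq, ENNReal.ofReal_eq_zero, not_le]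
  exact hζ

end Pool.Agent.Lib.MP_e685ae_an
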