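import Pool.Agent.Lib.MP_e685ae_an.KeyMeasures
import Pool.Agent.Lib.MP_e685ae_an.OuterBound

/-!
# Reflection principle

If `f` is holomorphic in the unit disc and `|f| → 1` at all points of an arc of the circle, then
`f` continues analytically across the arc.
-/

namespace Pool.Agent.Lib.MP_e685ae_an

open Complex MeasureTheory Metric Filter Topology Set

/-- Maximum principle with boundary limits of the modulus. -/
lemma norm_le_one_of_boundary {U : Set ℂ} (hU : IsOpen U) (hUb : Bornology.IsBounded U)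
    (hUc : IsPreconnected U) {H : ℂ → ℂ} (hH : DifferentiableOn ℂ H U)
    (hlim : ∀ w ∈ frontier U, Tendsto (fun z => ‖H z‖) (𝓝[U] w) (𝓝 1)) :
    ∀ w ∈ U, ‖H w‖ ≤ 1 := by
  intro w₀ hw₀
  by_contra hcon
  rw [not_le] at hcon
  -- the superlevel set
  set K : Set ℂ := {w | w ∈ U ∧ ‖H w₀‖ ≤ ‖H w‖} with hK
  have hKU : K ⊆ U := fun w hw => hw.1
  have hclosed : IsClosed K := by
    rw [← closure_subset_iff_isClosed]
    intro w hw
    have hwU : w ∈ closure U := closure_mono hKU hw
    have hfreq : ∃ᶠ z in 𝓝[U] w, ‖H w₀‖ ≤ ‖H z‖ := by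
      rw [mem_closure_iff_frequently] at hw
      rw [frequently_nhdsWithin_iff]
      exact hw.mono fun z hz => ⟨hz.2, hz.1⟩
    by_cases hmem : w ∈ U
    · refine ⟨hmem, ?_⟩
      have hc : Tendsto (fun z => ‖H z‖) (𝓝[U] w) (𝓝 ‖H w‖) := (hH.continuousOn w hmem).norm
      by_contra hlt
      rw [not_le] at hlt
      have hev := hc.eventually_lt_const hlt
      exact hfreq (hev.mono fun z hz => not_le.mpr hz)
    · exfalso
      have hfr : w ∈ frontier U := by
        rw [frontier, Set.mem_sdiff, hU.interior_eq]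
        exact ⟨hwU, hmem⟩
      have hev := (hlim w hfr).eventually_lt_const hcon
      exact hfreq (hev.mono fun z hz => not_le.mpr hz)
  have hcomp : IsCompact K := isCompact_of_isClosed_isBounded hclosed (hUb.subset hKU)
  obtain ⟨w₁, hw₁, hmax⟩ := hcomp.exists_isMaxOn ⟨w₀, hw₀, le_rfl⟩
    ((hH.continuousOn.mono hKU).norm)
  have hmaxU : IsMaxOn (norm ∘ H) U w₁ := by
    intro z hz
    simp only [Function.comp, mem_ofPred_eq]
    by_cases hzK : z ∈ K
    · exact hmax hzK
    · have : ‖H z‖ < ‖H w₀‖ := by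
        by_contra h
        exact hzK ⟨hz, not_lt.mp h⟩
      exact this.le.trans hw₁.2
  have hconst := eqOn_of_isPreconnected_of_isMaxOn_norm hUc hU hH (hKU hw₁) hmaxU
  -- a frontier point exists
  have hne : (frontier U).Nonempty := by
    rw [Set.nonempty_iff_ne_empty]
    intro hempty
    have hclopen : IsClopen U := isClopen_iff_frontier_eq_empty.mpr hempty
    rcases isClopen_iff.mp hclopen with h | h
    · rw [h] at hw₀; exact hw₀
    · rw [h] at hUb
      exact NormedSpace.unbounded_univ ℝ ℂ hUb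
  obtain ⟨w, hw⟩ := hne
  have hwcl : w ∈ closure U := frontier_subset_closure hw
  have : (𝓝[U] w).NeBot := mem_closure_iff_nhdsWithin_neBot.mp hwcl
  have h1 := hlim w hw
  have h2 : Tendsto (fun z => ‖H z‖) (𝓝[U] w) (𝓝 ‖H w₁‖) := by
    apply tendsto_const_nhds.congr'
    filter_upwards [self_mem_nhdsWithin] with z hz
    rw [hconst hz]; rfl
  have h3 := tendsto_nhds_unique h1 h2
  linarith [hw₁.2]

/-- A nonvanishing function whose modulus tends to `1` at the boundary is constant. -/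
lemma const_of_boundary {U : Set ℂ} (hU : IsOpen U) (hUb : Bornology.IsBounded U)
    (hUc : IsPreconnected U) {H : ℂ → ℂ} (hH : DifferentiableOn ℂ H U) (hne : ∀ w ∈ U, H w ≠ 0)
    (hlim : ∀ w ∈ frontier U, Tendsto (fun z => ‖H z‖) (𝓝[U] w) (𝓝 1)) {w₀ : ℂ} (hw₀ : w₀ ∈ U) :
    ∀ w ∈ U, H w = H w₀ := by
  have h1 := norm_le_one_of_boundary hU hUb hUc hH hlim
  have h2 := norm_le_one_of_boundary hU hUb hUc (H := fun w => (H w)⁻¹) (hH.inv hne) (by
    intro w hw
    have := (hlim w hw).inv₀ one_ne_zero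
    simpa using this)
  have h3 : ∀ w ∈ U, ‖H w‖ = 1 := by
    intro w hw
    apply le_antisymm (h1 w hw)
    have := h2 w hw
    rw [norm_inv] at this
    exact (inv_le_one₀ (norm_pos_iff.mpr (hne w hw))).mp this
  have hmax : IsMaxOn (norm ∘ H) U w₀ := by
    intro z hz
    simp only [Function.comp, mem_ofPred_eq]
    rw [h3 z hz, h3 w₀ hw₀]
  intro w hw
  exact eqOn_of_isPreconnected_of_isMaxOn_norm hUc hU hH hw₀ hmax hw

/-- The Herglotz integral is holomorphic in the disc. -/
lemma herglotz_differentiableOn {u : ℂ → ℝ} (hu : ContinuousOn u (sphere 0 1)) :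
    DifferentiableOn ℂ (fun w => ∫ ζ, (ζ + w) / (ζ - w) * (u ζ : ℂ) ∂arc) (ball 0 1) := by
  have hci : CircleIntegrable (fun ζ => (u ζ : ℂ)) 0 1 :=
    (continuous_ofReal.comp_continuousOn hu).circleIntegrable (by norm_num)
  have h := differentiableOn_circleAverage_herglotzRieszKernel_smul hci
  apply h.congr
  intro w hw
  have hw1 : ‖w‖ < 1 := by simpa using hw
  rw [integral_arc]
  · apply Real.circleAverage_congr_sphere
    intro ζ _
    simp [herglotzRieszKernel]
  · exact aesm_of_continuousOn ((herglotz_continuousOn hw1).mul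
      (continuous_ofReal.comp_continuousOn hu))

lemma re_herglotz_integral {u : ℂ → ℝ} (hu : Integrable u arc) {w : ℂ} (hw : ‖w‖ < 1) :
    (∫ ζ, (ζ + w) / (ζ - w) * (u ζ : ℂ) ∂arc).re = ∫ ζ, pk w ζ * u ζ ∂arc := by
  have h1 := herglotz_mul_integrable hw hu
  have h2 := integral_re h1
  have h3 : (∫ ζ, (ζ + w) / (ζ - w) * (u ζ : ℂ) ∂arc).re
      = ∫ ζ, ((ζ + w) / (ζ - w) * (u ζ : ℂ)).re ∂arc := by
    simpa using h2.symm
  rw [h3]
  apply integral_congr_ae
  filter_upwards [ae_arc_norm] with ζ hζ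
  rw [re_mul_ofReal, re_herglotz hζ]

lemma inv_eq_conj_of_norm {ζ : ℂ} (hζ : ‖ζ‖ = 1) : ζ⁻¹ = (starRingEnd ℂ) ζ := by
  rw [Complex.inv_def, normSq_eq_norm_sq, hζ]; simp

/-- The Poisson integral of an odd function vanishes on the real diameter. -/
lemma poisson_odd {u : ℂ → ℝ} (hu : ContinuousOn u (sphere 0 1))
    (hodd : ∀ ζ : ℂ, u ((starRingEnd ℂ) ζ) = -u ζ) {x : ℂ} (hx : ‖x‖ < 1) (hxr : x.im = 0) :
    ∫ ζ, pk x ζ * u ζ ∂arc = 0 := by
  have hm : AEStronglyMeasurable (fun ζ => pk x ζ * u ζ) arc :=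
    aesm_of_continuousOn ((continuousOn_pk hx).mul hu)
  rw [integral_arc hm]
  have h1 : Real.circleAverage (fun ζ => pk x ζ⁻¹ * u ζ⁻¹) 0 1
      = Real.circleAverage (fun ζ => pk x ζ * u ζ) 0 1 :=
    Real.circleAverage_zero_one_congr_inv (f := fun ζ => pk x ζ * u ζ)
  have h2 : Real.circleAverage (fun ζ => pk x ζ⁻¹ * u ζ⁻¹) 0 1
      = Real.circleAverage (fun ζ => -(pk x ζ * u ζ)) 0 1 := by
    apply Real.circleAverage_congr_sphere
    intro ζ hζ
    have hζ1 : ‖ζ‖ = 1 := by simpa using hζ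
    simp only [inv_eq_conj_of_norm hζ1, hodd]
    have hxc : (starRingEnd ℂ) x = x := conj_eq_iff_im.mpr hxr
    have : pk x ((starRingEnd ℂ) ζ) = pk x ζ := by
      unfold pk
      have e : (starRingEnd ℂ) ζ - x = (starRingEnd ℂ) (ζ - x) := by rw [map_sub, hxc]
      rw [e, RCLike.norm_conj]
    rw [this]; ring
  have h3 : Real.circleAverage (fun ζ => -(pk x ζ * u ζ)) 0 1
      = -Real.circleAverage (fun ζ => pk x ζ * u ζ) 0 1 := by
    simp only [Real.circleAverage_def, intervalIntegral.integral_neg, smul_neg]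
  rw [h2, h3] at h1
  linarith

/-- **Reflection principle.** -/
theorem reflection {f : ℂ → ℂ} (hf : DifferentiableOn ℂ f (ball 0 1)) {ζ₀ : ℂ} (h₀ : ‖ζ₀‖ = 1)
    {ρ : ℝ} (hρ : 0 < ρ)
    (hlim : ∀ ζ ∈ ball ζ₀ ρ, ‖ζ‖ = 1 → Tendsto (fun z => ‖f z‖) (𝓝[ball 0 1] ζ) (𝓝 1)) :
    ∃ g : ℂ → ℂ, AnalyticAt ℂ g ζ₀ ∧ ∀ᶠ z in 𝓝[ball 0 1] ζ₀, g z = f z := by
  have hζ₀ne : ζ₀ ≠ 0 := by intro h; rw [h] at h₀; simp at h₀
  -- radius on which `|f| > 1/2`
  obtain ⟨ρ₁, hρ₁, hf1⟩ : ∃ ρ₁ > 0, ∀ z ∈ ball (0 : ℂ) 1, dist z ζ₀ < ρ₁ → f z ≠ 0 := by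
    have h1 := (hlim ζ₀ (mem_ball_self hρ) h₀).eventually_const_lt (show (1 / 2 : ℝ) < 1 by norm_num)
    rw [eventually_nhdsWithin_iff, Metric.eventually_nhds_iff] at h1
    obtain ⟨ρ₁, hρ₁, h2⟩ := h1
    refine ⟨ρ₁, hρ₁, fun z hz hd h0 => ?_⟩
    have := h2 hd hz
    rw [h0] at this
    simp at this; linarith
  obtain ⟨R, hR0, hR1, hRρ, hRρ₁⟩ : ∃ R : ℝ, 0 < R ∧ R ≤ 1 / 2 ∧ 4 * R < ρ ∧ 4 * R < ρ₁ := by
    refine ⟨min (1 / 2) (min (ρ / 8) (ρ₁ / 8)), ?_, ?_, ?_, ?_⟩
    · apply lt_min (by norm_num) (lt_min (by linarith) (by linarith))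
    · exact min_le_left _ _
    · have := (min_le_right (1 / 2) (min (ρ / 8) (ρ₁ / 8))).trans (min_le_left _ _)
      linarith
    · have := (min_le_right (1 / 2) (min (ρ / 8) (ρ₁ / 8))).trans (min_le_right _ _)
      linarith
  -- the coordinate
  set φ : ℂ → ℂ := fun w => ζ₀ * exp (I * R * w) with hφ
  have hφd : Differentiable ℂ φ := by fun_prop
  have hφn : ∀ w, ‖φ w‖ = Real.exp (-(R * w.im)) := by
    intro w
    simp only [hφ, norm_mul, h₀, one_mul, norm_exp]
    congr 1
    simp
  have hφdist : ∀ w : ℂ, ‖w‖ < 2 → dist (φ w) ζ₀ < min ρ ρ₁ := by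
    intro w hw
    have e : φ w - ζ₀ = ζ₀ * (exp (I * R * w) - 1) := by simp only [hφ]; ring
    have hn : ‖I * (R : ℂ) * w‖ = R * ‖w‖ := by
      rw [norm_mul, norm_mul, norm_I, one_mul, norm_real, Real.norm_of_nonneg hR0.le]
    rw [dist_eq_norm, e, norm_mul, h₀, one_mul]
    have h2 := norm_exp_sub_one_le (x := I * R * w) (by rw [hn]; nlinarith [norm_nonneg w])
    rw [hn] at h2
    have h3 : 2 * (R * ‖w‖) < 4 * R := by nlinarith
    apply lt_min <;> linarith
  have hφball : ∀ w : ℂ, 0 < w.im → φ w ∈ ball (0 : ℂ) 1 := by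
    intro w hw
    simp only [mem_ball, dist_zero_right, hφn]
    rw [Real.exp_lt_one_iff]
    have := mul_pos hR0 hw
    linarith
  have hφsph : ∀ w : ℂ, w.im = 0 → ‖φ w‖ = 1 := by
    intro w hw
    rw [hφn, hw]; simp
  have hfne : ∀ w : ℂ, ‖w‖ < 2 → 0 < w.im → f (φ w) ≠ 0 := by
    intro w hw him
    exact hf1 _ (hφball w him) ((hφdist w hw).trans_le (min_le_right _ _))
  -- the odd extension of `log |f ∘ φ|`
  set v : ℂ → ℝ := fun w => Real.log ‖f (φ w)‖ with hv
  set u : ℂ → ℝ := fun w => if 0 < w.im then v w else if w.im < 0 then -v ((starRingEnd ℂ) w)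
    else 0 with hu
  have hu_pos : ∀ w : ℂ, 0 < w.im → u w = v w := fun w hw => by simp [hu, hw]
  have hu_neg : ∀ w : ℂ, w.im < 0 → u w = -v ((starRingEnd ℂ) w) := fun w hw => by
    simp [hu, hw, not_lt.mpr hw.le]
  have hu_zero : ∀ w : ℂ, w.im = 0 → u w = 0 := fun w hw => by simp [hu, hw]
  have hodd : ∀ ζ : ℂ, u ((starRingEnd ℂ) ζ) = -u ζ := by
    intro ζ
    rcases lt_trichotomy ζ.im 0 with h | h | h
    · rw [hu_pos _ (by rw [conj_im]; linarith), hu_neg _ h, neg_neg]
    · rw [hu_zero _ h, hu_zero _ (by rw [conj_im, h]; simp)]; simp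
    · rw [hu_neg _ (by rw [conj_im]; linarith), hu_pos _ h, conj_conj]
  have hvc : ∀ w : ℂ, ‖w‖ < 2 → 0 < w.im → ContinuousAt v w := by
    intro w hw him
    have h1 : ContinuousAt f (φ w) :=
      (hf.differentiableAt (isOpen_ball.mem_nhds (hφball w him))).continuousAt
    have h2 : ContinuousAt (fun w => f (φ w)) w :=
      ContinuousAt.comp (f := φ) (g := f) h1 hφd.continuous.continuousAt
    exact h2.norm.log (norm_ne_zero_iff.mpr (hfne w hw him))
  have hv0 : ∀ x : ℂ, ‖x‖ < 2 → x.im = 0 →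
      Tendsto v (𝓝[{w | 0 < w.im}] x) (𝓝 0) := by
    intro x hx him
    have h1 := hlim (φ x) ((hφdist x hx).trans_le (min_le_left _ _)) (hφsph x him)
    have h2 : Tendsto φ (𝓝[{w | 0 < w.im}] x) (𝓝[ball 0 1] (φ x)) := by
      apply tendsto_nhdsWithin_of_tendsto_nhds_of_eventually_within
      · exact hφd.continuous.continuousAt.mono_left nhdsWithin_le_nhds
      · filter_upwards [self_mem_nhdsWithin] with w hw
        exact hφball w hw
    have h3 := (h1.comp h2).log one_ne_zero
    simpa using h3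
  have huc : ∀ w : ℂ, ‖w‖ < 2 → ContinuousAt u w := by
    intro w hw
    rcases lt_trichotomy w.im 0 with h | h | h
    · have h1 : ContinuousAt (fun w => -v ((starRingEnd ℂ) w)) w := by
        have h2 := hvc ((starRingEnd ℂ) w) (by rw [RCLike.norm_conj]; exact hw)
          (by rw [conj_im]; linarith)
        exact (ContinuousAt.comp (f := (starRingEnd ℂ)) (g := v) h2
          continuous_conj.continuousAt).neg
      apply h1.congr
      filter_upwards [(isOpen_lt continuous_im continuous_const).mem_nhds h] with ξ hξ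
      exact (hu_neg ξ hξ).symm
    · -- real point
      rw [ContinuousAt, hu_zero w h]
      have t1 : Tendsto u (𝓝[{w | 0 < w.im}] w) (𝓝 0) := by
        apply (hv0 w hw h).congr'
        filter_upwards [self_mem_nhdsWithin] with ξ hξ
        exact (hu_pos ξ hξ).symm
      have t2 : Tendsto u (𝓝[{w | w.im < 0}] w) (𝓝 0) := by
        have h3 : Tendsto (starRingEnd ℂ) (𝓝[{w | w.im < 0}] w) (𝓝[{w | 0 < w.im}] w) := by
          apply tendsto_nhdsWithin_of_tendsto_nhds_of_eventually_within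
          · have h4 : Tendsto (starRingEnd ℂ) (𝓝 w) (𝓝 ((starRingEnd ℂ) w)) :=
              continuous_conj.continuousAt
            rw [conj_eq_iff_im.mpr h] at h4
            exact h4.mono_left nhdsWithin_le_nhds
          · filter_upwards [self_mem_nhdsWithin] with ξ hξ
            have : ξ.im < 0 := hξ
            change 0 < ((starRingEnd ℂ) ξ).im
            rw [conj_im]; linarith
        have h5 := ((hv0 w hw h).comp h3).neg
        rw [neg_zero] at h5
        apply h5.congr'
        filter_upwards [self_mem_nhdsWithin] with ξ hξ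
        exact (hu_neg ξ hξ).symm
      have t3 : Tendsto u (𝓝[{w | w.im = 0}] w) (𝓝 0) := by
        apply tendsto_const_nhds.congr'
        filter_upwards [self_mem_nhdsWithin] with ξ hξ
        exact (hu_zero ξ hξ).symm
      have hall : (𝓝 w) = 𝓝[{w | 0 < w.im}] w ⊔ 𝓝[{w | w.im < 0}] w ⊔ 𝓝[{w | w.im = 0}] w := by
        rw [← nhdsWithin_union, ← nhdsWithin_union, ← nhdsWithin_univ]
        congr 1
        ext ξ
        simp only [mem_univ, mem_union, mem_ofPred_eq, true_iff]
        rcases lt_trichotomy ξ.im 0 with h | h | h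
        · exact Or.inl (Or.inr h)
        · exact Or.inr h
        · exact Or.inl (Or.inl h)
      rw [hall]
      exact (t1.sup t2).sup t3
    · apply (hvc w hw h).congr
      filter_upwards [(isOpen_lt continuous_const continuous_im).mem_nhds h] with ξ hξ
      exact (hu_pos ξ hξ).symm
  have hus : ContinuousOn u (sphere 0 1) := by
    intro ζ hζ
    have : ‖ζ‖ = 1 := by simpa using hζ
    exact (huc ζ (by rw [this]; norm_num)).continuousWithinAt
  have hui : Integrable u arc := integrable_of_continuousOn hus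
  -- the holomorphic completion
  set F : ℂ → ℂ := fun w => ∫ ζ, (ζ + w) / (ζ - w) * (u ζ : ℂ) ∂arc with hF
  have hFd : DifferentiableOn ℂ F (ball 0 1) := herglotz_differentiableOn hus
  have hFre : ∀ w : ℂ, ‖w‖ < 1 → (F w).re = ∫ ζ, pk w ζ * u ζ ∂arc := fun w hw =>
    re_herglotz_integral hui hw
  -- the upper half disc
  set U : Set ℂ := ball 0 1 ∩ {w | 0 < w.im} with hUdef
  have hUo : IsOpen U := isOpen_ball.inter (isOpen_lt continuous_const continuous_im)
  have hUconv : Convex ℝ U := (convex_ball _ _).inter (convex_halfSpace_im_gt 0)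
  have hUb : Bornology.IsBounded U := isBounded_ball.subset inter_subset_left
  set H : ℂ → ℂ := fun w => f (φ w) * exp (-F w) with hH
  have hUmem : ∀ w ∈ U, ‖w‖ < 1 ∧ 0 < w.im := fun w hw => ⟨by simpa using hw.1, hw.2⟩
  have hHd : DifferentiableOn ℂ H U := by
    apply DifferentiableOn.mul
    · apply hf.comp hφd.differentiableOn
      intro w hw
      exact hφball w (hUmem w hw).2
    · exact ((hFd.mono inter_subset_left).neg).cexp
  have hHne : ∀ w ∈ U, H w ≠ 0 := by
    intro w hw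
    obtain ⟨h1, h2⟩ := hUmem w hw
    exact mul_ne_zero (hfne w (by linarith) h2) (exp_ne_zero _)
  have hHnorm : ∀ w ∈ U, ‖H w‖ = Real.exp (u w - ∫ ζ, pk w ζ * u ζ ∂arc) := by
    intro w hw
    obtain ⟨h1, h2⟩ := hUmem w hw
    simp only [hH, norm_mul, norm_exp, neg_re]
    rw [hFre w h1, hu_pos w h2, sub_eq_add_neg, Real.exp_add]
    simp only [hv]
    rw [Real.exp_log (norm_pos_iff.mpr (hfne w (by linarith) h2))]
  have hHlim : ∀ w ∈ frontier U, Tendsto (fun z => ‖H z‖) (𝓝[U] w) (𝓝 1) := by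
    intro w hw
    have hwcl : w ∈ closure U := frontier_subset_closure hw
    have hwnot : w ∉ U := by
      rw [frontier, hUo.interior_eq] at hw
      exact hw.2
    have hwle : ‖w‖ ≤ 1 := by
      have : w ∈ closure (ball (0 : ℂ) 1) := closure_mono inter_subset_left hwcl
      rw [closure_ball (0 : ℂ) one_ne_zero] at this
      simpa using this
    have hwim : 0 ≤ w.im := by
      have : w ∈ closure {w : ℂ | 0 < w.im} := closure_mono inter_subset_right hwcl
      have h2 : closure {w : ℂ | 0 < w.im} ⊆ {w : ℂ | 0 ≤ w.im} :=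
        closure_minimal (fun x (hx : 0 < x.im) => hx.le) (isClosed_le continuous_const continuous_im)
      exact h2 this
    have tu : Tendsto u (𝓝[U] w) (𝓝 (u w)) :=
      (huc w (by linarith)).mono_left nhdsWithin_le_nhds
    have tp : Tendsto (fun z => ∫ ζ, pk z ζ * u ζ ∂arc) (𝓝[U] w) (𝓝 (u w)) := by
      rcases lt_or_eq_of_le hwle with hlt | heq
      · -- real point in the open disc
        have him : w.im = 0 := by
          by_contra hne
          exact hwnot ⟨by simpa using hlt, lt_of_le_of_ne hwim (Ne.symm hne)⟩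
        have hc : ContinuousAt F w :=
          (hFd.differentiableAt (isOpen_ball.mem_nhds (by simpa using hlt))).continuousAt
        have h3 : Tendsto (fun z => (F z).re) (𝓝[U] w) (𝓝 (F w).re) :=
          (continuous_re.continuousAt.tendsto.comp hc.tendsto).mono_left nhdsWithin_le_nhds
        rw [hFre w hlt, poisson_odd hus hodd hlt him] at h3
        rw [hu_zero w him]
        apply h3.congr'
        filter_upwards [self_mem_nhdsWithin] with z hz
        exact hFre z (hUmem z hz).1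
      · exact (poisson_tendsto hui heq (hus w (by simpa using heq))).mono_left
          (nhdsWithin_mono _ inter_subset_left)
    have t := (tu.sub tp).rexp
    rw [sub_self, Real.exp_zero] at t
    apply t.congr'
    filter_upwards [self_mem_nhdsWithin] with z hz
    exact (hHnorm z hz).symm
  have hw₀ : (I / 2 : ℂ) ∈ U := by
    refine ⟨?_, ?_⟩
    · simp; norm_num
    · simp
  have hconst := const_of_boundary hUo hUb hUconv.isPreconnected hHd hHne hHlim hw₀
  set c := H (I / 2) with hc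
  -- the extension
  set ψ : ℂ → ℂ := fun z => -I / R * Complex.log (z / ζ₀) with hψ
  have hRc : (R : ℂ) ≠ 0 := by exact_mod_cast hR0.ne'
  have hψan : AnalyticAt ℂ ψ ζ₀ := by
    apply AnalyticAt.mul analyticAt_const
    apply AnalyticAt.clog
    · exact analyticAt_id.div_const
    · simp [hζ₀ne, slitPlane]
  have hψ0 : ψ ζ₀ = 0 := by simp [hψ, hζ₀ne]
  refine ⟨fun z => c * exp (F (ψ z)), ?_, ?_⟩
  · apply AnalyticAt.mul analyticAt_const
    apply AnalyticAt.cexp
    have hFan : AnalyticAt ℂ F (ψ ζ₀) := by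
      rw [hψ0]
      exact hFd.analyticAt (isOpen_ball.mem_nhds (by simp))
    exact hFan.comp hψan
  · have hψc : Tendsto ψ (𝓝 ζ₀) (𝓝 0) := by
      have := hψan.continuousAt.tendsto
      rwa [hψ0] at this
    have e1 : ∀ᶠ z in 𝓝[ball 0 1] ζ₀, ‖ψ z‖ < 1 := by
      apply nhdsWithin_le_nhds
      have := hψc.norm
      rw [norm_zero] at this
      exact this.eventually_lt_const one_pos
    have e2 : ∀ᶠ z in 𝓝[ball 0 1] ζ₀, z ≠ 0 :=
      nhdsWithin_le_nhds (isOpen_ne.mem_nhds hζ₀ne)
    filter_upwards [e1, e2, self_mem_nhdsWithin] with z hz1 hz2 hz3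
    have hz3' : ‖z‖ < 1 := by simpa using hz3
    have him : (ψ z).im = -(1 / R) * Real.log ‖z‖ := by
      have e3 : ψ z = ((1 / R : ℝ) : ℂ) * (-I * Complex.log (z / ζ₀)) := by
        simp only [hψ]; push_cast; field_simp
      have e4 : (-I * Complex.log (z / ζ₀)).im = -(Complex.log (z / ζ₀)).re := by simp
      rw [e3, im_ofReal_mul, e4, log_re, norm_div, h₀, div_one]
      ring
    have himpos : 0 < (ψ z).im := by
      rw [him]
      have := Real.log_neg (norm_pos_iff.mpr hz2) hz3'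
      have h5 : 0 < 1 / R := by positivity
      nlinarith
    have hU' : ψ z ∈ U := ⟨by simpa using hz1, himpos⟩
    have h6 := hconst (ψ z) hU'
    have h7 : φ (ψ z) = z := by
      simp only [hφ, hψ]
      have e5 : I * R * (-I / R * Complex.log (z / ζ₀)) = Complex.log (z / ζ₀) := by
        field_simp
        linear_combination (-Complex.log (z / ζ₀)) * I_sq
      rw [e5, exp_log (div_ne_zero hz2 hζ₀ne)]
      field_simp
    have h8 : H (ψ z) = f z * exp (-F (ψ z)) := by simp only [hH, h7]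
    rw [← h6, h8, mul_assoc, ← exp_add]
    simp

end Pool.Agent.Lib.MP_e685ae_an
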