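import Pool.Agent.Lib.MP_e685ae_an.Herglotz
import Pool.Agent.Lib.MP_e685ae_an.Blaschke
import Pool.Agent.Lib.MP_e685ae_an.Reflection
import Pool.Agent.Lib.MP_e685ae_an.Growth

/-!
# The boundary spectra of `θ` and of the inner factor of `θ'` coincide
-/

set_option linter.unusedSectionVars false

namespace Pool.Agent.Lib.MP_e685ae_an

open Complex MeasureTheory Metric Filter Topology Set

/-- Inner functions are bounded by one. -/
lemma inner_norm_le {θ : ℂ → ℂ} (hθ : IsInner θ) {z : ℂ} (hz : ‖z‖ < 1) : ‖θ z‖ ≤ 1 := by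
  obtain ⟨C, hC⟩ := hθ.bdd
  obtain ⟨L, hL⟩ := Eventually.choice hθ.radial
  have hrep := poisson_repr hθ.holo hC (g := L) (by filter_upwards [hL] with ζ hζ; exact hζ.2) hz
  rw [hrep]
  calc ‖∫ ζ, (pk z ζ : ℂ) * L ζ ∂arc‖ ≤ ∫ ζ, pk z ζ ∂arc := by
        apply norm_integral_le_of_norm_le (integrable_pk hz)
        filter_upwards [hL] with ζ hζ
        rw [norm_mul, hζ.1, mul_one, norm_real, Real.norm_of_nonneg (pk_nonneg hz ζ)]
    _ = 1 := integral_pk hz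

/-- Nonconstant inner functions map the disc into itself. -/
lemma inner_norm_lt {θ : ℂ → ℂ} (hθ : IsInner θ)
    (hnc : ∃ z ∈ ball (0 : ℂ) 1, ∃ w ∈ ball (0 : ℂ) 1, θ z ≠ θ w) {z : ℂ} (hz : ‖z‖ < 1) :
    ‖θ z‖ < 1 := by
  apply lt_of_le_of_ne (inner_norm_le hθ hz)
  intro heq
  obtain ⟨a, ha, b, hb, hab⟩ := hnc
  have hmax : IsMaxOn (norm ∘ θ) (ball 0 1) z := by
    intro w hw
    simp only [Function.comp, mem_ofPred_eq]
    rw [heq]
    exact inner_norm_le hθ (by simpa using hw)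
  have hconst := eqOn_of_isPreconnected_of_isMaxOn_norm
    (convex_ball (0 : ℂ) 1).isPreconnected isOpen_ball hθ.holo (by simpa using hz) hmax
  exact hab ((hconst ha).trans (hconst hb).symm)

/-- The derivative of a nonconstant function does not vanish identically on any open subset. -/
lemma deriv_not_zero {θ : ℂ → ℂ} (hθ : DifferentiableOn ℂ θ (ball 0 1))
    (hnc : ∃ z ∈ ball (0 : ℂ) 1, ∃ w ∈ ball (0 : ℂ) 1, θ z ≠ θ w) {z₀ : ℂ}
    (hz₀ : z₀ ∈ ball (0 : ℂ) 1) (h : ∃ᶠ z in 𝓝[≠] z₀, deriv θ z = 0) : False := by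
  have hd : AnalyticOnNhd ℂ (deriv θ) (ball 0 1) := (hθ.analyticOnNhd isOpen_ball).deriv
  have h0 : EqOn (deriv θ) 0 (ball 0 1) :=
    hd.eqOn_zero_of_preconnected_of_frequently_eq_zero
      (convex_ball (0 : ℂ) 1).isPreconnected hz₀ h
  obtain ⟨a, ha, b, hb, hab⟩ := hnc
  apply hab
  have hconv : Convex ℝ (ball (0 : ℂ) 1) := convex_ball _ _
  have := hconv.norm_image_sub_le_of_norm_deriv_le (f := θ) (C := 0) (x := b) (y := a)
    (fun x hx => hθ.differentiableAt (isOpen_ball.mem_nhds hx))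
    (fun x hx => by rw [h0 hx]; simp) hb ha
  rw [zero_mul] at this
  exact sub_eq_zero.mp (norm_le_zero_iff.mp this)

section Factorization

variable {f B : ℂ → ℂ} {μ ν : Measure ℂ} (hf : DifferentiableOn ℂ f (ball 0 1))
  (hf0 : ∀ z₀ ∈ ball (0 : ℂ) 1, ¬ ∃ᶠ z in 𝓝[≠] z₀, f z = 0)
  (hcf : IsCanonicalFactorization f B μ ν)
include hf hf0 hcf

lemma order_ne_zero (a : {a : ℂ // ‖a‖ < 1 ∧ f a = 0}) : analyticOrderNatAt f a ≠ 0 := by
  have hmem : (a : ℂ) ∈ ball (0 : ℂ) 1 := by simpa using a.2.1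
  have han : AnalyticAt ℂ f a := hf.analyticAt (isOpen_ball.mem_nhds hmem)
  have h1 : analyticOrderAt f a ≠ 0 := han.analyticOrderAt_ne_zero.mpr a.2.2
  have h2 : analyticOrderAt f a ≠ ⊤ := by
    intro htop
    rw [analyticOrderAt_eq_top] at htop
    exact hf0 a hmem (htop.filter_mono nhdsWithin_le_nhds).frequently
  intro h3
  rw [analyticOrderNatAt, ENat.toNat_eq_zero] at h3
  rcases h3 with h3 | h3
  · exact h1 h3
  · exact h2 h3

lemma countable_zeros : Countable {a : ℂ // ‖a‖ < 1 ∧ f a = 0} := by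
  have h := hcf.blaschke.summable.countable_support
  have huniv : Function.support (fun a : {a : ℂ // ‖a‖ < 1 ∧ f a = 0} =>
      (analyticOrderNatAt f a : ℝ) * (1 - ‖(a : ℂ)‖)) = univ := by
    rw [eq_univ_iff_forall]
    intro a
    rw [Function.mem_support]
    have h1 := order_ne_zero hf hf0 hcf a
    have h2 : (0 : ℝ) < analyticOrderNatAt f a := by
      exact_mod_cast Nat.pos_of_ne_zero h1
    have h3 : 0 < 1 - ‖(a : ℂ)‖ := by linarith [a.2.1]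
    positivity
  rw [huniv] at h
  exact countable_univ_iff.mp h

lemma norm_B_le {z : ℂ} (hz : z ∈ ball (0 : ℂ) 1) : ‖B z‖ ≤ 1 := by
  have h := (hcf.blaschke.hasProd z hz).norm
  apply le_of_tendsto' h
  intro s
  apply Finset.prod_le_one
  · intro i _; exact norm_nonneg _
  · intro i _
    rw [norm_pow]
    exact pow_le_one₀ (norm_nonneg _) (norm_blaschkeFactor_le i.2.1 (by simpa using hz))

lemma B_mean : Tendsto (fun r : ℝ => ∫⁻ ζ, ENNReal.ofReal (-Real.log ‖B (r * ζ)‖) ∂arc)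
    (𝓝[<] 1) (𝓝 0) := by
  have := countable_zeros hf hf0 hcf
  exact blaschke_mean_tendsto (a := fun i : {a : ℂ // ‖a‖ < 1 ∧ f a = 0} => (i : ℂ))
    (m := fun i => analyticOrderNatAt f i) (fun i => i.2.1) hcf.blaschke.summable
    hcf.blaschke.hasProd

end Factorization

lemma singularInner_ne_zero (μ : Measure ℂ) (z : ℂ) : singularInner μ z ≠ 0 := exp_ne_zero _

lemma outerFn_ne_zero (g : ℂ → ℂ) (z : ℂ) : outerFn g z ≠ 0 := exp_ne_zero _

section Factorization2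

variable {f B : ℂ → ℂ} {μ ν : Measure ℂ} [IsFiniteMeasure μ] [IsFiniteMeasure ν]
  (hμ : μ (sphere 0 1)ᶜ = 0) (hν : ν (sphere 0 1)ᶜ = 0)
  {c : ℂ} (hc : ‖c‖ = 1) {g : ℂ → ℂ} (hg : Integrable (fun ζ => Real.log ‖g ζ‖) arc)
  (hfac : ∀ z ∈ ball (0 : ℂ) 1,
    f z = c * B z * (singularInner μ z / singularInner ν z) * outerFn g z)

include hc hfac

lemma B_zero {z : ℂ} (hz : z ∈ ball (0 : ℂ) 1) : B z = 0 ↔ f z = 0 := by
  have hc0 : c ≠ 0 := by intro h; rw [h] at hc; simp at hc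
  rw [hfac z hz]
  constructor
  · intro h; simp [h]
  · intro h
    have h1 := singularInner_ne_zero μ z
    have h2 := singularInner_ne_zero ν z
    have h3 := outerFn_ne_zero g z
    simpa [hc0, h1, h2, h3] using h

include hμ hν hg

lemma B_differentiableOn (hf : DifferentiableOn ℂ f (ball 0 1)) :
    DifferentiableOn ℂ B (ball 0 1) := by
  have hc0 : c ≠ 0 := by intro h; rw [h] at hc; simp at hc
  have h1 : DifferentiableOn ℂ (fun z => f z * singularInner ν z /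
      (c * singularInner μ z * outerFn g z)) (ball 0 1) := by
    apply (hf.mul (singularInner_differentiableOn hν)).div
    · exact ((singularInner_differentiableOn hμ).const_mul c).mul (outerFn_differentiableOn hg)
    · intro z _
      exact mul_ne_zero (mul_ne_zero hc0 (singularInner_ne_zero μ z)) (outerFn_ne_zero g z)
  apply h1.congr
  intro z hz
  rw [hfac z hz]
  have h2 := singularInner_ne_zero μ z
  have h3 := singularInner_ne_zero ν z
  have h4 := outerFn_ne_zero g z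
  field_simp

lemma log_norm_f {z : ℂ} (hz : z ∈ ball (0 : ℂ) 1) (hf : f z ≠ 0) :
    Real.log ‖f z‖ = Real.log ‖B z‖ - pint μ z + pint ν z + Real.log ‖outerFn g z‖ := by
  have hz1 : ‖z‖ < 1 := by simpa using hz
  have hB : B z ≠ 0 := fun h => hf ((B_zero hc hfac hz).mp h)
  have h3 := outerFn_ne_zero g z
  rw [hfac z hz, norm_mul, norm_mul, norm_mul, norm_div, hc, one_mul,
    norm_singularInner hμ hz1, norm_singularInner hν hz1,
    Real.log_mul (by positivity) (by positivity), Real.log_mul (by positivity) (by positivity),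
    Real.log_div (by positivity) (by positivity), Real.log_exp, Real.log_exp]
  ring

lemma norm_f_ge {z : ℂ} (hz : z ∈ ball (0 : ℂ) 1) :
    ‖B z‖ * Real.exp (-pint μ z) * ‖outerFn g z‖ ≤ ‖f z‖ := by
  have hz1 : ‖z‖ < 1 := by simpa using hz
  rw [hfac z hz, norm_mul, norm_mul, norm_mul, norm_div, hc, one_mul,
    norm_singularInner hμ hz1, norm_singularInner hν hz1]
  have h1 : Real.exp (-pint ν z) ≤ 1 := by
    rw [Real.exp_le_one_iff, neg_nonpos]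
    exact pint_nonneg hz1
  have h2 : Real.exp (-pint μ z) ≤ Real.exp (-pint μ z) / Real.exp (-pint ν z) := by
    rw [le_div_iff₀ (Real.exp_pos _)]
    nlinarith [Real.exp_pos (-pint μ z)]
  gcongr

end Factorization2

/-- First inclusion: if the inner factor of `θ'` continues analytically at `ζ₀` then so does
`θ`. -/
theorem theta_extends {θ I : ℂ → ℂ} (hθ : IsInner θ)
    (hnc : ∃ z ∈ ball (0 : ℂ) 1, ∃ w ∈ ball (0 : ℂ) 1, θ z ≠ θ w)
    (hI : IsInnerFactorOf I (deriv θ)) {ζ₀ : ℂ} (h₀ : ‖ζ₀‖ = 1)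
    (hext : ∃ g : ℂ → ℂ, AnalyticAt ℂ g ζ₀ ∧ ∀ᶠ z in 𝓝[ball 0 1] ζ₀, g z = I z) :
    ∃ g : ℂ → ℂ, AnalyticAt ℂ g ζ₀ ∧ ∀ᶠ z in 𝓝[ball 0 1] ζ₀, g z = θ z := by
  obtain ⟨B, μ, ν, hcf, c', hc', hIz⟩ := hI
  obtain ⟨c, g, hc, hgr, hgi, hfac⟩ := hcf.factor
  have := hcf.finite_μ
  have := hcf.finite_ν
  have hmap : ∀ z : ℂ, ‖z‖ < 1 → ‖θ z‖ < 1 := fun z hz => inner_norm_lt hθ hnc hz
  have hfd : DifferentiableOn ℂ (deriv θ) (ball 0 1) := hθ.holo.deriv isOpen_ball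
  have hf0 : ∀ z₀ ∈ ball (0 : ℂ) 1, ¬ ∃ᶠ z in 𝓝[≠] z₀, deriv θ z = 0 :=
    fun z₀ hz₀ h => deriv_not_zero hθ.holo hnc hz₀ h
  have hBd : DifferentiableOn ℂ B (ball 0 1) :=
    B_differentiableOn hcf.circle_μ hcf.circle_ν hc hgi hfac hfd
  have hBle : ∀ z ∈ ball (0 : ℂ) 1, ‖B z‖ ≤ 1 := fun z hz => norm_B_le hfd hf0 hcf hz
  have hBmean := B_mean hfd hf0 hcf
  have hInorm : ∀ z ∈ ball (0 : ℂ) 1, ‖I z‖ = ‖B z‖ * Real.exp (-pint μ z) := by
    intro z hz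
    rw [hIz z hz, norm_mul, norm_mul, hc', one_mul,
      norm_singularInner hcf.circle_μ (by simpa using hz)]
  have hIle : ∀ z ∈ ball (0 : ℂ) 1, ‖I z‖ ≤ 1 := by
    intro z hz
    rw [hInorm z hz]
    have h1 : Real.exp (-pint μ z) ≤ 1 := by
      rw [Real.exp_le_one_iff, neg_nonpos]
      exact pint_nonneg (by simpa using hz)
    have h2 := hBle z hz
    have h3 := Real.exp_pos (-pint μ z)
    nlinarith [norm_nonneg (B z)]
  have hIne : ∀ z ∈ ball (0 : ℂ) 1, I z = 0 → deriv θ z = 0 := by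
    intro z hz h
    apply (B_zero hc hfac hz).mp
    have := hInorm z hz
    rw [h, norm_zero] at this
    have h3 := Real.exp_pos (-pint μ z)
    have h4 : ‖B z‖ = 0 := by
      rcases mul_eq_zero.mp this.symm with h5 | h5
      · exact h5
      · exact absurd h5 h3.ne'
    exact norm_eq_zero.mp h4
  obtain ⟨G, hGan, hGeq⟩ := hext
  -- points of the disc near boundary points
  have hnb : ∀ ζ : ℂ, ‖ζ‖ = 1 → (𝓝[ball (0 : ℂ) 1] ζ).NeBot := by
    intro ζ hζ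
    rw [← mem_closure_iff_nhdsWithin_neBot, closure_ball (0 : ℂ) one_ne_zero]
    simp [hζ]
  -- `G` does not vanish identically near `ζ₀`
  have hGne : ∀ᶠ z in 𝓝[≠] ζ₀, G z ≠ 0 := by
    rcases hGan.eventually_eq_zero_or_eventually_ne_zero with h | h
    · exfalso
      have h1 : ∀ᶠ z in 𝓝 ζ₀, ∀ᶠ y in 𝓝 z, G y = 0 := eventually_eventually_nhds.mpr h
      have h2 : ∀ᶠ z in 𝓝 ζ₀, ∀ᶠ y in 𝓝 z, y ∈ ball (0 : ℂ) 1 → G y = I y :=
        eventually_eventually_nhds.mpr (eventually_nhdsWithin_iff.mp hGeq)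
      have := hnb ζ₀ h₀
      have h12 : ∀ᶠ z in 𝓝[ball (0 : ℂ) 1] ζ₀, (∀ᶠ y in 𝓝 z, G y = 0) ∧
          (∀ᶠ y in 𝓝 z, y ∈ ball (0 : ℂ) 1 → G y = I y) :=
        (h1.and h2).filter_mono nhdsWithin_le_nhds
      have h13 : ∀ᶠ z in 𝓝[ball (0 : ℂ) 1] ζ₀, z ∈ ball (0 : ℂ) 1 := self_mem_nhdsWithin
      obtain ⟨z, ⟨hz1, hz2⟩, hz3⟩ := (h12.and h13).exists
      apply hf0 z hz3
      apply Eventually.frequently
      apply Eventually.filter_mono nhdsWithin_le_nhds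
      filter_upwards [hz1, hz2, isOpen_ball.mem_nhds hz3] with y h3 h4 h5
      apply hIne y h5
      rw [← h4 h5, h3]
    · exact h
  -- a good radius
  obtain ⟨ρ₀, hρ₀, hball⟩ : ∃ ρ₀ > 0, ∀ z ∈ ball ζ₀ ρ₀, ContinuousAt G z ∧
      (z ≠ ζ₀ → G z ≠ 0) ∧ (z ∈ ball (0 : ℂ) 1 → G z = I z) := by
    have h1 : ∀ᶠ z in 𝓝 ζ₀, ContinuousAt G z :=
      hGan.eventually_analyticAt.mono fun z hz => hz.continuousAt
    have h2 : ∀ᶠ z in 𝓝 ζ₀, z ≠ ζ₀ → G z ≠ 0 := eventually_nhdsWithin_iff.mp hGne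
    have h3 := eventually_nhdsWithin_iff.mp hGeq
    obtain ⟨ρ₀, hρ₀, h4⟩ := Metric.eventually_nhds_iff.mp (h1.and (h2.and h3))
    exact ⟨ρ₀, hρ₀, fun z hz => h4 (by simpa using hz)⟩
  -- `|G| ≤ 1` on the arc
  have hGle : ∀ ζ ∈ ball ζ₀ ρ₀, ‖ζ‖ = 1 → ‖G ζ‖ ≤ 1 := by
    intro ζ hζ hζ1
    have := hnb ζ hζ1
    have hlim : Tendsto (fun z => ‖G z‖) (𝓝[ball 0 1] ζ) (𝓝 ‖G ζ‖) :=
      ((hball ζ hζ).1.norm.tendsto).mono_left nhdsWithin_le_nhds
    apply le_of_tendsto hlim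
    filter_upwards [nhdsWithin_le_nhds (isOpen_ball.mem_nhds hζ), self_mem_nhdsWithin]
      with z hz1 hz2
    rw [(hball z hz1).2.2 hz2]
    exact hIle z hz2
  -- `|G| = 1` on the punctured arc
  have hG1 : ∀ ζ ∈ ball ζ₀ ρ₀, ‖ζ‖ = 1 → ζ ≠ ζ₀ → ‖G ζ‖ = 1 := by
    intro ζ hζ hζ1 hne
    have hopen : IsOpen (ball ζ₀ ρ₀ ∩ {ζ₀}ᶜ) := isOpen_ball.inter isOpen_compl_singleton
    obtain ⟨ρ, hρ, hsub⟩ := Metric.isOpen_iff.mp hopen ζ ⟨hζ, hne⟩
    have hGz : ∀ z ∈ ball ζ ρ, G z ≠ 0 := fun z hz =>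
      (hball z (hsub hz).1).2.1 (hsub hz).2
    have hkey := key_measures (μ := μ) (ν := 0) hcf.circle_μ (by simp) hcf.singular_μ
      Measure.MutuallySingular.zero_right hBd.continuousOn hBle hBmean hζ1 hρ
      (w := fun z => -Real.log ‖G z‖) (by
        intro z hz
        apply ContinuousAt.continuousWithinAt
        exact ((hball z (hsub hz).1).1.norm.log (norm_ne_zero_iff.mpr (hGz z hz))).neg) (by
        intro z hz hz1
        rw [neg_nonneg]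
        exact Real.log_nonpos (norm_nonneg _) (hGle z (hsub hz).1 hz1)) (by
        intro ξ hξ hξ1
        have hlim : Tendsto (fun z => -Real.log ‖G z‖) (𝓝[ball 0 1] ξ) (𝓝 (-Real.log ‖G ξ‖)) :=
          (((hball ξ (hsub hξ).1).1.norm.log (norm_ne_zero_iff.mpr (hGz ξ hξ))).neg.tendsto).mono_left
            nhdsWithin_le_nhds
        apply hlim.congr'
        filter_upwards [nhdsWithin_le_nhds (isOpen_ball.mem_nhds hξ), self_mem_nhdsWithin]
          with z hz1 hz2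
        have hBz : B z ≠ 0 := by
          intro h
          apply hGz z hz1
          rw [(hball z (hsub hz1).1).2.2 hz2, hIz z hz2, h]; ring
        have hp0 : pint 0 z = 0 := by simp [pint]
        rw [(hball z (hsub hz1).1).2.2 hz2, hInorm z hz2,
          Real.log_mul (norm_ne_zero_iff.mpr hBz) (Real.exp_pos _).ne', Real.log_exp, hp0]
        ring)
    have h5 : -Real.log ‖G ζ‖ = 0 := hkey.2.2
    have h6 : Real.log ‖G ζ‖ = 0 := by linarith
    have h7 : 0 < ‖G ζ‖ := norm_pos_iff.mpr (hGz ζ (mem_ball_self hρ))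
    exact Real.eq_one_of_pos_of_log_eq_zero h7 h6
  -- `|G ζ₀| = 1`
  have hG0 : ‖G ζ₀‖ = 1 := by
    -- points `ζ₀ exp(i t)`, `t → 0`
    have hseq : Tendsto (fun t : ℝ => ζ₀ * exp (t * Complex.I)) (𝓝[≠] 0) (𝓝 ζ₀) := by
      have h1 : Continuous (fun t : ℝ => ζ₀ * exp (t * Complex.I)) := by fun_prop
      have h2 := h1.tendsto 0
      simp only [ofReal_zero, zero_mul, exp_zero, mul_one] at h2
      exact h2.mono_left nhdsWithin_le_nhds
    have hGlim : Tendsto (fun t : ℝ => ‖G (ζ₀ * exp (t * Complex.I))‖) (𝓝[≠] 0) (𝓝 ‖G ζ₀‖) :=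
      (hGan.continuousAt.norm.tendsto).comp hseq
    have hone : Tendsto (fun t : ℝ => ‖G (ζ₀ * exp (t * Complex.I))‖) (𝓝[≠] 0) (𝓝 1) := by
      apply tendsto_const_nhds.congr'
      have hζ0ne : ζ₀ ≠ 0 := by intro h; rw [h] at h₀; simp at h₀
      have e1 : ∀ᶠ t : ℝ in 𝓝[≠] 0, ζ₀ * exp (t * Complex.I) ∈ ball ζ₀ ρ₀ :=
        hseq.eventually (ball_mem_nhds ζ₀ hρ₀)
      have e2 : ∀ᶠ t : ℝ in 𝓝[≠] 0, t ∈ Ioo (-1 : ℝ) 1 :=
        nhdsWithin_le_nhds (Ioo_mem_nhds (by norm_num) (by norm_num))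
      filter_upwards [e1, e2, self_mem_nhdsWithin] with t ht1 ht2 ht3
      symm
      apply hG1 _ ht1
      · rw [norm_mul, h₀, norm_exp_ofReal_mul_I, mul_one]
      · intro h
        have h2 : exp (t * Complex.I) = 1 := by
          have : ζ₀ * exp (t * Complex.I) = ζ₀ * 1 := by rw [h, mul_one]
          exact mul_left_cancel₀ hζ0ne this
        have h3 := congrArg Complex.im h2
        rw [exp_ofReal_mul_I_im, one_im] at h3
        have hpi := Real.pi_gt_three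
        have : t = 0 := by
          rcases lt_trichotomy t 0 with h4 | h4 | h4
          · have := Real.sin_neg_of_neg_of_neg_pi_lt h4 (by linarith [ht2.1])
            linarith
          · exact h4
          · have := Real.sin_pos_of_pos_of_lt_pi h4 (by linarith [ht2.2])
            linarith
        exact ht3 this
    exact tendsto_nhds_unique hGlim hone
  -- `|I|` is close to one near `ζ₀`
  obtain ⟨ρ₂, hρ₂, hI99⟩ : ∃ ρ₂ > 0, ∀ z ∈ ball (0 : ℂ) 1, dist z ζ₀ < ρ₂ → 99 / 100 ≤ ‖I z‖ := by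
    have h1 : ∀ᶠ z in 𝓝 ζ₀, 99 / 100 < ‖G z‖ := by
      have := hGan.continuousAt.norm.tendsto
      rw [hG0] at this
      exact this.eventually_const_lt (by norm_num)
    obtain ⟨ρ₂, hρ₂, h2⟩ := Metric.eventually_nhds_iff.mp
      (h1.and (Metric.ball_mem_nhds ζ₀ hρ₀))
    refine ⟨ρ₂, hρ₂, fun z hz hd => ?_⟩
    obtain ⟨h3, h4⟩ := h2 hd
    rw [← (hball z h4).2.2 hz]
    exact h3.le
  -- near isometry
  have hτ : ∀ z : ℂ, ‖z‖ < 1 → dist z ζ₀ < ρ₂ →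
      99 / 100 * (1 - ‖θ z‖ ^ 2) ≤ (1 - ‖z‖ ^ 2) * ‖deriv θ z‖ := by
    intro z hz hd
    have hzb : z ∈ ball (0 : ℂ) 1 := by simpa using hz
    have h1 := norm_f_ge hcf.circle_μ hcf.circle_ν hc hgi hfac hzb
    have h2 := reverse_schwarz_pick hθ.holo hmap hθ.radial hgr hgi hz
    rw [← hInorm z hzb] at h1
    have h3 := hI99 z hzb hd
    have pz : 0 < 1 - ‖z‖ ^ 2 := by nlinarith [norm_nonneg z]
    have pθ : 0 < 1 - ‖θ z‖ ^ 2 := by nlinarith [norm_nonneg (θ z), hmap z hz]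
    rw [div_le_iff₀ pz] at h2
    calc 99 / 100 * (1 - ‖θ z‖ ^ 2) ≤ ‖I z‖ * (‖outerFn g z‖ * (1 - ‖z‖ ^ 2)) := by gcongr
      _ = (1 - ‖z‖ ^ 2) * (‖I z‖ * ‖outerFn g z‖) := by ring
      _ ≤ (1 - ‖z‖ ^ 2) * ‖deriv θ z‖ := by gcongr
  -- conclusion by reflection
  apply reflection hθ.holo h₀ hρ₂
  intro ζ hζ hζ1
  obtain ⟨δ, hδ, hsub⟩ := Metric.isOpen_iff.mp isOpen_ball ζ hζ
  apply norm_tendsto_one_of_near_isometry hθ.holo hmap hδ _ hζ1
  intro z hz hd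
  apply hτ z hz
  have : z ∈ ball ζ δ := by simpa using hd
  simpa using hsub this

/-- Inner functions that continue analytically are unimodular on the arc. -/
lemma unimodular_of_extends {θ G : ℂ → ℂ} (hθ : IsInner θ) {ζ₀ : ℂ} {ρ₀ : ℝ}
    (hball : ∀ z ∈ ball ζ₀ ρ₀, ContinuousAt G z ∧ (z ∈ ball (0 : ℂ) 1 → G z = θ z))
    {ζ : ℂ} (hζ : ζ ∈ ball ζ₀ ρ₀) (hζ1 : ‖ζ‖ = 1) : ‖G ζ‖ = 1 := by
  by_contra hne
  have hopen : IsOpen {z | z ∈ ball ζ₀ ρ₀ ∧ ‖G z‖ ≠ 1} := by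
    rw [isOpen_iff_mem_nhds]
    rintro z ⟨hz1, hz2⟩
    filter_upwards [isOpen_ball.mem_nhds hz1, (hball z hz1).1.norm.eventually_ne hz2] with y h1 h2
    exact ⟨h1, h2⟩
  apply arc_pos hζ1 hopen ⟨hζ, hne⟩
  rw [measure_eq_zero_iff_ae_notMem]
  filter_upwards [hθ.radial, ae_arc_norm] with ξ h1 h2 h3
  obtain ⟨L, hL, hlim⟩ := h1
  apply h3.2
  have h4 : Tendsto (fun r : ℝ => G (r * ξ)) (𝓝[<] 1) (𝓝 (G ξ)) :=
    ((hball ξ h3.1).1.tendsto.mono_left nhdsWithin_le_nhds).comp (tendsto_rmul h2)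
  have h5 : Tendsto (fun r : ℝ => G (r * ξ)) (𝓝[<] 1) (𝓝 L) := by
    apply hlim.congr'
    have e1 : ∀ᶠ z in 𝓝[ball (0 : ℂ) 1] ξ, G z = θ z := by
      filter_upwards [nhdsWithin_le_nhds (isOpen_ball.mem_nhds h3.1), self_mem_nhdsWithin]
        with z hz1 hz2
      exact (hball z hz1).2 hz2
    filter_upwards [(tendsto_rmul h2).eventually e1] with r hr
    exact hr.symm
  rw [tendsto_nhds_unique h4 h5, hL]

/-- Second (known) inclusion: if `θ` continues analytically at `ζ₀` then so does the inner factor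
of `θ'`. -/
theorem inner_factor_extends {θ I : ℂ → ℂ} (hθ : IsInner θ)
    (hnc : ∃ z ∈ ball (0 : ℂ) 1, ∃ w ∈ ball (0 : ℂ) 1, θ z ≠ θ w)
    (hI : IsInnerFactorOf I (deriv θ)) {ζ₀ : ℂ} (h₀ : ‖ζ₀‖ = 1)
    (hext : ∃ g : ℂ → ℂ, AnalyticAt ℂ g ζ₀ ∧ ∀ᶠ z in 𝓝[ball 0 1] ζ₀, g z = θ z) :
    ∃ g : ℂ → ℂ, AnalyticAt ℂ g ζ₀ ∧ ∀ᶠ z in 𝓝[ball 0 1] ζ₀, g z = I z := by
  obtain ⟨B, μ, ν, hcf, c', hc', hIz⟩ := hI
  obtain ⟨c, g, hc, hgr, hgi, hfac⟩ := hcf.factor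
  have := hcf.finite_μ
  have := hcf.finite_ν
  have hmap : ∀ z : ℂ, ‖z‖ < 1 → ‖θ z‖ < 1 := fun z hz => inner_norm_lt hθ hnc hz
  have hfd : DifferentiableOn ℂ (deriv θ) (ball 0 1) := hθ.holo.deriv isOpen_ball
  have hf0 : ∀ z₀ ∈ ball (0 : ℂ) 1, ¬ ∃ᶠ z in 𝓝[≠] z₀, deriv θ z = 0 :=
    fun z₀ hz₀ h => deriv_not_zero hθ.holo hnc hz₀ h
  have hBd : DifferentiableOn ℂ B (ball 0 1) :=
    B_differentiableOn hcf.circle_μ hcf.circle_ν hc hgi hfac hfd
  have hBle : ∀ z ∈ ball (0 : ℂ) 1, ‖B z‖ ≤ 1 := fun z hz => norm_B_le hfd hf0 hcf hz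
  have hBmean := B_mean hfd hf0 hcf
  have hInorm : ∀ z ∈ ball (0 : ℂ) 1, ‖I z‖ = ‖B z‖ * Real.exp (-pint μ z) := by
    intro z hz
    rw [hIz z hz, norm_mul, norm_mul, hc', one_mul,
      norm_singularInner hcf.circle_μ (by simpa using hz)]
  have hId : DifferentiableOn ℂ I (ball 0 1) :=
    ((hBd.const_mul c').mul (singularInner_differentiableOn hcf.circle_μ)).congr hIz
  obtain ⟨G, hGan, hGeq⟩ := hext
  -- first radius
  obtain ⟨ρ₁, hρ₁, hball1⟩ : ∃ ρ₁ > 0, ∀ z ∈ ball ζ₀ ρ₁, AnalyticAt ℂ G z ∧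
      (z ∈ ball (0 : ℂ) 1 → G z = θ z) := by
    have h1 := hGan.eventually_analyticAt
    have h3 := eventually_nhdsWithin_iff.mp hGeq
    obtain ⟨ρ₀, hρ₀, h4⟩ := Metric.eventually_nhds_iff.mp (h1.and h3)
    exact ⟨ρ₀, hρ₀, fun z hz => h4 (by simpa using hz)⟩
  have hder : ∀ z ∈ ball ζ₀ ρ₁, z ∈ ball (0 : ℂ) 1 → deriv G z = deriv θ z := by
    intro z hz hz1
    apply Filter.EventuallyEq.deriv_eq
    filter_upwards [isOpen_ball.mem_nhds hz, isOpen_ball.mem_nhds hz1] with y h1 h2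
    exact (hball1 y h1).2 h2
  have hG1 : ∀ ζ ∈ ball ζ₀ ρ₁, ‖ζ‖ = 1 → ‖G ζ‖ = 1 := fun ζ hζ hζ1 =>
    unimodular_of_extends hθ (fun z hz => ⟨(hball1 z hz).1.continuousAt, (hball1 z hz).2⟩) hζ hζ1
  -- the derivative of `G` does not vanish at `ζ₀`
  have hG'0 : deriv G ζ₀ ≠ 0 := by
    obtain ⟨κ, hκ⟩ : ∃ κ : ℝ, κ = (1 - ‖θ 0‖) ^ 2 / (1 - ‖θ 0‖ ^ 2) := ⟨_, rfl⟩
    have h00 : ‖θ 0‖ < 1 := hmap 0 (by simp)
    have hn0 := norm_nonneg (θ 0)
    have p0 : 0 < 1 - ‖θ 0‖ ^ 2 := by nlinarith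
    have hκpos : 0 < κ := by
      rw [hκ]
      have : 0 < 1 - ‖θ 0‖ := by linarith
      positivity
    have hlow : ∀ w : ℂ, ‖w‖ < 1 → κ * (1 - ‖w‖ ^ 2) ≤ 1 - ‖θ w‖ ^ 2 := by
      intro w hw
      have h1 := schwarz_pick hθ.holo hmap (z := 0) (by simp) hw
      simp only [norm_zero, map_zero, zero_mul, sub_zero, norm_one, one_pow, div_one, ne_eq,
        OfNat.ofNat_ne_zero, not_false_eq_true, zero_pow, mul_one] at h1
      have h2 : 1 - ‖θ 0‖ ≤ ‖1 - (starRingEnd ℂ) (θ 0) * θ w‖ := by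
        have h3 := norm_sub_norm_le (1 : ℂ) ((starRingEnd ℂ) (θ 0) * θ w)
        rw [norm_mul, RCLike.norm_conj, norm_one] at h3
        have h4 := hmap w hw
        nlinarith [norm_nonneg (θ w)]
      have h5 : (1 - ‖θ 0‖) ^ 2 ≤ ‖1 - (starRingEnd ℂ) (θ 0) * θ w‖ ^ 2 := by
        apply pow_le_pow_left₀ (by linarith) h2
      have h6 : 0 < (1 - ‖θ 0‖) ^ 2 := by
        have : 0 < 1 - ‖θ 0‖ := by linarith
        positivity
      have pw : 0 < 1 - ‖θ w‖ ^ 2 := by nlinarith [norm_nonneg (θ w), hmap w hw]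
      rw [le_div_iff₀ (by linarith)] at h1
      rw [hκ, div_mul_eq_mul_div, div_le_iff₀ p0]
      have pw2 : 0 < 1 - ‖w‖ ^ 2 := by nlinarith [norm_nonneg w]
      nlinarith
    intro hG'
    have hd : HasDerivAt G 0 ζ₀ := by
      have := hGan.differentiableAt.hasDerivAt
      rwa [hG'] at this
    have hlo := hd.isLittleO
    simp only [smul_zero, sub_zero] at hlo
    have hb := hlo.bound (show (0 : ℝ) < κ / 4 by positivity)
    have hb2 := (tendsto_rmul h₀).eventually (nhdsWithin_le_nhds hb)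
    have hb3 := (tendsto_rmul h₀).eventually
      (nhdsWithin_le_nhds (Metric.ball_mem_nhds ζ₀ hρ₁))
    obtain ⟨r, ⟨hr1, hr2⟩, hr3⟩ := ((hb2.and hb3).and
      (Ioo_mem_nhdsLT (show (0 : ℝ) < 1 by norm_num))).exists
    have hrn := norm_rmul hr3 h₀
    have hrb : (r : ℂ) * ζ₀ ∈ ball (0 : ℂ) 1 := by
      simp only [mem_ball, dist_zero_right, hrn]; exact hr3.2
    rw [← dist_eq_norm ((r : ℂ) * ζ₀), dist_rmul hr3.2 h₀, (hball1 _ hr2).2 hrb] at hr1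
    have h7 := hlow ((r : ℂ) * ζ₀) (by rw [hrn]; exact hr3.2)
    rw [hrn] at h7
    have h8 : 1 - ‖θ (r * ζ₀)‖ ≤ ‖θ (r * ζ₀) - G ζ₀‖ := by
      have := norm_sub_norm_le (G ζ₀) (θ (r * ζ₀))
      rw [hG1 ζ₀ (mem_ball_self hρ₁) h₀, norm_sub_rev] at this
      exact this
    have h9 : ‖θ (r * ζ₀)‖ < 1 := hmap _ (by rw [hrn]; exact hr3.2)
    have h10 := hr3.1
    have h11 := hr3.2
    have h12 := norm_nonneg (θ (r * ζ₀))
    have h13 : 1 - ‖θ (r * ζ₀)‖ ^ 2 ≤ 2 * (1 - ‖θ (r * ζ₀)‖) := by nlinarith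
    have h14 : κ * (1 - r) ≤ κ * (1 - r ^ 2) := by
      apply mul_le_mul_of_nonneg_left _ hκpos.le
      nlinarith
    have h15 : 0 < κ * (1 - r) := mul_pos hκpos (by linarith)
    linarith
  -- second radius
  obtain ⟨ρ, hρ, hρρ₁, hG'ne⟩ : ∃ ρ > 0, ρ ≤ ρ₁ ∧ ∀ z ∈ ball ζ₀ ρ, deriv G z ≠ 0 := by
    have h1 : ∀ᶠ z in 𝓝 ζ₀, deriv G z ≠ 0 :=
      hGan.deriv.continuousAt.eventually_ne hG'0
    obtain ⟨ρ', hρ', h2⟩ := Metric.eventually_nhds_iff.mp h1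
    refine ⟨min ρ' ρ₁, lt_min hρ' hρ₁, min_le_right _ _, fun z hz => ?_⟩
    apply h2
    have : dist z ζ₀ < min ρ' ρ₁ := by simpa using hz
    exact this.trans_le (min_le_left _ _)
  have hsub : ∀ z ∈ ball ζ₀ ρ, z ∈ ball ζ₀ ρ₁ := fun z hz => by
    simp only [mem_ball] at hz ⊢; linarith
  have hG'c : ∀ z ∈ ball ζ₀ ρ, ContinuousAt (fun z => Real.log ‖deriv G z‖) z := fun z hz =>
    (hball1 z (hsub z hz)).1.deriv.continuousAt.norm.log (norm_ne_zero_iff.mpr (hG'ne z hz))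
  -- boundary values of `log |O|`
  classical
  set u : ℂ → ℝ := fun ζ => if ζ ∈ ball ζ₀ ρ then Real.log ‖deriv G ζ‖ else Real.log ‖g ζ‖
    with hu
  have hug : (fun ζ => Real.log ‖g ζ‖) =ᵐ[arc] u := by
    filter_upwards [hgr, ae_arc_norm] with ζ h1 h2
    by_cases hζ : ζ ∈ ball ζ₀ ρ
    · simp only [hu, hζ, if_true]
      have h3 : Tendsto (fun r : ℝ => deriv G (r * ζ)) (𝓝[<] 1) (𝓝 (deriv G ζ)) :=
        ((hball1 ζ (hsub ζ hζ)).1.deriv.continuousAt.tendsto.mono_left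
          nhdsWithin_le_nhds).comp (tendsto_rmul h2)
      have h4 : Tendsto (fun r : ℝ => deriv G (r * ζ)) (𝓝[<] 1) (𝓝 (g ζ)) := by
        apply h1.congr'
        have e1 : ∀ᶠ z in 𝓝[ball (0 : ℂ) 1] ζ, deriv G z = deriv θ z := by
          filter_upwards [nhdsWithin_le_nhds (isOpen_ball.mem_nhds hζ), self_mem_nhdsWithin]
            with z hz1 hz2
          exact hder z (hsub z hz1) hz2
        filter_upwards [(tendsto_rmul h2).eventually e1] with r hr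
        exact hr.symm
      rw [tendsto_nhds_unique h3 h4]
    · simp only [hu, hζ, if_false]
  have hui : Integrable u arc := hgi.congr hug
  have hO : ∀ z : ℂ, ‖z‖ < 1 → Real.log ‖outerFn g z‖ = ∫ ζ, pk z ζ * u ζ ∂arc := by
    intro z hz
    rw [norm_outerFn hgi hz, Real.log_exp]
    apply integral_congr_ae
    filter_upwards [hug] with ζ hζ
    rw [hζ]
  have hOlim : ∀ ζ ∈ ball ζ₀ ρ, ‖ζ‖ = 1 →
      Tendsto (fun z => Real.log ‖outerFn g z‖) (𝓝[ball 0 1] ζ) (𝓝 (Real.log ‖deriv G ζ‖)) := by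
    intro ζ hζ hζ1
    have h1 : Tendsto u (𝓝[sphere 0 1] ζ) (𝓝 (Real.log ‖deriv G ζ‖)) := by
      have h2 : Tendsto (fun z => Real.log ‖deriv G z‖) (𝓝[sphere 0 1] ζ)
          (𝓝 (Real.log ‖deriv G ζ‖)) := (hG'c ζ hζ).tendsto.mono_left nhdsWithin_le_nhds
      apply h2.congr'
      filter_upwards [nhdsWithin_le_nhds (isOpen_ball.mem_nhds hζ)] with z hz
      simp only [hu, hz, if_true]
    apply (poisson_tendsto hui hζ1 h1).congr'
    filter_upwards [self_mem_nhdsWithin] with z hz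
    exact (hO z (by simpa using hz)).symm
  -- `h → 0` on the arc
  have hfne : ∀ z ∈ ball ζ₀ ρ, z ∈ ball (0 : ℂ) 1 → deriv θ z ≠ 0 := by
    intro z hz hz1
    rw [← hder z (hsub z hz) hz1]
    exact hG'ne z hz
  have hhlim : ∀ ζ ∈ ball ζ₀ ρ, ‖ζ‖ = 1 →
      Tendsto (fun z => -Real.log ‖B z‖ + pint μ z - pint ν z) (𝓝[ball 0 1] ζ) (𝓝 0) := by
    intro ζ hζ hζ1
    have h1 : Tendsto (fun z => Real.log ‖deriv G z‖) (𝓝[ball 0 1] ζ)
        (𝓝 (Real.log ‖deriv G ζ‖)) := (hG'c ζ hζ).tendsto.mono_left nhdsWithin_le_nhds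
    have h2 := (hOlim ζ hζ hζ1).sub h1
    rw [sub_self] at h2
    apply h2.congr'
    filter_upwards [nhdsWithin_le_nhds (isOpen_ball.mem_nhds hζ), self_mem_nhdsWithin]
      with z hz1 hz2
    rw [hder z (hsub z hz1) hz2, log_norm_f hcf.circle_μ hcf.circle_ν hc hgi hfac hz2
      (hfne z hz1 hz2)]
    ring
  have hkey := key_measures (μ := μ) (ν := ν) hcf.circle_μ hcf.circle_ν hcf.singular_μ
    hcf.singular_μν hBd.continuousOn hBle hBmean h₀ hρ (w := fun _ => 0) continuousOn_const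
    (fun _ _ _ => le_rfl) hhlim
  obtain ⟨_, hν0, _⟩ := hkey
  -- reflection for `I`
  apply reflection hId h₀ (half_pos hρ)
  intro ζ hζ hζ1
  have hζρ : ζ ∈ ball ζ₀ ρ := by
    simp only [mem_ball] at hζ ⊢; linarith
  have h3 := pint_tendsto_zero hcf.circle_ν hζ1 isOpen_ball hζ hν0
  have h4 := ((hhlim ζ hζρ hζ1).add h3).neg.rexp
  rw [add_zero, neg_zero, Real.exp_zero] at h4
  apply h4.congr'
  filter_upwards [nhdsWithin_le_nhds (isOpen_ball.mem_nhds hζρ), self_mem_nhdsWithin]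
    with z hz1 hz2
  have hB0 : B z ≠ 0 := fun h => hfne z hz1 hz2 ((B_zero hc hfac hz2).mp h)
  rw [hInorm z hz2]
  have e : -(-Real.log ‖B z‖ + pint μ z - pint ν z + pint ν z)
      = Real.log ‖B z‖ + -pint μ z := by ring
  rw [e, Real.exp_add, Real.exp_log (norm_pos_iff.mpr hB0)]

/-- **Main theorem.** -/
theorem boundarySpectrum_eq {θ I : ℂ → ℂ} (hθ : IsInner θ)
    (hnc : ∃ z ∈ ball (0 : ℂ) 1, ∃ w ∈ ball (0 : ℂ) 1, θ z ≠ θ w)
    (hI : IsInnerFactorOf I (deriv θ)) :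
    boundarySpectrum I = boundarySpectrum θ := by
  ext ζ
  constructor
  · rintro ⟨h1, h2⟩
    exact ⟨h1, fun h => h2 (inner_factor_extends hθ hnc hI h1 h)⟩
  · rintro ⟨h1, h2⟩
    exact ⟨h1, fun h => h2 (theta_extends hθ hnc hI h1 h)⟩

end Pool.Agent.Lib.MP_e685ae_an
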