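import Pool.Agent.Lib.MP_e685ae_an.Arc

/-!
# Boundary behaviour of Poisson integrals
-/

namespace Pool.Agent.Lib.MP_e685ae_an

open Complex MeasureTheory Metric Filter Topology Set

/-- Away from `ζ₁` the Poisson kernel tends to zero uniformly as `z → ζ₁`. -/
lemma pk_tendstoUniformlyOn {ζ₁ : ℂ} (h1 : ‖ζ₁‖ = 1) {u : Set ℂ} (hu : IsOpen u) (hmem : ζ₁ ∈ u)
    {s : Set ℂ} :
    TendstoUniformlyOn pk 0 (𝓝[ball 0 1] ζ₁) (s \ u) := by
  obtain ⟨d, hd, hdu⟩ := Metric.isOpen_iff.mp hu ζ₁ hmem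
  rw [Metric.tendstoUniformlyOn_iff]
  intro ε hε
  have hlim : Tendsto (fun z : ℂ => (1 - ‖z‖ ^ 2) / (d / 2) ^ 2) (𝓝[ball 0 1] ζ₁) (𝓝 0) := by
    have : Tendsto (fun z : ℂ => (1 - ‖z‖ ^ 2) / (d / 2) ^ 2) (𝓝 ζ₁)
        (𝓝 ((1 - ‖ζ₁‖ ^ 2) / (d / 2) ^ 2)) := Continuous.tendsto (by fun_prop) _
    rw [h1] at this
    simp only [one_pow, sub_self, zero_div] at this
    exact this.mono_left nhdsWithin_le_nhds
  filter_upwards [hlim.eventually_lt_const hε, self_mem_nhdsWithin,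
    nhdsWithin_le_nhds (ball_mem_nhds ζ₁ (half_pos hd))] with z hz1 hz2 hz3
  intro x hx
  have hz : ‖z‖ < 1 := by simpa using hz2
  simp only [Pi.zero_apply, dist_zero_left]
  rw [Real.norm_of_nonneg (pk_nonneg hz x)]
  have hxd : d ≤ dist x ζ₁ := by
    by_contra hcon
    exact hx.2 (hdu (by simpa using hcon))
  have hzd : dist z ζ₁ < d / 2 := by simpa using hz3
  have hxz : d / 2 ≤ ‖x - z‖ := by
    rw [← dist_eq_norm]
    have := dist_triangle x z ζ₁
    linarith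
  refine lt_of_le_of_lt ?_ hz1
  unfold pk
  have h0 : 0 ≤ 1 - ‖z‖ ^ 2 := by nlinarith [norm_nonneg z]
  gcongr

/-- Poisson integrals of integrable functions attain continuous boundary values. -/
theorem poisson_tendsto {u : ℂ → ℝ} (hu : Integrable u arc) {ζ₁ : ℂ} (h1 : ‖ζ₁‖ = 1) {a : ℝ}
    (hc : Tendsto u (𝓝[sphere 0 1] ζ₁) (𝓝 a)) :
    Tendsto (fun z => ∫ ζ, pk z ζ * u ζ ∂arc) (𝓝[ball 0 1] ζ₁) (𝓝 a) := by
  have key := tendsto_setIntegral_peak_smul_of_integrableOn_of_tendsto (μ := arc)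
    (s := sphere 0 1) (t := sphere 0 1) (φ := pk) (l := 𝓝[ball 0 1] ζ₁) (g := u) (x₀ := ζ₁)
    (a := a) isClosed_sphere.measurableSet isClosed_sphere.measurableSet le_rfl
    self_mem_nhdsWithin (measure_ne_top _ _) ?_ ?_ ?_ ?_ hu.integrableOn hc
  · rw [arc_restrict_sphere] at key
    simpa only [smul_eq_mul] using key
  · filter_upwards [self_mem_nhdsWithin] with z hz x _
    exact pk_nonneg (by simpa using hz) x
  · intro v hv hmem
    exact pk_tendstoUniformlyOn h1 hv hmem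
  · rw [arc_restrict_sphere]
    apply tendsto_const_nhds.congr'
    filter_upwards [self_mem_nhdsWithin] with z hz
    exact (integral_pk (by simpa using hz)).symm
  · filter_upwards [self_mem_nhdsWithin] with z hz
    rw [arc_restrict_sphere]
    exact (integrable_pk (by simpa using hz)).aestronglyMeasurable

end Pool.Agent.Lib.MP_e685ae_an
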