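import Pool.Agent.Lib.MP_e685ae_an.PoissonBdry

/-!
# Weak convergence of Poisson integrals of measures
-/

namespace Pool.Agent.Lib.MP_e685ae_an

open Complex MeasureTheory Metric Filter Topology Set

/-- The Poisson integral of a measure. -/
noncomputable def pint (μ : Measure ℂ) (z : ℂ) : ℝ := ∫ ξ, pk z ξ ∂μ

lemma pk_symm {ζ ξ : ℂ} (hζ : ‖ζ‖ = 1) (hξ : ‖ξ‖ = 1) (r : ℝ) :
    pk (r * ζ) ξ = pk (r * ξ) ζ := by
  unfold pk
  have h1 : ‖ξ - r * ζ‖ ^ 2 = ‖ζ - r * ξ‖ ^ 2 := by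
    have e1 : ζ.re ^ 2 + ζ.im ^ 2 = 1 := by
      have := normSq_eq_norm_sq ζ
      rw [hζ, normSq_apply] at this; nlinarith
    have e2 : ξ.re ^ 2 + ξ.im ^ 2 = 1 := by
      have := normSq_eq_norm_sq ξ
      rw [hξ, normSq_apply] at this; nlinarith
    rw [← normSq_eq_norm_sq, ← normSq_eq_norm_sq, normSq_apply, normSq_apply]
    simp only [sub_re, mul_re, ofReal_re, ofReal_im, sub_im, mul_im, zero_mul, sub_zero, add_zero]
    linear_combination (1 - r ^ 2) * e2 - (1 - r ^ 2) * e1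
  rw [h1, norm_mul, norm_mul, hζ, hξ]

lemma measurable_pk2 (r : ℝ) : Measurable (fun p : ℂ × ℂ => pk (r * p.1) p.2) := by
  unfold pk
  fun_prop

lemma ae_norm_of_circle {μ : Measure ℂ} (hμ : μ (sphere 0 1)ᶜ = 0) : ∀ᵐ ξ ∂μ, ‖ξ‖ = 1 := by
  rw [ae_iff]
  refine measure_mono_null ?_ hμ
  intro x hx
  simpa using hx

lemma norm_rmul {r : ℝ} (hr : r ∈ Ioo (0 : ℝ) 1) {ζ : ℂ} (hζ : ‖ζ‖ = 1) : ‖(r : ℂ) * ζ‖ = r := by
  rw [norm_mul, hζ, mul_one, norm_real, Real.norm_of_nonneg hr.1.le]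

/-- Bounded measurable functions are integrable; used for `pint`. -/
lemma integrable_pk_measure {μ : Measure ℂ} [IsFiniteMeasure μ] (hμ : μ (sphere 0 1)ᶜ = 0)
    {z : ℂ} (hz : ‖z‖ < 1) : Integrable (pk z) μ := by
  apply Integrable.of_bound (C := (1 + ‖z‖) / (1 - ‖z‖))
  · apply Measurable.aestronglyMeasurable
    unfold pk; fun_prop
  · filter_upwards [ae_norm_of_circle hμ] with ξ hξ
    exact norm_pk_le hz hξ

lemma pint_nonneg {μ : Measure ℂ} {z : ℂ} (hz : ‖z‖ < 1) : 0 ≤ pint μ z :=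
  integral_nonneg (fun ξ => pk_nonneg hz ξ)

/-- Weak convergence: `∫ φ(ζ) P[μ](r ζ) dm(ζ) → ∫ φ dμ`. -/
theorem weak_limit {μ : Measure ℂ} [IsFiniteMeasure μ] (hμ : μ (sphere 0 1)ᶜ = 0) {φ : ℂ → ℝ}
    (hφ : Continuous φ) :
    Tendsto (fun r : ℝ => ∫ ζ, φ ζ * pint μ (r * ζ) ∂arc) (𝓝[<] 1) (𝓝 (∫ ξ, φ ξ ∂μ)) := by
  obtain ⟨C, hC⟩ := (isCompact_sphere (0 : ℂ) 1).exists_bound_of_continuousOn hφ.continuousOn
  have hC0 : 0 ≤ C := (norm_nonneg _).trans (hC 1 (by simp))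
  -- Fubini
  have hfub : ∀ r ∈ Ioo (0 : ℝ) 1, ∫ ζ, φ ζ * pint μ (r * ζ) ∂arc
      = ∫ ξ, (∫ ζ, pk (r * ξ) ζ * φ ζ ∂arc) ∂μ := by
    intro r hr
    have hb : ∀ᵐ p ∂(arc.prod μ), ‖φ p.1 * pk (r * p.1) p.2‖ ≤ C * ((1 + r) / (1 - r)) := by
      have h1 : ∀ᵐ p ∂(arc.prod μ), ‖p.1‖ = 1 :=
        Measure.quasiMeasurePreserving_fst.ae ae_arc_norm
      have h2 : ∀ᵐ p ∂(arc.prod μ), ‖p.2‖ = 1 :=
        Measure.quasiMeasurePreserving_snd.ae (ae_norm_of_circle hμ)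
      filter_upwards [h1, h2] with p hp1 hp2
      rw [norm_mul]
      have h3 : ‖(r : ℂ) * p.1‖ = r := norm_rmul hr hp1
      have h4 := norm_pk_le (z := (r : ℂ) * p.1) (ζ := p.2) (by rw [h3]; exact hr.2) hp2
      rw [h3] at h4
      exact mul_le_mul (hC _ (by simpa using hp1)) h4 (norm_nonneg _) hC0
    have hmeas : Measurable (fun p : ℂ × ℂ => φ p.1 * pk (r * p.1) p.2) :=
      (hφ.measurable.comp measurable_fst).mul (measurable_pk2 r)
    have hint : Integrable (fun p : ℂ × ℂ => φ p.1 * pk (r * p.1) p.2) (arc.prod μ) :=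
      Integrable.of_bound hmeas.aestronglyMeasurable _ hb
    have e1 : ∫ ζ, φ ζ * pint μ (r * ζ) ∂arc = ∫ ζ, ∫ ξ, φ ζ * pk (r * ζ) ξ ∂μ ∂arc := by
      congr 1; ext ζ
      unfold pint
      rw [integral_const_mul]
    rw [e1, integral_integral_swap hint]
    apply integral_congr_ae
    filter_upwards [ae_norm_of_circle hμ] with ξ hξ
    apply integral_congr_ae
    filter_upwards [ae_arc_norm] with ζ hζ
    rw [pk_symm hζ hξ, mul_comm]
  have hφi : Integrable φ arc := integrable_of_continuousOn hφ.continuousOn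
  have hlim : Tendsto (fun r : ℝ => ∫ ξ, (∫ ζ, pk (r * ξ) ζ * φ ζ ∂arc) ∂μ) (𝓝[<] 1)
      (𝓝 (∫ ξ, φ ξ ∂μ)) := by
    apply tendsto_integral_filter_of_dominated_convergence (fun _ => C)
    · filter_upwards [Ioo_mem_nhdsLT (show (0 : ℝ) < 1 by norm_num)] with r hr
      have hm : StronglyMeasurable (fun p : ℂ × ℂ => pk (r * p.1) p.2 * φ p.2) :=
        ((measurable_pk2 r).mul (hφ.measurable.comp measurable_snd)).stronglyMeasurable
      exact hm.integral_prod_right.aestronglyMeasurable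
    · filter_upwards [Ioo_mem_nhdsLT (show (0 : ℝ) < 1 by norm_num)] with r hr
      filter_upwards [ae_norm_of_circle hμ] with ξ hξ
      have h3 : ‖(r : ℂ) * ξ‖ < 1 := by rw [norm_rmul hr hξ]; exact hr.2
      calc ‖∫ ζ, pk (r * ξ) ζ * φ ζ ∂arc‖ ≤ ∫ ζ, pk (r * ξ) ζ * C ∂arc := by
            apply norm_integral_le_of_norm_le ((integrable_pk h3).mul_const C)
            filter_upwards [ae_arc_norm] with ζ hζ
            rw [norm_mul, Real.norm_of_nonneg (pk_nonneg h3 ζ)]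
            exact mul_le_mul_of_nonneg_left (hC _ (by simpa using hζ)) (pk_nonneg h3 ζ)
        _ = C := by rw [integral_mul_const, integral_pk h3, one_mul]
    · exact integrable_const _
    · filter_upwards [ae_norm_of_circle hμ] with ξ hξ
      have h4 := poisson_tendsto hφi hξ (a := φ ξ) (hφ.continuousAt.continuousWithinAt)
      have h5 : Tendsto (fun r : ℝ => (r : ℂ) * ξ) (𝓝[<] 1) (𝓝[ball 0 1] ξ) := by
        apply tendsto_nhdsWithin_of_tendsto_nhds_of_eventually_within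
        · have : Tendsto (fun r : ℝ => (r : ℂ) * ξ) (𝓝 1) (𝓝 (((1 : ℝ) : ℂ) * ξ)) :=
            Continuous.tendsto (by fun_prop) _
          simp only [ofReal_one, one_mul] at this
          exact this.mono_left nhdsWithin_le_nhds
        · filter_upwards [Ioo_mem_nhdsLT (show (0 : ℝ) < 1 by norm_num)] with r hr
          simp only [mem_ball, dist_zero_right]
          rw [norm_rmul hr hξ]; exact hr.2
      exact h4.comp h5
  refine hlim.congr' ?_
  filter_upwards [Ioo_mem_nhdsLT (show (0 : ℝ) < 1 by norm_num)] with r hr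
  exact (hfub r hr).symm

/-- Arc length charges every neighbourhood of a point of the circle. -/
lemma arc_pos {ζ₁ : ℂ} (h1 : ‖ζ₁‖ = 1) {U : Set ℂ} (hU : IsOpen U) (hmem : ζ₁ ∈ U) :
    arc U ≠ 0 := by
  intro h0
  have hae : ∀ᵐ ζ ∂arc, ζ ∉ U := measure_eq_zero_iff_ae_notMem.mp h0
  rw [ae_arc_iff (p := fun ζ => ζ ∉ U) hU.measurableSet.compl] at hae
  -- pick the parameter of `ζ₁`
  obtain ⟨t₁, ht₁, ht₁'⟩ : ∃ t₁ ∈ Ioc (0 : ℝ) (2 * Real.pi), circleMap 0 1 t₁ = ζ₁ := by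
    have hmem : ζ₁ ∈ sphere (0 : ℂ) |1| := by simpa using h1
    rw [← image_circleMap_Ioc 0 1] at hmem
    exact hmem
  have hopen : IsOpen (circleMap 0 1 ⁻¹' U) := hU.preimage (continuous_circleMap 0 1)
  obtain ⟨ε, hε, hε'⟩ := Metric.isOpen_iff.mp hopen t₁ (by simpa [ht₁'] using hmem)
  have hsub : Ioo (max 0 (t₁ - ε)) t₁ ⊆ circleMap 0 1 ⁻¹' U ∩ Ioc 0 (2 * Real.pi) := by
    intro t ht
    have ht1 : max 0 (t₁ - ε) < t := ht.1
    have ht2 : t < t₁ := ht.2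
    have h2 : 0 < t := (le_max_left _ _).trans_lt ht1
    have h3 : t₁ - ε < t := (le_max_right _ _).trans_lt ht1
    refine ⟨hε' ?_, h2, ht2.le.trans ht₁.2⟩
    rw [Metric.mem_ball, Real.dist_eq, abs_lt]
    constructor <;> linarith
  have hpos : (0 : ENNReal) < volume (Ioo (max 0 (t₁ - ε)) t₁) := by
    rw [Real.volume_Ioo, ENNReal.ofReal_pos, sub_pos]
    exact max_lt ht₁.1 (by linarith)
  have hzero : volume (circleMap 0 1 ⁻¹' U ∩ Ioc 0 (2 * Real.pi)) = 0 := by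
    rw [ae_restrict_iff' measurableSet_Ioc] at hae
    refine measure_mono_null ?_ (ae_iff.mp hae)
    intro t ht
    simp only [mem_ofPred_eq]
    intro hcon
    exact hcon ht.2 ht.1
  exact absurd (measure_mono_null hsub hzero) hpos.ne'

end Pool.Agent.Lib.MP_e685ae_an
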